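import Pool.Agent.Lib.DI.F.SpecF

/-!
# THEOREM DI, Part F: the element beta (F1)
-/

set_option autoImplicit false

open scoped Pointwise

noncomputable section

namespace Pool.Agent.DI.F

open Pool.Agent.MuZ Pool.Agent.DI

namespace BetaAux

variable {f : ℕ} {Sg : Finset Gal(Om/ℚ)}

/-- Reindexing by a left multiplication. -/
theorem sum_left {A : Type} [AddCommMonoid A] (hSg : IsSg f Sg) (G : Gal(Om/ℚ) → A)
    (hGc : ∀ τ ∈ GK, ∀ τ' ∈ GK, (∀ x ∈ Lf f, τ x = τ' x) → G τ = G τ') (τ : Gal(Om/ℚ)) (hτ : τ ∈ GK) :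
    ∑ s ∈ Sg, G (τ * s) = ∑ s ∈ Sg, G s := by
  have hm : ∀ s ∈ Sg, τ * s ∈ GK := fun s hs => GK.mul_mem hτ (hSg.mem s hs)
  have hinv : τ⁻¹ ∈ GK := GK.inv_mem hτ
  refine Finset.sum_bij (fun s hs => (hSg.ex (τ * s) (hm s hs)).choose) ?_ ?_ ?_ ?_
  · intro s hs
    exact (hSg.ex (τ * s) (hm s hs)).choose_spec.1
  · intro s hs s' hs' h
    have h1 := (hSg.ex (τ * s) (hm s hs)).choose_spec.2
    have h2 := (hSg.ex (τ * s') (hm s' hs')).choose_spec.2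
    apply hSg.uni s hs s' hs'
    intro x hx
    have h3 := h1 x hx
    have h4 := h2 x hx
    rw [h, h4] at h3
    exact τ.injective h3.symm
  · intro t ht
    obtain ⟨s, hs, hst⟩ := hSg.ex (τ⁻¹ * t) (GK.mul_mem hinv (hSg.mem t ht))
    refine ⟨s, hs, ?_⟩
    have h1 := (hSg.ex (τ * s) (hm s hs)).choose_spec
    apply hSg.uni _ h1.1 t ht
    intro x hx
    rw [h1.2 x hx]
    change τ (s x) = t x
    rw [hst x hx]
    change (τ * (τ⁻¹ * t)) x = t x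
    rw [mul_inv_cancel_left]
  · intro s hs
    have h1 := (hSg.ex (τ * s) (hm s hs)).choose_spec
    exact hGc _ (hm s hs) _ (hSg.mem _ h1.1) fun x hx => (h1.2 x hx).symm

/-- Reindexing by a right multiplication. -/
theorem sum_right {A : Type} [AddCommMonoid A] (hSg : IsSg f Sg)
    (hab : ∀ τ ∈ GK, ∀ τ' ∈ GK, ∀ x ∈ Lf f, τ (τ' x) = τ' (τ x))
    (G : Gal(Om/ℚ) → A)
    (hGc : ∀ τ ∈ GK, ∀ τ' ∈ GK, (∀ x ∈ Lf f, τ x = τ' x) → G τ = G τ') (τ : Gal(Om/ℚ)) (hτ : τ ∈ GK) :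
    ∑ s ∈ Sg, G (s * τ) = ∑ s ∈ Sg, G s := by
  rw [← sum_left hSg G hGc τ hτ]
  apply Finset.sum_congr rfl
  intro s hs
  apply hGc _ (GK.mul_mem (hSg.mem s hs) hτ) _ (GK.mul_mem hτ (hSg.mem s hs))
  intro x hx
  exact hab s (hSg.mem s hs) τ hτ x hx

/-- The ring `R`. -/
def RR (f : ℕ) {P : Ideal ZZ} (hP : P.IsPrime) : Subring Om where
  carrier := {x | x ∈ Lf f ∧ ∀ τ ∈ GK, VP P (τ x)}
  mul_mem' := by
    rintro x y ⟨hx, hx'⟩ ⟨hy, hy'⟩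
    refine ⟨mul_mem hx hy, fun τ hτ => ?_⟩
    rw [map_mul]
    exact vp_mul hP (hx' τ hτ) (hy' τ hτ)
  one_mem' := by
    refine ⟨one_mem _, fun τ _ => ?_⟩
    rw [map_one]
    exact vp_one hP
  add_mem' := by
    rintro x y ⟨hx, hx'⟩ ⟨hy, hy'⟩
    refine ⟨add_mem hx hy, fun τ hτ => ?_⟩
    rw [map_add]
    exact vp_add hP (hx' τ hτ) (hy' τ hτ)
  zero_mem' := by
    refine ⟨zero_mem _, fun τ _ => ?_⟩
    rw [map_zero]
    exact vp_zero hP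
  neg_mem' := by
    rintro x ⟨hx, hx'⟩
    refine ⟨neg_mem hx, fun τ hτ => ?_⟩
    rw [map_neg]
    exact vp_neg hP (hx' τ hτ)

theorem mem_RR {P : Ideal ZZ} (hP : P.IsPrime) (x : Om) :
    x ∈ RR f hP ↔ x ∈ Lf f ∧ ∀ τ ∈ GK, VP P (τ x) := Iff.rfl

/-- The residue maps. -/
def rr (f : ℕ) {P : Ideal ZZ} (hP : P.IsPrime) (h0 : P ≠ ⊥) (τ : Gal(Om/ℚ)) (hτ : τ ∈ GK) :
    RR f hP →+* RF hP h0 where
  toFun x := red hP h0 (τ (x : Om))
  map_one' := by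
    change red hP h0 (τ (1 : Om)) = 1
    rw [map_one]
    exact red_one hP h0
  map_mul' x y := by
    change red hP h0 (τ ((x : Om) * (y : Om))) = _
    rw [map_mul]
    exact red_mul hP h0 (x.2.2 τ hτ) (y.2.2 τ hτ)
  map_zero' := by
    change red hP h0 (τ (0 : Om)) = 0
    rw [map_zero]
    exact red_zero hP h0
  map_add' x y := by
    change red hP h0 (τ ((x : Om) + (y : Om))) = _
    rw [map_add]
    exact red_add hP h0 (x.2.2 τ hτ) (y.2.2 τ hτ)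

theorem rr_apply {P : Ideal ZZ} (hP : P.IsPrime) (h0 : P ≠ ⊥) (τ : Gal(Om/ℚ)) (hτ : τ ∈ GK)
    (x : RR f hP) : rr f hP h0 τ hτ x = red hP h0 (τ (x : Om)) := rfl

theorem w_mul : wO * wbO = 2 := by
  have h := wO_sq
  unfold wbO
  linear_combination (-1 : Om) * h

theorem mp2 {P : Ideal ZZ} (hP : AbPi P) : MP P 2 := by
  rw [← w_mul]
  exact mp_mul_vp hP.1 hP.2.2 (vp_sub hP.1 (vp_one hP.1) (mp_vp hP.2.2))

theorem upwb {P : Ideal ZZ} (hP : AbPi P) : UP P wbO := by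
  refine ⟨vp_sub hP.1 (vp_one hP.1) (mp_vp hP.2.2), fun h => ?_⟩
  have h1 := mp_add hP.1 h hP.2.2
  have h2 : wbO + wO = 1 := by unfold wbO; ring
  rw [h2] at h1
  exact not_mp_one hP.1 h1

/-- The first step: the element `b`. -/
theorem exists_b (hLin : S_Lin) (hResFin : S_ResFin) (hDist : S_Dist) (hKP : S_KP) (hGal : S_Gal)
    {P : Ideal ZZ} (hf : Odd f) (h7 : 7 ∣ f) (hP : AbPi P) (hSg : IsSg f Sg)
    (κ : Gal(Om/ℚ) → Om) (S : Set Om) (hκ : ∀ s ∈ Sg, UP P (κ s))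
    (hS : ∀ w ∈ S, w ∈ Lf f ∧ ∀ Q : Ideal ZZ, Npr Q → MP Q 2 → VP Q w) (hS' : ∀ w ∈ S, ∀ τ ∈ GK, τ w ∈ S)
    (hS'' : ∀ w ∈ S, MP P (∑ s ∈ Sg, κ s * s w)) :
    ∃ b ∈ RR f hP.1, (∃ s0 ∈ Sg, ¬ MP P (s0 b)) ∧ ∀ w ∈ S, MP P (∑ s ∈ Sg, s (b * w)) := by
  classical
  obtain ⟨hPp, h0, hw⟩ := id hP
  obtain ⟨hfd, -, -, -, -, hst, hfix, -, -, hab⟩ := hGal f hf h7
  have h2 : (2 : ZZ) ∈ P := (mp_coe hPp 2).1 (mp2 hP)
  have := charP_RF hPp h0 h2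
  have hvS : ∀ w ∈ S, ∀ τ ∈ GK, VP P (τ w) := fun w hw τ hτ =>
    (hS _ (hS' w hw τ hτ)).2 P ⟨hPp, h0⟩ (mp2 hP)
  have hSR : ∀ w ∈ S, w ∈ RR f hPp := fun w hw => ⟨(hS w hw).1, hvS w hw⟩
  let r : {s // s ∈ Sg} → RR f hPp →+* RF hPp h0 := fun s => rr f hPp h0 s.1 (hSg.mem s.1 s.2)
  have hinj : Function.Injective r := by
    intro s s' h
    apply Subtype.ext
    apply hSg.uni s.1 s.2 s'.1 s'.2
    apply hDist f hf h7 P hPp h0 (mp2 hP) s.1 (hSg.mem s.1 s.2) s'.1 (hSg.mem s'.1 s'.2)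
    intro x hx hxi
    have hxv : ∀ τ : Gal(Om/ℚ), VP P (τ x) := fun τ =>
      vp_integral hPp (hxi.map ((τ : Om ≃ₐ[ℚ] Om).toAlgHom.restrictScalars ℤ))
    have hxR : x ∈ RR f hPp := ⟨hx, fun τ _ => hxv τ⟩
    have h3 := RingHom.congr_fun h ⟨x, hxR⟩
    rw [← red_eq_iff hPp h0 (hxv s.1) (hxv s'.1)]
    exact h3
  have hfin : (Set.range fun (x : RR f hPp) (i : {s // s ∈ Sg}) => r i x).Finite := by
    have h3 := hResFin P hPp h0 h2 (Lf f) hfd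
    apply (Set.Finite.pi (fun _ : {s // s ∈ Sg} => h3)).subset
    rintro _ ⟨x, rfl⟩ i _
    exact ⟨i.1 (x : Om), hst _ _ x.2.1, x.2.2 _ (hSg.mem _ i.2), rfl⟩
  have hsum : ∀ x : Om, x ∈ RR f hPp → ∀ i0 : RF hPp h0,
      i0 = ∑ i : {s // s ∈ Sg}, red hPp h0 (i.1 x) → i0 = red hPp h0 (∑ s ∈ Sg, s x) := by
    intro x hx i0 hi
    rw [hi, red_sum hPp h0 Sg (fun s => s x) fun s hs => hx.2 s (hSg.mem s hs)]
    exact (Finset.sum_coe_sort Sg fun s => red hPp h0 (s x))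
  have h01 : ∀ x : RR f hPp, ∑ i, r i x = 0 ∨ ∑ i, r i x = 1 := by
    intro x
    have h3 := hsum x x.2 (∑ i, r i x) rfl
    have hv : VP P (∑ s ∈ Sg, s (x : Om)) := vp_sum hPp _ _ fun s hs => x.2.2 s (hSg.mem s hs)
    have hK : (∑ s ∈ Sg, s (x : Om)) ∈ KQ := by
      apply hfix
      intro τ hτ
      rw [map_sum]
      exact sum_left hSg (fun s => s (x : Om)) (fun a _ b _ hh => hh _ x.2.1) τ hτ
    rw [h3]
    rcases (hKP P hP).2.1 _ hK hv with h4 | h4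
    · left
      exact (red_eq_zero_iff hPp h0 hv).2 h4
    · right
      rw [← red_one hPp h0]
      exact (red_eq_iff hPp h0 hv (vp_one hPp)).2 h4
  obtain ⟨s1, hs1, -⟩ := hSg.ex 1 GK.one_mem
  obtain ⟨b, ⟨i, hi⟩, hb⟩ := hLin (RR f hPp) (RF hPp h0) {s // s ∈ Sg} r hinj hfin h01
    (fun i => red hPp h0 (κ i.1)) {w | (w : Om) ∈ S}
    ⟨⟨s1, hs1⟩, fun h => (hκ s1 hs1).2 ((red_eq_zero_iff hPp h0 (hκ s1 hs1).1).1 h)⟩ (by
      intro w hw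
      have hw' : (w : Om) ∈ S := hw
      have h3 := (red_eq_zero_iff hPp h0 (mp_vp (hS'' _ hw'))).2 (hS'' _ hw')
      rw [red_sum hPp h0 Sg _ fun s hs =>
        vp_mul hPp (hκ s hs).1 (hvS _ hw' s (hSg.mem s hs))] at h3
      rw [← h3, ← Finset.sum_coe_sort Sg fun s => red hPp h0 (κ s * s (w : Om))]
      apply Finset.sum_congr rfl
      intro s _
      exact (red_mul hPp h0 (hκ s.1 s.2).1 (hvS _ hw' s.1 (hSg.mem s.1 s.2))).symm)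
  refine ⟨b, b.2, ⟨i.1, i.2, fun h => hi ?_⟩, ?_⟩
  · exact (red_eq_zero_iff hPp h0 (mp_vp h)).2 h
  · intro w hw
    have h3 := hb ⟨w, hSR w hw⟩ hw
    have hv : ∀ s ∈ Sg, VP P (s ((b : Om) * w)) := by
      intro s hs
      rw [map_mul]
      exact vp_mul hPp (b.2.2 s (hSg.mem s hs)) (hvS w hw s (hSg.mem s hs))
    rw [← red_eq_zero_iff hPp h0 (vp_sum hPp _ _ hv), red_sum hPp h0 Sg _ hv, ← h3,
      ← Finset.sum_coe_sort Sg fun s => red hPp h0 (s ((b : Om) * w))]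
    apply Finset.sum_congr rfl
    intro s _
    rw [map_mul]
    exact red_mul hPp h0 (b.2.2 s.1 (hSg.mem s.1 s.2)) (hvS w hw s.1 (hSg.mem s.1 s.2))

theorem vp_two_pow_le {P : Ideal ZZ} (hP : P.IsPrime) {x : Om} {j k : ℕ} (h : j ≤ k)
    (hx : VP P (2 ^ j * x)) : VP P (2 ^ k * x) := by
  obtain ⟨i, rfl⟩ := Nat.exists_eq_add_of_le h
  have h1 : (2 : Om) ^ (j + i) * x = ((2 ^ i : ℕ) : Om) * (2 ^ j * x) := by
    push_cast
    ring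
  rw [h1]
  exact vp_mul hP (vp_natCast hP _) hx

end BetaAux

open BetaAux

theorem tBeta (hLin : S_Lin) (hResFin : S_ResFin) (hDist : S_Dist) (hCc : S_Cc) (hKP : S_KP)
    (hGal : S_Gal) : S_Beta := by
  intro f P Sg c hf h7 hP hSg hc κ S hκ hS hS' hS''
  obtain ⟨b, hbR, ⟨s0, hs0, hs0b⟩, hb⟩ :=
    exists_b hLin hResFin hDist hKP hGal hf h7 hP hSg κ S hκ hS hS' hS''
  obtain ⟨hPp, h0, hw⟩ := id hP
  obtain ⟨-, hwL, hwfix, -, -, hst, -, -, -, hab⟩ := hGal f hf h7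
  obtain ⟨hcw, -, -, -⟩ := hCc c hc
  have h2 : (2 : ZZ) ∈ P := (mp_coe hPp 2).1 (mp2 hP)
  have hs0G := hSg.mem s0 hs0
  have hvS : ∀ w ∈ S, ∀ τ ∈ GK, VP P (τ w) := fun w hw τ hτ =>
    (hS _ (hS' w hw τ hτ)).2 P ⟨hPp, h0⟩ (mp2 hP)
  have hwbL : wbO ∈ Lf f := sub_mem (one_mem _) hwL
  have hwbfix : ∀ τ ∈ GK, τ wbO = wbO := by
    intro τ hτ
    unfold wbO
    rw [map_sub, map_one, hwfix τ hτ]
  have hcwb : c wbO = wO := by
    unfold wbO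
    rw [map_sub, map_one, hcw]
    ring
  have hcw' : c wO = wbO := hcw
  -- the element `b1`
  obtain ⟨b1, hb1⟩ : ∃ b1, b1 = s0 b := ⟨_, rfl⟩
  have hb1L : b1 ∈ Lf f := by rw [hb1]; exact hst _ _ hbR.1
  have hb1v : ∀ τ ∈ GK, VP P (τ b1) := by
    intro τ hτ
    rw [hb1]
    exact hbR.2 (τ * s0) (GK.mul_mem hτ hs0G)
  have hb1u : UP P b1 := by
    rw [hb1]
    exact ⟨hbR.2 s0 hs0G, hs0b⟩
  have hb1S : ∀ w ∈ S, MP P (∑ s ∈ Sg, s (b1 * w)) := by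
    intro w hw
    have h3 := hb (s0⁻¹ w) (hS' w hw _ (GK.inv_mem hs0G))
    have hwL : s0⁻¹ w ∈ Lf f := hst _ _ (hS w hw).1
    rw [← sum_right hSg hab (fun s => s (b * s0⁻¹ w))
      (fun a _ a' _ hh => hh _ (mul_mem hbR.1 hwL)) s0 hs0G] at h3
    have h4 : ∑ s ∈ Sg, s (b1 * w) = ∑ s ∈ Sg, (s * s0) (b * s0⁻¹ w) := by
      apply Finset.sum_congr rfl
      intro s _
      change s (b1 * w) = s (s0 (b * s0⁻¹ w))
      rw [map_mul s0, ← hb1]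
      have h5 : s0 (s0⁻¹ w) = w := by
        change (s0 * s0⁻¹) w = w
        rw [mul_inv_cancel]
        rfl
      rw [h5]
    rw [h4]
    exact h3
  -- the exponent `k`
  obtain ⟨k, hk⟩ : ∃ k : ℕ, ∀ s ∈ Sg, VP P (2 ^ k * s (c b1)) := by
    have h3 : ∀ s : Gal(Om/ℚ), ∃ k : ℕ, VP P (2 ^ k * s (c b1)) := fun s => exists_two_pow hPp h2 _
    choose g hg using h3
    refine ⟨Sg.sup g, fun s hs => vp_two_pow_le hPp (Finset.le_sup hs) (hg s)⟩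
  have hk' : ∀ τ ∈ GK, VP P (2 ^ k * τ (c b1)) := by
    intro τ hτ
    obtain ⟨s, hs, hsτ⟩ := hSg.ex τ hτ
    rw [← hsτ _ (hst c _ hb1L)]
    exact hk s hs
  refine ⟨wbO ^ (k + 1) * b1 + wO, ?_, ?_, ?_, ?_, ?_⟩
  · exact add_mem (mul_mem (pow_mem hwbL _) hb1L) hwL
  · exact up_add_mp hPp (up_mul hPp (up_pow hPp (upwb hP) _) hb1u) hw
  · intro τ hτ
    rw [map_add, map_mul, map_pow, hwbfix τ hτ, hwfix τ hτ]
    exact vp_add hPp (vp_mul hPp (vp_pow hPp (upwb hP).1 _) (hb1v τ hτ)) (mp_vp hw)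
  · intro τ hτ
    have hu := upwb hP
    have hne := up_ne_zero hPp hu
    have h3 : τ (c (wbO ^ (k + 1) * b1 + wO)) - 1 =
        wO * ((2 ^ k * τ (c b1)) * (wbO ^ k)⁻¹) - wO := by
      rw [map_add, map_mul, map_pow, hcwb, hcw', map_add, map_mul, map_pow, hwbfix τ hτ, hwfix τ hτ,
        ← w_mul, mul_pow]
      have h4 : wbO = 1 - wO := rfl
      have h5 : wO * (wO ^ k * wbO ^ k * τ (c b1) * (wbO ^ k)⁻¹) = wO ^ (k + 1) * τ (c b1) := by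
        field_simp
        ring
      rw [h5]
      linear_combination h4
    rw [h3]
    exact mp_sub hPp (mp_mul_vp hPp hw (vp_mul hPp (hk' τ hτ) (up_inv hPp (up_pow hPp hu k)).1)) hw
  · intro w hwS
    have h3 : ∑ s ∈ Sg, s ((wbO ^ (k + 1) * b1 + wO) * w) =
        (∑ s ∈ Sg, s (b1 * w)) * wbO ^ (k + 1) + wO * ∑ s ∈ Sg, s w := by
      rw [Finset.sum_mul, Finset.mul_sum, ← Finset.sum_add_distrib]
      apply Finset.sum_congr rfl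
      intro s hs
      rw [map_mul, map_add, map_mul, map_pow, hwbfix s (hSg.mem s hs), hwfix s (hSg.mem s hs), map_mul]
      ring
    rw [h3]
    exact mp_add hPp (mp_mul_vp hPp (hb1S w hwS) (vp_pow hPp (upwb hP).1 _))
      (mp_mul_vp hPp hw (vp_sum hPp _ _ fun s hs => hvS w hwS s (hSg.mem s hs)))

end Pool.Agent.DI.F
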