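import Pool.Agent.Lib.DI.F.SpecF

set_option autoImplicit false

/-!
# THEOREM DI, Part F: complex conjugation on K
-/

open scoped Pointwise Topology MatrixGroups
open Filter CongruenceSubgroup

noncomputable section

namespace Pool.Agent.DI.F

open Pool.Agent.MuZ Pool.Agent.DI

private theorem Cc_conj_wC : (starRingEnd ℂ) wC = 1 - wC := by
  apply Complex.ext
  · rw [Complex.conj_re, Complex.sub_re, Complex.one_re]
    simp only [wC]
    norm_num
  · rw [Complex.conj_im, Complex.sub_im, Complex.one_im]
    simp only [wC]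
    norm_num

private theorem Cc_w (c : Gal(Om/ℚ)) (hc : IsCj c) : c wO = 1 - wO := by
  apply io_inj
  rw [hc, io_wO, Cc_conj_wC, map_sub, map_one, io_wO]

theorem tCc : S_Cc := by
  intro c hc
  have hw := Cc_w c hc
  refine ⟨hw, ?_, ?_, ?_⟩
  · intro x
    apply io_inj
    rw [hc, hc]
    exact Complex.conj_conj _
  · intro v
    change c ((v.re : Om) + v.im * wO) = ((v.re + v.im : ℤ) : Om) + ((-v.im : ℤ) : Om) * wO
    rw [map_add, map_mul, map_intCast, map_intCast, hw]
    push_cast
    ring
  · have h1 : c wO ∈ KQ := by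
      rw [hw]
      exact sub_mem (one_mem KQ) (IntermediateField.mem_adjoin_simple_self ℚ wO)
    have h2 : KQ ≤ KQ.comap (c : Om →ₐ[ℚ] Om) :=
      IntermediateField.adjoin_le_iff.2 (Set.singleton_subset_iff.2 h1)
    intro x hx
    exact h2 hx

end Pool.Agent.DI.F
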