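import Pool.Agent.Lib.DI.F.SpecF

/-!
# THEOREM DI, Part F, module Chi (helper86): characters of the Galois group
-/

set_option autoImplicit false

open scoped Pointwise Topology MatrixGroups
open Filter CongruenceSubgroup

noncomputable section

namespace Pool.Agent.DI.F

open Pool.Agent.MuZ Pool.Agent.DI

theorem tChi (hE1 : S_E1) (hGal : S_Gal) (hUHN : S_UHN) : S_Chi := by
  classical
  intro f χ hf h7 hχ
  have hfpos : 0 < f := hf.pos
  obtain ⟨⟨hneg, -, h1, -⟩, -, -, -, -, hcop, -⟩ := hUHN f 0 hf h7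
  obtain ⟨-, -, -, -, -, -, -, hpsi, hkey, -⟩ := hGal f hf h7
  obtain ⟨m, hm, hm1⟩ := hχ.odd
  have hm0 : m ≠ 0 := by
    rintro rfl
    exact absurd hm (by decide)
  have hper : ∀ v u : OO, (f : OO) ∣ v - u → χ v = χ u := by
    rintro v u ⟨t, ht⟩
    have h2 : v = u + f * t := by rw [← ht]; ring
    rw [h2, hχ.per]
  have hχ1 : χ 1 = 1 := by
    have h2 := hm1 1 (hcop 1 h1)
    have h3 : χ 1 ≠ 0 := by
      intro h4
      rw [h4, zero_pow hm0] at h2
      exact zero_ne_one h2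
    have h4 := hχ.mul 1 1
    rw [mul_one] at h4
    exact (mul_left_cancel₀ h3 (by rw [mul_one]; exact h4)).symm
  have hpow : ∀ (v : OO) (k : ℕ), χ (v ^ k) = χ v ^ k := by
    intro v k
    induction k with
    | zero => rw [pow_zero, pow_zero, hχ1]
    | succ k ih => rw [pow_succ, pow_succ, hχ.mul, ih]
  have hHf : ∀ h : OO, Hf f h → χ h = 1 := by
    rintro h ⟨hc, k, hk⟩
    have h2 : χ h ^ 2 ^ k = 1 := by
      rw [← hpow, hper _ 1 hk, hχ1]
    have h3 := pow_gcd_eq_one.2 ⟨h2, hm1 h hc⟩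
    have h4 : Nat.gcd (2 ^ k) m = 1 := Nat.Coprime.pow_left k ((Nat.coprime_two_left).2 hm)
    rwa [h4, pow_one] at h3
  have hmulH : ∀ v h : OO, Hf f h → χ (h * v) = χ v := by
    intro v h hh
    rw [hχ.mul, hHf h hh, one_mul]
  have hnegχ : ∀ v : OO, χ (-v) = χ v := by
    intro v
    rw [← neg_one_mul, hmulH v (-1) hneg]
  have hch : ∀ (τ : Gal(Om/ℚ)) (a : OO), Psi τ f a → chG f χ τ = χ a := by
    intro τ a ha
    have h : ∃ a : OO, Psi τ f a := ⟨a, ha⟩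
    unfold chG
    rw [dif_pos h]
    exact hper _ _ (hE1.2 τ f _ _ hfpos h.choose_spec ha)
  refine ⟨hmulH, hnegχ, hχ1, hch, ?_, ?_, ?_, ?_⟩
  · intro τ hτ P hP
    obtain ⟨a, ha⟩ := hE1.1 τ hτ f hfpos
    rw [hch τ a ha]
    have h2 := hm1 a ha.1
    have h3 : IsIntegral ℤ (χ a) := by
      apply IsIntegral.of_pow (Nat.pos_of_ne_zero hm0)
      rw [h2]
      exact isIntegral_one
    have h4 : VP P (χ a) := vp_integral hP h3
    refine ⟨h4, fun h5 => ?_⟩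
    have h6 := (mp_pow_iff hP h4 hm0).2 h5
    rw [h2] at h6
    exact not_mp_one hP h6
  · intro τ hτ τ' hτ'
    obtain ⟨a, ha⟩ := hE1.1 τ hτ f hfpos
    obtain ⟨a', ha'⟩ := hE1.1 τ' hτ' f hfpos
    rw [hch _ _ (hpsi τ τ' f a a' ha ha'), hch _ _ ha, hch _ _ ha', hχ.mul]
  · intro τ hτ τ' hτ' h
    obtain ⟨a, ha⟩ := hE1.1 τ hτ f hfpos
    obtain ⟨a', ha'⟩ := hE1.1 τ' hτ' f hfpos
    obtain ⟨b, hb, hd⟩ := (hkey τ hτ τ' hτ' a a' ha ha').1 h
    rw [hch _ _ ha, hch _ _ ha', hper _ _ hd, hmulH a b hb]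
  · intro σ hσ v hv
    rcases (hσ v hv).2 with h | h
    · exact hch _ _ h
    · rw [hch _ _ h, hnegχ]

end Pool.Agent.DI.F
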