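import Pool.Agent.Lib.DI.F.SpecF

set_option autoImplicit false

/-!
# Cj: complex conjugation and the Galois action
-/

open scoped Pointwise Topology MatrixGroups

noncomputable section

namespace Pool.Agent.DI.F

open Pool.Agent.MuZ Pool.Agent.DI

private theorem CjAux_conj (hUNm : S_UNm) (v : OO) (N : ℕ) :
    (starRingEnd ℂ) (toC v / N) = toC (cjO v) / N := by
  have h := hUNm.2.2.2.2.2.2.2.2.2.2.1 v
  rw [map_div₀, ← h, Complex.conj_natCast]

private theorem CjAux_mul (hUNm : S_UNm) (v u : OO) : cjO (v * u) = cjO v * cjO u :=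
  hUNm.2.2.2.2.2.1 v u

private theorem CjAux_inv (hUNm : S_UNm) (v : OO) : cjO (cjO v) = v :=
  (hUNm.2.2.2.2.2.2.1 v).2

private theorem CjAux_int (s : ℤ) : cjO (s : OO) = (s : OO) := by
  have h1 : ((s : ℤ) : OO).re = s := by simp
  have h2 : ((s : ℤ) : OO).im = 0 := by simp
  apply QuadraticAlgebra.ext
  · change ((s : ℤ) : OO).re + ((s : ℤ) : OO).im = ((s : ℤ) : OO).re
    rw [h2, add_zero]
  · change -((s : ℤ) : OO).im = ((s : ℤ) : OO).im
    rw [h2, neg_zero]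

private theorem CjAux_x (hA0 : S_A0) (hUNm : S_UNm) (c : Gal(Om/ℚ)) (hc : IsCj c)
    (hX : ∀ z : ℂ, (starRingEnd ℂ) (XC z) = XC ((starRingEnd ℂ) z)) (v : OO) (N : ℕ) (hN : 0 < N) :
    c (xO (toC v / N)) = xO (toC (cjO v) / N) := by
  apply io_inj
  rw [hc, (hA0 _ ⟨v, N, hN, rfl⟩).1, (hA0 _ ⟨cjO v, N, hN, rfl⟩).1, hX, CjAux_conj hUNm]

private theorem CjAux_y (hA0 : S_A0) (hUNm : S_UNm) (c : Gal(Om/ℚ)) (hc : IsCj c) (s : ℤ)
    (hY : ∀ z : ℂ, (starRingEnd ℂ) (YC z) = YC (s * (starRingEnd ℂ) z)) (v : OO) (N : ℕ)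
    (hN : 0 < N) :
    c (yO (toC v / N)) = yO (toC ((s : OO) * cjO v) / N) := by
  apply io_inj
  rw [hc, (hA0 _ ⟨v, N, hN, rfl⟩).2.1, (hA0 _ ⟨(s : OO) * cjO v, N, hN, rfl⟩).2.1, hY,
    CjAux_conj hUNm, map_mul, map_intCast, mul_div_assoc]

/-- Complex conjugation and the Galois action. -/
theorem tCj (hB12 : S_B12) (hA0 : S_A0) (hCc : S_Cc) (hUNm : S_UNm) : S_Cj := by
  intro c hc
  obtain ⟨s, hs, -, hB⟩ := hB12
  obtain ⟨-, hcc, -, hKQ⟩ := hCc c hc
  have hX := fun z => (hB z).1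
  have hY := fun z => (hB z).2.1
  have hss : (s : OO) * (s : OO) = 1 := by
    rcases hs with h | h <;> subst h <;> simp
  refine ⟨?_, ?_, ?_⟩
  · intro τ N a hN hP
    obtain ⟨hcop, hv⟩ := hP
    refine ⟨?_, ?_⟩
    · have h1 := (hUNm.2.2.2.2.2.2.1 a).1
      unfold Cop at hcop ⊢
      rw [h1]
      exact hcop
    · intro v
      constructor
      · change c (τ (c (xO (toC v / N)))) = _
        rw [CjAux_x hA0 hUNm c hc hX v N hN, (hv (cjO v)).1, CjAux_x hA0 hUNm c hc hX _ N hN,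
          CjAux_mul hUNm, CjAux_inv hUNm]
      · change c (τ (c (yO (toC v / N)))) = _
        rw [CjAux_y hA0 hUNm c hc s hY v N hN, (hv _).2, CjAux_y hA0 hUNm c hc s hY _ N hN,
          CjAux_mul hUNm, CjAux_mul hUNm, CjAux_inv hUNm, CjAux_int]
        congr 3
        linear_combination (cjO a * v) * hss
  · intro τ hτ
    unfold GK at hτ ⊢
    rw [IntermediateField.mem_fixingSubgroup_iff] at hτ ⊢
    intro x hx
    change c (τ (c x)) = x
    rw [hτ _ (hKQ x hx), hcc]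
  · ext x
    change c (c x) = x
    exact hcc x

end Pool.Agent.DI.F
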