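import Pool.Agent.Lib.DI.F.SpecT

set_option autoImplicit false

/-!
# THEOREM DI, Part F: Taylor coefficients in a subfield
-/

namespace Pool.Agent.DI.F

open Filter Topology

namespace CoAux

theorem coeff_zero_tay (f : ℂ → ℂ) : PowerSeries.coeff 0 (tay f) = f 0 := by
  unfold tay
  rw [PowerSeries.coeff_mk, iteratedDeriv_zero, Nat.factorial_zero, Nat.cast_one, div_one]

theorem const (hTay : S_Tay) (k : Subfield ℂ) (c : ℂ) (hc : c ∈ k) : Co k fun _ => c := by
  refine ⟨analyticAt_const, fun n => ?_⟩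
  rw [hTay.2.2.2.2.1.1 c, PowerSeries.coeff_C]
  split_ifs
  · exact hc
  · exact zero_mem k

theorem ident (hTay : S_Tay) (k : Subfield ℂ) : Co k fun q => q := by
  refine ⟨analyticAt_id, fun n => ?_⟩
  rw [hTay.2.2.2.2.1.2, PowerSeries.coeff_X]
  split_ifs
  · exact one_mem k
  · exact zero_mem k

theorem add (hTay : S_Tay) (k : Subfield ℂ) (f g : ℂ → ℂ) (hf : Co k f) (hg : Co k g) :
    Co k fun q => f q + g q := by
  refine ⟨hf.1.add hg.1, fun n => ?_⟩
  rw [hTay.2.2.1 f g hf.1 hg.1, map_add]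
  exact add_mem (hf.2 n) (hg.2 n)

theorem mul (hTay : S_Tay) (k : Subfield ℂ) (f g : ℂ → ℂ) (hf : Co k f) (hg : Co k g) :
    Co k fun q => f q * g q := by
  refine ⟨hf.1.mul hg.1, fun n => ?_⟩
  rw [hTay.2.2.2.1 f g hf.1 hg.1, PowerSeries.coeff_mul]
  exact sum_mem fun kl _ => mul_mem (hf.2 _) (hg.2 _)

theorem neg (hTay : S_Tay) (k : Subfield ℂ) (f : ℂ → ℂ) (hf : Co k f) :
    Co k fun q => -f q := by
  have h1 := mul hTay k (fun _ => -1) f (const hTay k _ (neg_mem (one_mem k))) hf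
  have h2 : (fun q => -f q) = fun q => (fun _ : ℂ => (-1 : ℂ)) q * f q := by
    funext q
    rw [neg_one_mul]
  rw [h2]
  exact h1

theorem sub (hTay : S_Tay) (k : Subfield ℂ) (f g : ℂ → ℂ) (hf : Co k f) (hg : Co k g) :
    Co k fun q => f q - g q := by
  have h1 := add hTay k f (fun q => -g q) hf (neg hTay k g hg)
  have h2 : (fun q => f q - g q) = fun q => f q + (fun q => -g q) q := by
    funext q
    rw [sub_eq_add_neg]
  rw [h2]
  exact h1

theorem der (hTay : S_Tay) (k : Subfield ℂ) (f : ℂ → ℂ) (hf : Co k f) : Co k (deriv f) := by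
  refine ⟨hf.1.deriv, fun n => ?_⟩
  rw [hTay.2.2.2.2.2.1 f hf.1, PowerSeries.coeff_derivative]
  exact mul_mem (hf.2 _) (add_mem (natCast_mem k n) (one_mem k))

theorem congr (hTay : S_Tay) (k : Subfield ℂ) (f g : ℂ → ℂ) (h : f =ᶠ[𝓝 0] g) (hf : Co k f) :
    Co k g := by
  refine ⟨hf.1.congr h, fun n => ?_⟩
  rw [← hTay.2.2.2.2.2.2 f g h]
  exact hf.2 n

theorem inv (hTay : S_Tay) (k : Subfield ℂ) (f : ℂ → ℂ) (hf : Co k f) (h0 : f 0 ≠ 0) :
    Co k fun q => (f q)⁻¹ := by
  have ha : AnalyticAt ℂ (fun q => (f q)⁻¹) 0 := hf.1.inv h0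
  refine ⟨ha, ?_⟩
  have hne : ∀ᶠ q in 𝓝 (0 : ℂ), f q ≠ 0 := hf.1.continuousAt.eventually_ne h0
  have h1 : tay (fun q => (f q)⁻¹) * tay f = PowerSeries.C 1 := by
    rw [← hTay.2.2.2.1 _ f ha hf.1, ← hTay.2.2.2.2.1.1 1]
    refine hTay.2.2.2.2.2.2 _ _ ?_
    filter_upwards [hne] with q hq
    exact inv_mul_cancel₀ hq
  have ha0 : PowerSeries.coeff 0 (tay f) ≠ 0 := by
    rw [coeff_zero_tay]
    exact h0
  intro n
  induction n using Nat.strong_induction_on with
  | _ n ih =>
    have h2 := congrArg (PowerSeries.coeff n) h1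
    rw [PowerSeries.coeff_mul, Finset.Nat.sum_antidiagonal_eq_sum_range_succ_mk,
      Finset.sum_range_succ, Nat.sub_self] at h2
    have h3 : PowerSeries.coeff n (PowerSeries.C (1 : ℂ)) ∈ k := by
      rw [PowerSeries.coeff_C]
      split_ifs
      · exact one_mem k
      · exact zero_mem k
    have h4 : ∑ x ∈ Finset.range n, PowerSeries.coeff x (tay fun q => (f q)⁻¹) *
        PowerSeries.coeff (n - x) (tay f) ∈ k :=
      sum_mem fun x hx => mul_mem (ih x (Finset.mem_range.mp hx)) (hf.2 _)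
    have h5 : PowerSeries.coeff n (tay fun q => (f q)⁻¹) =
        (PowerSeries.coeff n (PowerSeries.C (1 : ℂ)) -
        ∑ x ∈ Finset.range n, PowerSeries.coeff x (tay fun q => (f q)⁻¹) *
        PowerSeries.coeff (n - x) (tay f)) / PowerSeries.coeff 0 (tay f) := by
      rw [eq_div_iff ha0, ← h2]
      ring
    rw [h5]
    exact div_mem (sub_mem h3 h4) (hf.2 0)

theorem comp_an (f g : ℂ → ℂ) (hf : AnalyticAt ℂ f 0) (hg : AnalyticAt ℂ g 0)
    (h0 : g 0 = 0) : AnalyticAt ℂ (fun q => f (g q)) 0 := by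
  have h1 : AnalyticAt ℂ f (g 0) := by
    rw [h0]
    exact hf
  exact h1.comp hg

theorem comp_aux (hTay : S_Tay) (k : Subfield ℂ) (g : ℂ → ℂ) (hg : Co k g) (h0 : g 0 = 0)
    (n : ℕ) : ∀ f : ℂ → ℂ, Co k f → ∀ m ≤ n, PowerSeries.coeff m (tay fun q => f (g q)) ∈ k := by
  induction n with
  | zero =>
    intro f hf m hm
    obtain rfl : m = 0 := Nat.le_zero.mp hm
    rw [coeff_zero_tay, h0, ← coeff_zero_tay f]
    exact hf.2 0
  | succ n ih =>
    intro f hf m hm
    rcases Nat.lt_or_ge m (n + 1) with h | h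
    · exact ih f hf m (Nat.lt_succ_iff.mp h)
    · obtain rfl : m = n + 1 := le_antisymm hm h
      have hfg := comp_an f g hf.1 hg.1 h0
      have hd := der hTay k f hf
      have hdg := der hTay k g hg
      have hdfg := comp_an (deriv f) g hd.1 hg.1 h0
      have e1 : deriv (fun q => f (g q)) =ᶠ[𝓝 0] fun q => deriv f (g q) * deriv g q := by
        have a1 : ∀ᶠ q in 𝓝 (0 : ℂ), AnalyticAt ℂ f (g q) := by
          have b1 : Tendsto g (𝓝 0) (𝓝 0) := by
            have b2 := hg.1.continuousAt.tendsto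
            rw [h0] at b2
            exact b2
          exact b1.eventually hf.1.eventually_analyticAt
        filter_upwards [a1, hg.1.eventually_analyticAt] with q hq1 hq2
        exact deriv_comp q hq1.differentiableAt hq2.differentiableAt
      have e2 := hTay.2.2.2.2.2.2 _ _ e1
      rw [hTay.2.2.2.2.2.1 _ hfg, hTay.2.2.2.1 _ _ hdfg hdg.1] at e2
      have e3 := congrArg (PowerSeries.coeff n) e2
      rw [PowerSeries.coeff_derivative, PowerSeries.coeff_mul] at e3
      have e4 : ∑ p ∈ Finset.HasAntidiagonal.antidiagonal n,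
          PowerSeries.coeff p.1 (tay fun q => deriv f (g q)) *
            PowerSeries.coeff p.2 (tay (deriv g)) ∈ k := by
        refine sum_mem fun p hp => mul_mem (ih (deriv f) hd p.1 ?_) (hdg.2 _)
        rw [Finset.HasAntidiagonal.mem_antidiagonal] at hp
        omega
      have e5 : ((n : ℂ) + 1) ≠ 0 := Nat.cast_add_one_ne_zero n
      have e6 : PowerSeries.coeff (n + 1) (tay fun q => f (g q)) =
          (∑ p ∈ Finset.HasAntidiagonal.antidiagonal n,
          PowerSeries.coeff p.1 (tay fun q => deriv f (g q)) *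
            PowerSeries.coeff p.2 (tay (deriv g))) / ((n : ℂ) + 1) := by
        rw [eq_div_iff e5]
        exact e3
      rw [e6]
      exact div_mem e4 (add_mem (natCast_mem k n) (one_mem k))

theorem comp (hTay : S_Tay) (k : Subfield ℂ) (f g : ℂ → ℂ) (hf : Co k f) (hg : Co k g)
    (h0 : g 0 = 0) : Co k fun q => f (g q) :=
  ⟨comp_an f g hf.1 hg.1 h0, fun n => comp_aux hTay k g hg h0 n f hf n le_rfl⟩

theorem slope (hTay : S_Tay) (k : Subfield ℂ) (f : ℂ → ℂ) (hf : Co k f) (h0 : f 0 = 0) :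
    Co k (dslope f 0) ∧ dslope f 0 0 = deriv f 0 ∧ ∀ q, f q = q * dslope f 0 q := by
  have h1 : ∀ q, f q = q * dslope f 0 q := by
    intro q
    have h2 := sub_smul_dslope f 0 q
    rw [sub_zero, h0, sub_zero, smul_eq_mul] at h2
    exact h2.symm
  have ha : AnalyticAt ℂ (dslope f 0) 0 := by
    obtain ⟨p, hp⟩ := hf.1
    exact ⟨_, hp.has_fpower_series_dslope_fslope⟩
  refine ⟨⟨ha, fun n => ?_⟩, dslope_same f 0, h1⟩
  have h3 : tay f = PowerSeries.X * tay (dslope f 0) := by
    have h4 : f = fun q => q * dslope f 0 q := funext h1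
    have h5 : tay (fun q => q * dslope f 0 q) = tay (fun q => q) * tay (dslope f 0) :=
      hTay.2.2.2.1 (fun q => q) (dslope f 0) analyticAt_id ha
    rw [← h4, hTay.2.2.2.2.1.2] at h5
    exact h5
  have h6 := hf.2 (n + 1)
  rw [h3, PowerSeries.coeff_succ_X_mul] at h6
  exact h6

end CoAux

open CoAux in
theorem tCo (hTay : S_Tay) : S_Co := by
  intro k
  exact ⟨⟨const hTay k, ident hTay k⟩,
    fun f g hf hg => ⟨add hTay k f g hf hg, mul hTay k f g hf hg, sub hTay k f g hf hg,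
      neg hTay k f hf⟩,
    der hTay k, inv hTay k, comp hTay k, slope hTay k, congr hTay k⟩

end Pool.Agent.DI.F
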