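import Pool.Agent.Lib.DI.F.SpecF

/-!
# THEOREM DI, Part F, module Dist (helper86): the action of `GK` on the residues of L is faithful
-/

set_option autoImplicit false

open scoped Pointwise Topology MatrixGroups
open Filter CongruenceSubgroup

noncomputable section

namespace Pool.Agent.DI.F

open Pool.Agent.MuZ Pool.Agent.DI

theorem tDist (hE9 : S_E9) (hFrac : S_Frac) : S_Dist := by
  intro f hf h7 P hP h0 h2 s hs s' hs' hcong
  have hP' : (s'⁻¹ • P).IsPrime := hP.smul s'⁻¹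
  have h0' : s'⁻¹ • P ≠ ⊥ := by
    intro h
    apply h0
    rw [eq_bot_iff]
    intro x hx
    have h3 : s'⁻¹ • x ∈ s'⁻¹ • P := Ideal.smul_mem_pointwise_smul _ _ _ hx
    rw [h, Ideal.mem_bot] at h3
    have h4 : s' • (s'⁻¹ • x) = 0 := by rw [h3, smul_zero]
    rw [smul_inv_smul] at h4
    rw [h4]
    exact Ideal.zero_mem _
  have h2' : MP (s'⁻¹ • P) 2 := by
    have h3 := mp_smul s'⁻¹ h2
    rwa [map_ofNat] at h3
  have hρ : s'⁻¹ * s ∈ GK := mul_mem (inv_mem hs') hs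
  have hint : ∀ x ∈ Lf f, IsIntegral ℤ x → MP (s'⁻¹ • P) ((s'⁻¹ * s) x - x) := by
    intro x hx hxi
    have h3 := mp_smul s'⁻¹ (hcong x hx hxi)
    have h4 : s'⁻¹ (s' x) = x := by
      rw [← AlgEquiv.mul_apply, inv_mul_cancel]
      rfl
    rwa [map_sub, h4, ← AlgEquiv.mul_apply] at h3
  have hall : ∀ x ∈ Lf f, VP (s'⁻¹ • P) x → MP (s'⁻¹ • P) ((s'⁻¹ * s) x - x) := by
    intro x hx hxV
    have hxi : IsIntegral ℚ x := (isAlgOm.isAlgebraic x).isIntegral
    have hfd : FiniteDimensional ℚ (IntermediateField.adjoin ℚ {x}) :=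
      IntermediateField.adjoin.finiteDimensional hxi
    have hle : IntermediateField.adjoin ℚ {x} ≤ Lf f := by
      rw [IntermediateField.adjoin_le_iff, Set.singleton_subset_iff]
      exact hx
    obtain ⟨a, t, ha, ht, htP, hat⟩ := hFrac (s'⁻¹ • P) hP' _ hfd x
      (IntermediateField.mem_adjoin_simple_self ℚ x) hxV
    have ha1 := hint a (hle ha) a.2
    have ht1 := hint t (hle ht) t.2
    have hut : UP (s'⁻¹ • P) ((s'⁻¹ * s) (t : Om)) := by
      have h3 := up_add_mp hP' (up_coe hP' htP) ht1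
      rwa [add_sub_cancel] at h3
    have h3 : ((s'⁻¹ * s) x - x) * (s'⁻¹ * s) (t : Om) =
        ((s'⁻¹ * s) (a : Om) - a) - x * ((s'⁻¹ * s) (t : Om) - t) := by
      rw [← hat, map_mul]
      ring
    have h4 : MP (s'⁻¹ • P) (((s'⁻¹ * s) x - x) * (s'⁻¹ * s) (t : Om)) := by
      rw [h3]
      exact mp_sub hP' ha1 (vp_mul_mp hP' hxV ht1)
    have h5 := mp_mul_vp hP' h4 (up_inv hP' hut).1
    rwa [mul_assoc, mul_inv_cancel₀ (up_ne_zero hP' hut), mul_one] at h5
  intro x hx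
  have h3 := (hE9 f hf h7).2.2.2 (s'⁻¹ • P) ⟨hP', h0'⟩ h2' _ hρ hall x hx
  rw [AlgEquiv.mul_apply] at h3
  have h4 : s' (s'⁻¹ (s x)) = s x := by
    rw [← AlgEquiv.mul_apply, mul_inv_cancel]
    rfl
  rw [← h4, h3]

end Pool.Agent.DI.F
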