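import Pool.Agent.Lib.DI.F.SpecF

set_option autoImplicit false
set_option linter.unusedVariables false

/-!
# THEOREM DI, Part F: the periods at `-b/d`
-/

open scoped Pointwise Topology MatrixGroups
open Filter CongruenceSubgroup

noncomputable section

namespace Pool.Agent.DI.F

open Pool.Agent.MuZ Pool.Agent.DI

namespace EtaMAux

theorem cjO_add (v u : OO) : cjO (v + u) = cjO v + cjO u := by
  apply QuadraticAlgebra.ext
  · change v.re + u.re + (v.im + u.im) = v.re + v.im + (u.re + u.im)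
    ring
  · change -(v.im + u.im) = -v.im + -u.im
    ring

theorem cjO_nat (n : ℕ) : cjO (n : OO) = (n : OO) := by
  apply QuadraticAlgebra.ext
  · change ((n : ℤ) + 0 : ℤ) = (n : ℤ)
    ring
  · change -(0 : ℤ) = 0
    ring

/-- The conjugate character. -/
def chc (c : Gal(Om/ℚ)) (χ : OO → Om) (v : OO) : Om := c (χ (cjO v))

theorem isChi_chc (hN : S_UNm) (f : ℕ) (χ : OO → Om) (c : Gal(Om/ℚ)) (h : IsChi f χ) :
    IsChi f (chc c χ) := by
  obtain ⟨-, -, -, -, -, hN6, hN7, -⟩ := hN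
  have hcop : ∀ v : OO, Cop (cjO v) f ↔ Cop v f := by
    intro v
    unfold Cop
    rw [(hN7 v).1]
  refine ⟨?_, ?_, ?_, ?_⟩
  · intro v u
    unfold chc
    rw [cjO_add, hN6, cjO_nat, h.per]
  · intro v u
    unfold chc
    rw [hN6, h.mul, map_mul]
  · intro v hv
    unfold chc
    rw [h.zero _ (fun h1 => hv ((hcop v).1 h1)), map_zero]
  · obtain ⟨m, hm, h1⟩ := h.odd
    refine ⟨m, hm, fun v hv => ?_⟩
    unfold chc
    rw [← map_pow, h1 _ ((hcop v).2 hv), map_one]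

theorem isRho (hEps : S_UEps) (hChi : S_Chi) (f : ℕ) (χ : OO → Om) (hf : Odd f) (h7 : 7 ∣ f)
    (h : IsChi f χ) : IsRho f (fun v => (eps v : Om) * χ v) := by
  obtain ⟨-, hE2, hE3, -⟩ := hEps
  constructor
  · intro v u
    obtain ⟨k, rfl⟩ := h7
    have e : v + ((7 * k : ℕ) : OO) * u = v + 7 * ((k : OO) * u) := by
      push_cast
      ring
    have h1 := h.per v u
    change (eps (v + ((7 * k : ℕ) : OO) * u) : Om) * χ (v + ((7 * k : ℕ) : OO) * u) =
      (eps v : Om) * χ v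
    rw [h1, e, hE2]
  · intro v
    rw [hE3, (hChi f χ hf h7 h).2.1 v]
    push_cast
    ring

theorem isRho_io {f : ℕ} {ρ : OO → Om} (h : IsRho f ρ) : IsRho f (fun v => io (ρ v)) := by
  constructor
  · intro v u
    rw [h.per]
  · intro v
    change io (ρ (-v)) = -io (ρ v)
    rw [h.odd, map_neg]

/-- `etaX` in terms of `hC`. -/
theorem io_eta (hE11 : S_E11) (f : ℕ) (hf : Odd f) (h7 : 7 ∣ f) (ρ : OO → Om) (h : IsRho f ρ)
    (r : ℚ) : io (eta ρ r) * OmC = hC (fun v => io (ρ v)) r := by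
  have h1 := (hE11 f hf h7 ρ h r.num r.den r.den_pos).1
  rwa [Rat.num_div_den] at h1

/-- Complex conjugation of the values. -/
theorem conj_eta (hB0 : S_B0) (hC5 : S_C5) (hE11 : S_E11) (hCc : S_Cc) (hEps : S_UEps)
    (hN : S_UNm) (hChi : S_Chi) (f : ℕ) (hf : Odd f) (h7 : 7 ∣ f) (χ : OO → Om) (h : IsChi f χ)
    (c : Gal(Om/ℚ)) (hc : IsCj c) (sg : ℤ) (hsg : sg = 1 ∨ sg = -1)
    (hOm : (starRingEnd ℂ) OmC = sg * OmC) (r : ℚ) :
    etaX χ (-r) = sg * c (etaX (chc c χ) r) := by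
  have hρ := isRho hEps hChi f χ hf h7 h
  have hρ' := isRho hEps hChi f (chc c χ) hf h7 (isChi_chc hN f χ c h)
  have h1 := io_eta hE11 f hf h7 _ hρ (-r)
  have h2 := io_eta hE11 f hf h7 _ hρ' r
  have h3 := (hC5 f hf h7 _ (isRho_io hρ) (-r)).2
  rw [neg_neg] at h3
  have h4 : (fun v => (starRingEnd ℂ) (io ((eps (cjO v) : Om) * χ (cjO v)))) =
      fun v => io ((eps v : Om) * chc c χ v) := by
    funext v
    rw [← hc, map_mul c, map_intCast, hEps.2.2.2.1]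
    rfl
  rw [h4, ← h2, ← h1, map_mul, hOm, ← hc] at h3
  -- h3 : io (c (etaX χ (-r))) * (sg * OmC) = io (etaX χ' r) * OmC
  have h5 : io (c (eta (fun v => (eps v : Om) * χ v) (-r))) * sg =
      io (eta (fun v => (eps v : Om) * chc c χ v) r) := by
    apply mul_right_cancel₀ hB0.1
    rw [← h3]
    ring
  have h6 : c (etaX χ (-r)) * sg = etaX (chc c χ) r := by
    apply io_inj
    rw [map_mul, map_intCast]
    exact h5
  rw [← h6, map_mul, (hCc c hc).2.1, map_intCast]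
  rcases hsg with h7 | h7 <;> rw [h7] <;> push_cast <;> ring

end EtaMAux

theorem tEtaM (hB0 : S_B0) (hC5 : S_C5) (hE11 : S_E11) (hGal : S_Gal) (hChi : S_Chi) (hCc : S_Cc)
    (hCj : S_Cj) (hEtaP : S_EtaP) (hUEps : S_UEps) (hUNm : S_UNm) (hUHN : S_UHN)
    (hUCop : S_UCop) : S_EtaM := by
  intro f χ Sg lam c' sg hf h7 hχ hSg hlam hc hsg hOm a b c d hG hd
  have hco := EtaMAux.conj_eta hB0 hC5 hE11 hCc hUEps hUNm hChi f hf h7 χ hχ c' hc sg hsg hOm
  have hχ' := EtaMAux.isChi_chc hUNm f χ c' hχ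
  have hP := hEtaP f (EtaMAux.chc c' χ) Sg lam hf h7 hχ' hSg hlam a b c d hG hd
  have h0 := hco 0
  rw [neg_zero] at h0
  rw [hco (b / d), h0, ← mul_sub, ← map_sub, hP, map_sum]
  congr 1
  obtain ⟨-, -, -, -, -, hLst, -⟩ := hGal f hf h7
  obtain ⟨-, -, -, hC4, hC5', -, hC7, -⟩ := hChi f χ hf h7 hχ
  have hC4' := (hChi f _ hf h7 hχ').2.2.2.1
  have hCC5 := (hChi f _ hf h7 hχ').2.2.2.2.1
  obtain ⟨hJ1, hJ2, hJ3⟩ := hCj c' hc
  have hcc : ∀ x, c' (c' x) = x := (hCc c' hc).2.1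
  have hf0 : 0 < f := hf.pos
  have hex : ∀ s ∈ GK, ∃ v : OO, Psi s f v := by
    intro s hs
    by_contra h
    have h1 := hC5' s hs ⊥ Ideal.isPrime_bot
    have h2 : chG f χ s = 0 := by
      unfold chG
      rw [dif_neg h]
    rw [h2] at h1
    exact h1.2 ⟨0, 1, Ideal.zero_mem _, fun h3 => one_ne_zero (Ideal.mem_bot.1 h3), by simp⟩
  have hterm : ∀ s ∈ Sg, c' (chG f (EtaMAux.chc c' χ) s * s (lam b d)) =
      chG f χ (c' * s * c') * (c' * s * c') (c' (lam b d)) := by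
    intro s hs
    obtain ⟨v, hv⟩ := hex s (hSg.mem s hs)
    rw [map_mul, hC4' s v hv, hC4 _ _ (hJ1 s f v hf0 hv)]
    change c' (c' (χ (cjO v))) * c' (s (lam b d)) = χ (cjO v) * c' (s (c' (c' (lam b d))))
    rw [hcc, hcc]
  rw [Finset.sum_congr rfl hterm]
  have hlamL : c' (lam b d) ∈ Lf f := hLst c' _ (hlam.1 b d).1
  have hres : ∀ τ ∈ GK, ∀ τ' ∈ GK, (∀ x ∈ Lf f, τ x = τ' x) →
      chG f χ τ * τ (c' (lam b d)) = chG f χ τ' * τ' (c' (lam b d)) := by
    intro τ hτ τ' hτ' h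
    rw [hC7 τ hτ τ' hτ' h, h _ hlamL]
  choose! π hπ using fun s (hs : s ∈ Sg) => hSg.ex (c' * s * c') (hJ2 s (hSg.mem s hs))
  have hinv : ∀ s ∈ Sg, π (π s) = s := by
    intro s hs
    have h1 := (hπ s hs).1
    apply hSg.uni _ (hπ _ h1).1 _ hs
    intro x hx
    rw [(hπ _ h1).2 x hx]
    change c' (π s (c' x)) = s x
    rw [(hπ s hs).2 _ (hLst c' x hx)]
    change c' (c' (s (c' (c' x)))) = s x
    rw [hcc, hcc]
  refine Finset.sum_nbij' π π (fun s hs => (hπ s hs).1) (fun s hs => (hπ s hs).1)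
    hinv hinv ?_
  intro s hs
  exact hres _ (hJ2 s (hSg.mem s hs)) _ (hSg.mem _ (hπ s hs).1)
    fun x hx => ((hπ s hs).2 x hx).symm

end Pool.Agent.DI.F
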