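import Pool.Agent.Lib.DI.F.SpecF

/-!
# THEOREM DI (MP_d0239a_nt), part F: the periods of `Th_χ` in terms of `eta`
-/

set_option autoImplicit false

open scoped Pointwise Topology MatrixGroups

noncomputable section

namespace Pool.Agent.DI.F

open Pool.Agent.MuZ Pool.Agent.DI

namespace EtaPAux

open Classical in
private theorem cast_nH (f : ℕ) :
    sumO f (fun v => if Hf f v then (1 : ℂ) else 0) = (nH f : ℂ) := by
  unfold nH sumO
  rw [Nat.cast_sum]
  refine Finset.sum_congr rfl fun a _ => ?_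
  rw [Nat.cast_sum]
  refine Finset.sum_congr rfl fun b _ => ?_
  beta_reduce
  by_cases h : Hf f ⟨a, b⟩
  · rw [if_pos h, if_pos h, Nat.cast_one]
  · rw [if_neg h, if_neg h, Nat.cast_zero]

/-- `ε χ` is periodic and odd. -/
theorem isRho (hChi : S_Chi) (hUEps : S_UEps) {f : ℕ} {χ : OO → Om} (hf : Odd f) (h7 : 7 ∣ f)
    (hχ : IsChi f χ) : IsRho f (fun v => (eps v : Om) * χ v) := by
  obtain ⟨-, hper, hneg, -⟩ := hUEps
  obtain ⟨-, c2, -⟩ := hChi f χ hf h7 hχ
  obtain ⟨k, hk⟩ := h7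
  refine ⟨fun v u => ?_, fun v => ?_⟩
  · have h1 : v + (f : OO) * u = v + 7 * ((k : OO) * u) := by
      rw [hk]
      push_cast
      ring
    have h2 : eps (v + (f : OO) * u) = eps v := by
      rw [h1, hper]
    rw [h2, hχ.per]
  · rw [hneg, c2]
    push_cast
    ring

theorem isRho_io (hChi : S_Chi) (hUEps : S_UEps) {f : ℕ} {χ : OO → Om} (hf : Odd f) (h7 : 7 ∣ f)
    (hχ : IsChi f χ) : IsRho f (fun v => io ((eps v : Om) * χ v)) := by
  have h := isRho hChi hUEps hf h7 hχ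
  refine ⟨fun v u => ?_, fun v => ?_⟩
  · exact congrArg io (h.per v u)
  · have h1 := congrArg io (h.odd v)
    rw [map_neg] at h1
    exact h1

theorem io_etaX (hE11 : S_E11) (hChi : S_Chi) (hUEps : S_UEps) {f : ℕ} {χ : OO → Om} (hf : Odd f)
    (h7 : 7 ∣ f) (hχ : IsChi f χ) (b d : ℤ) (hd : d ≠ 0) :
    io (etaX χ (b / d)) * OmC = hC (fun v => io ((eps v : Om) * χ v)) (b / d) := by
  have hρ := isRho hChi hUEps hf h7 hχ
  rcases lt_or_gt_of_ne hd with h | h
  · obtain ⟨n, hn⟩ := Int.eq_ofNat_of_zero_le (a := -d) (by omega)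
    have hn0 : 0 < n := by omega
    have h1 := (hE11 f hf h7 _ hρ (-b) n hn0).1
    have h2 : (((-b : ℤ) : ℚ) / (n : ℚ)) = (b : ℚ) / (d : ℚ) := by
      have h3 : (n : ℚ) = -(d : ℚ) := by
        have h4 : ((n : ℤ) : ℚ) = ((-d : ℤ) : ℚ) := by rw [hn]
        push_cast at h4
        exact h4
      rw [h3]
      push_cast
      exact neg_div_neg_eq _ _
    rw [h2] at h1
    exact h1
  · obtain ⟨n, hn⟩ := Int.eq_ofNat_of_zero_le (a := d) (by omega)
    have hn0 : 0 < n := by omega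
    have h1 := (hE11 f hf h7 _ hρ b n hn0).1
    have h3 : (n : ℚ) = (d : ℚ) := by
      rw [hn]
      push_cast
      rfl
    rw [h3] at h1
    exact h1

end EtaPAux

open Classical in
theorem tEtaP (hB0 : S_B0) (hC1 : S_C1) (hE11 : S_E11) (hGal : S_Gal) (hSumC : S_SumC)
    (hChi : S_Chi) (hUEps : S_UEps) : S_EtaP := by
  intro f χ Sg lam hf h7 hχ hSg hlam a b c d hG hd
  have hρ' := EtaPAux.isRho_io hChi hUEps hf h7 hχ
  obtain ⟨-, -, -, ⟨σ, hσ⟩, -⟩ := hGal f hf h7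
  obtain ⟨hn, hsum⟩ := hSumC f σ Sg hf h7 hσ hSg
  obtain ⟨c1, -, -, -, -, -, c7, c8⟩ := hChi f χ hf h7 hχ
  -- `d` is not zero
  have hf0 : 0 < f := hf.pos
  have hd0 : d ≠ 0 := by
    rintro rfl
    have h1 : (7 : ℤ) ∣ 0 - 1 := (Dvd.intro _ rfl).trans hd
    omega
  -- the number `Φ`
  obtain ⟨Φ, hΦ1, hΦ2⟩ := hC1 f hf h7 _ hρ' a b c d hG
  have heps : eps (d : OO) = 1 := by
    obtain ⟨-, -, -, -, hj, -⟩ := hUEps
    rw [hj]
    have h1 : (7 : ℤ) ∣ d - 1 := (Dvd.intro _ rfl).trans hd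
    have h2 : jacobiSym d 7 = jacobiSym 1 7 := by
      apply jacobiSym.mod_left'
      exact (Int.modEq_iff_dvd.2 h1).symm
    rw [h2]
    exact jacobiSym.one_left 7
  have hfd : (f : ℤ) ∣ d - 1 := by
    have h1 : (f : ℤ) ∣ 7 * (f : ℤ) ^ 2 := ⟨7 * f, by ring⟩
    exact h1.trans hd
  have hper : (fun v : OO => io ((eps ((d : OO) * v) : Om) * χ ((d : OO) * v))) =
      fun v : OO => io ((eps v : Om) * χ v) := by
    funext v
    obtain ⟨k, hk⟩ := hfd
    have h1 : (d : OO) * v = v + (f : OO) * ((k : OO) * v) := by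
      have h2 : (d : OO) = 1 + (f : OO) * (k : OO) := by
        have h3 : d = 1 + (f : ℤ) * k := by omega
        rw [h3]
        push_cast
        rfl
      rw [h2]
      ring
    rw [h1]
    exact hρ'.per v _
  have hI : 0 < Complex.I.im := by
    rw [Complex.I_im]
    exact one_pos
  have e1 := hΦ1 Complex.I hI
  have e2 := hΦ2 0 (by
    rw [mul_zero, zero_add]
    exact_mod_cast hd0)
  beta_reduce at e1 e2
  rw [hper, heps, Int.cast_one, one_mul] at e1 e2
  rw [mul_zero, zero_add, mul_zero, zero_add] at e2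
  -- the periods
  have h1 := hlam.2 χ σ hχ.per c1 hχ.zero hσ a b c d hG hd Complex.I hI
  have h2 : sumO f (fun v => if Cop v f then χ v * σ v (lam b d) else 0) =
      (nH f : Om) * ∑ s ∈ Sg, chG f χ s * s (lam b d) := by
    rw [← hsum (fun τ => chG f χ τ * τ (lam b d)) ?_]
    · refine congrArg (sumO f) (funext fun v => ?_)
      by_cases hv : Cop v f
      · rw [if_pos hv, if_pos hv, c8 σ hσ v hv]
      · rw [if_neg hv, if_neg hv]
    · intro τ hτ τ' hτ' h
      rw [c7 τ hτ τ' hτ' h, h _ (hlam.1 b d).1]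
  rw [h2, EtaPAux.cast_nH, map_mul, map_natCast] at h1
  have hne : (nH f : ℂ) ≠ 0 := Nat.cast_ne_zero.2 hn.ne'
  have h3 : (fun v : OO => (eps v : ℂ) * io (χ v)) = fun v : OO => io ((eps v : Om) * χ v) := by
    funext v
    rw [map_mul, map_intCast]
  rw [h3, e1, add_sub_cancel_left] at h1
  have h4 : Φ = OmC * io (∑ s ∈ Sg, chG f χ s * s (lam b d)) := by
    apply mul_left_cancel₀ hne
    rw [h1]
    ring
  -- the values of `eta`
  have g1 := EtaPAux.io_etaX hE11 hChi hUEps hf h7 hχ b d hd0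
  have g0 := EtaPAux.io_etaX hE11 hChi hUEps hf h7 hχ 0 1 one_ne_zero
  rw [Int.cast_zero, zero_div] at g0
  apply io_inj
  rw [map_sub]
  apply mul_right_cancel₀ hB0.1
  rw [sub_mul, g1, g0, e2, add_sub_cancel_left, h4]
  ring

end Pool.Agent.DI.F
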