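import Pool.Agent.Lib.DI.F.SpecF

/-!
# Theorem DI, Part F: the output of F1
-/

set_option autoImplicit false

open scoped Pointwise Topology MatrixGroups
open Filter CongruenceSubgroup

noncomputable section

namespace Pool.Agent.DI.F

open Pool.Agent.MuZ Pool.Agent.DI

namespace F1Aux

/-- in `V_Q` for all primes `Q` above `2` -/
def Al (x : Om) : Prop := ∀ Q : Ideal ZZ, Npr Q → MP Q 2 → VP Q x

theorem al_smul {x : Om} (hx : Al x) (τ : Gal(Om/ℚ)) : Al (τ x) := by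
  intro Q hQ hQ2
  have hp : Q.IsPrime := hQ.1
  have e : τ • (τ⁻¹ • Q) = Q := smul_inv_smul τ Q
  have h1 : Npr (τ⁻¹ • Q) := by
    refine ⟨Ideal.IsPrime.smul τ⁻¹, fun h => hQ.2 ?_⟩
    rw [← e, h]
    exact smul_zero τ
  have h2 : MP (τ⁻¹ • Q) 2 := by
    have h3 := MP.smul (P := Q) τ⁻¹ (x := 2)
    rw [map_ofNat] at h3
    exact h3.2 hQ2
  have h3 := (VP.smul (P := τ⁻¹ • Q) τ (x := x)).2 (hx _ h1 h2)
  rwa [e] at h3

theorem wO_int : IsIntegral ℤ wO := by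
  refine ⟨Polynomial.X ^ 2 - Polynomial.X + Polynomial.C 2, ?_, ?_⟩
  · monicity!
  · simp [wO_sq]

theorem two_mp {P : Ideal ZZ} (hP : AbPi P) : MP P 2 := by
  have hp : P.IsPrime := hP.1
  have h1 : VP P (1 - wO) := VP.one.sub (VP.integral wO_int)
  have h2 := MP.mul_right hP.2.2 h1
  have e : wO * (1 - wO) = 2 := by linear_combination -wO_sq
  rwa [e] at h2

/-- reindexing of the sum over representatives -/
theorem reindex {f : ℕ} {Sg : Finset Gal(Om/ℚ)} (hSg : IsSg f Sg)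
    (φ : Gal(Om/ℚ) → Gal(Om/ℚ)) (hmem : ∀ τ ∈ GK, φ τ ∈ GK)
    (hinj : ∀ τ ∈ GK, ∀ τ' ∈ GK, (∀ x ∈ Lf f, φ τ x = φ τ' x) → ∀ x ∈ Lf f, τ x = τ' x)
    (F : Gal(Om/ℚ) → Om)
    (hF : ∀ τ ∈ GK, ∀ τ' ∈ GK, (∀ x ∈ Lf f, τ x = τ' x) → F τ = F τ') :
    ∑ s ∈ Sg, F (φ s) = ∑ s ∈ Sg, F s := by
  classical
  choose r hr1 hr2 using fun (s : Gal(Om/ℚ)) (hs : s ∈ Sg) => hSg.ex (φ s) (hmem s (hSg.mem s hs))
  have hri : ∀ s s' hs hs', r s hs = r s' hs' → s = s' := by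
    intro s s' hs hs' h
    refine hSg.uni s hs s' hs' (hinj s (hSg.mem s hs) s' (hSg.mem s' hs') fun x hx => ?_)
    rw [← hr2 s hs x hx, h, hr2 s' hs' x hx]
  refine Finset.sum_bij r hr1 (fun s hs s' hs' h => hri s s' hs hs' h) ?_ ?_
  · intro t ht
    obtain ⟨s, hs, h⟩ := Finset.surj_on_of_inj_on_of_card_le r hr1 hri le_rfl t ht
    exact ⟨s, hs, h.symm⟩
  · intro s hs
    exact hF _ (hmem s (hSg.mem s hs)) _ (hSg.mem _ (hr1 s hs)) fun x hx => (hr2 s hs x hx).symm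

/-- common denominators -/
theorem exists_N (T : Finset (Om × Om))
    (h : ∀ t ∈ T, ∃ n : ℕ, Odd n ∧ (∃ v : OO, (n : Om) * t.1 = toO v) ∧
      ∃ v : OO, (n : Om) * t.2 = toO v) :
    ∃ N0 : ℕ, Odd N0 ∧ ∀ t ∈ T, (∃ v : OO, (N0 : Om) * t.1 = toO v) ∧
      ∃ v : OO, (N0 : Om) * t.2 = toO v := by
  classical
  induction T using Finset.induction_on with
  | empty => exact ⟨1, odd_one, fun t ht => absurd ht (Finset.notMem_empty t)⟩
  | insert a T ha ih =>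
    obtain ⟨N, hN, h1⟩ := ih fun t ht => h t (Finset.mem_insert_of_mem ht)
    obtain ⟨n, hn, ⟨v, hv⟩, u, hu⟩ := h a (Finset.mem_insert_self a T)
    refine ⟨N * n, hN.mul hn, fun t ht => ?_⟩
    rcases Finset.mem_insert.1 ht with rfl | ht
    · refine ⟨⟨N * v, ?_⟩, N * u, ?_⟩
      · rw [map_mul, map_natCast, ← hv]
        push_cast
        ring
      · rw [map_mul, map_natCast, ← hu]
        push_cast
        ring
    · obtain ⟨⟨v', hv'⟩, u', hu'⟩ := h1 t ht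
      refine ⟨⟨n * v', ?_⟩, n * u', ?_⟩
      · rw [map_mul, map_natCast, ← hv']
        push_cast
        ring
      · rw [map_mul, map_natCast, ← hu']
        push_cast
        ring

theorem closure_N (N0 : ℕ) (T : Finset (Om × Om))
    (h : ∀ t ∈ T, (∃ v : OO, (N0 : Om) * t.1 = toO v) ∧ ∃ v : OO, (N0 : Om) * t.2 = toO v)
    (x : Om × Om) (hx : x ∈ AddSubgroup.closure (T : Set (Om × Om))) :
    (∃ v : OO, (N0 : Om) * x.1 = toO v) ∧ ∃ v : OO, (N0 : Om) * x.2 = toO v := by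
  induction hx using AddSubgroup.closure_induction with
  | mem t ht => exact h t ht
  | zero => exact ⟨⟨0, by rw [Prod.fst_zero, mul_zero, map_zero]⟩, 0,
      by rw [Prod.snd_zero, mul_zero, map_zero]⟩
  | add x y _ _ hx hy =>
    obtain ⟨⟨v, hv⟩, u, hu⟩ := hx
    obtain ⟨⟨v', hv'⟩, u', hu'⟩ := hy
    exact ⟨⟨v + v', by rw [Prod.fst_add, mul_add, hv, hv', map_add]⟩, u + u',
      by rw [Prod.snd_add, mul_add, hu, hu', map_add]⟩
  | neg x _ hx =>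
    obtain ⟨⟨v, hv⟩, u, hu⟩ := hx
    exact ⟨⟨-v, by rw [Prod.fst_neg, mul_neg, hv, map_neg]⟩, -u,
      by rw [Prod.snd_neg, mul_neg, hu, map_neg]⟩

/-- the entries of an element of `Gamma1` -/
theorem ent (f : ℕ) {g : SL(2, ℤ)} (hg : g ∈ Gamma1 (7 * f ^ 2)) :
    G0 (7 * f ^ 2) (g 0 0) (g 0 1) (g 1 0) (g 1 1) ∧ (7 * f ^ 2 : ℤ) ∣ g 1 1 - 1 := by
  rw [Gamma1_mem] at hg
  obtain ⟨-, h2, h3⟩ := hg
  have e : (((7 * f ^ 2 : ℕ) : ℤ)) = 7 * (f : ℤ) ^ 2 := by push_cast; rfl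
  refine ⟨⟨?_, ?_⟩, ?_⟩
  · have := Matrix.SpecialLinearGroup.det_coe g
    rw [Matrix.det_fin_two] at this
    exact this
  · rw [← e]
    exact (ZMod.intCast_zmod_eq_zero_iff_dvd _ _).1 h3
  · rw [← e]
    refine (ZMod.intCast_zmod_eq_zero_iff_dvd _ _).1 ?_
    rw [Int.cast_sub, h2, Int.cast_one, sub_self]

/-- the matrix with given entries -/
theorem mk (f : ℕ) {a b c d : ℤ} (h : G0 (7 * f ^ 2) a b c d) (hd : (7 * f ^ 2 : ℤ) ∣ d - 1) :
    ∃ g ∈ Gamma1 (7 * f ^ 2), g 0 1 = b ∧ g 1 1 = d := by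
  have e : (((7 * f ^ 2 : ℕ) : ℤ)) = 7 * (f : ℤ) ^ 2 := by push_cast; rfl
  have h1 : ((d : ℤ) : ZMod (7 * f ^ 2)) = 1 := by
    have := (ZMod.intCast_zmod_eq_zero_iff_dvd (d - 1) (7 * f ^ 2)).2 (by rw [e]; exact hd)
    rw [Int.cast_sub, Int.cast_one] at this
    exact sub_eq_zero.1 this
  have h2 : ((c : ℤ) : ZMod (7 * f ^ 2)) = 0 :=
    (ZMod.intCast_zmod_eq_zero_iff_dvd c (7 * f ^ 2)).2 (by rw [e]; exact h.2)
  have h3 : ((a : ℤ) : ZMod (7 * f ^ 2)) = 1 := by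
    have := congrArg (fun t : ℤ => (t : ZMod (7 * f ^ 2))) h.1
    simp only [Int.cast_sub, Int.cast_mul, h1, h2, mul_zero, sub_zero, mul_one, Int.cast_one] at this
    exact this
  refine ⟨⟨!![a, b; c, d], ?_⟩, ?_, rfl, rfl⟩
  · rw [Matrix.det_fin_two_of]
    exact h.1
  · rw [Gamma1_mem]
    exact ⟨h3, h1, h2⟩

/-- additivity of the periods -/
theorem per_mul (f : ℕ) (U : ℂ → ℂ) (p : ℤ → ℤ → Om) (h0 : OmC ≠ 0)
    (h : ∀ a b c d : ℤ, G0 (7 * f ^ 2) a b c d → (7 * f ^ 2 : ℤ) ∣ d - 1 → ∀ z : ℂ, 0 < z.im →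
      U ((a * z + b) / (c * z + d)) - U z = OmC * io (p b d))
    (g : SL(2, ℤ)) (hg : g ∈ Gamma1 (7 * f ^ 2)) (k : SL(2, ℤ)) (hk : k ∈ Gamma1 (7 * f ^ 2)) :
    p ((g * k) 0 1) ((g * k) 1 1) = p (g 0 1) (g 1 1) + p (k 0 1) (k 1 1) := by
  have key : ∀ g ∈ Gamma1 (7 * f ^ 2), ∀ z : UpperHalfPlane,
      U ((g • z : UpperHalfPlane) : ℂ) - U z = OmC * io (p (g 0 1) (g 1 1)) := by
    intro g hg z
    obtain ⟨h1, h2⟩ := ent f hg
    have h3 := h _ _ _ _ h1 h2 z z.im_pos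
    rw [← h3, UpperHalfPlane.coe_specialLinearGroup_apply]
    simp only [eq_intCast, Complex.ofReal_intCast]
  have h1 := key g hg (k • UpperHalfPlane.I)
  have h2 := key k hk UpperHalfPlane.I
  have h3 := key (g * k) ((Gamma1 (7 * f ^ 2)).mul_mem hg hk) UpperHalfPlane.I
  rw [mul_smul] at h3
  apply io_inj
  apply mul_left_cancel₀ h0
  rw [← h3, map_add, mul_add, ← h1, ← h2]
  ring

end F1Aux

open F1Aux

theorem tF1 (hB0 : S_B0) (hB12 : S_B12) (hA1 : S_A1) (hGal : S_Gal) (hChi : S_Chi) (hCc : S_Cc)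
    (hKP : S_KP) (hCj : S_Cj) (hFg : S_Fg) (hBeta : S_Beta) (hPer : S_Per) (hEtaP : S_EtaP)
    (hEtaM : S_EtaM) (hUNm : S_UNm) : S_F1 := by
  intro f χ P σ lam hf h7 hχ hP hσ hlam hyp
  obtain ⟨hOm0, -⟩ := hB0
  obtain ⟨sg, hsg, hOmc, -⟩ := hB12
  obtain ⟨cc, hcc⟩ := hA1
  obtain ⟨hfd, -, hGKw, -, ⟨Sg, hSg⟩, hst, hfix, -, -, -⟩ := hGal f hf h7
  obtain ⟨-, -, -, -, hchU, hchM, hchE, -⟩ := hChi f χ hf h7 hχ
  obtain ⟨hcw, hc2, hctoO, hcKQ⟩ := hCc cc hcc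
  obtain ⟨hK1, -, hK3⟩ := hKP P hP
  obtain ⟨-, hcG, hcm⟩ := hCj cc hcc
  obtain ⟨-, -, -, -, -, hcjm, hcjN, -⟩ := hUNm
  have hp : P.IsPrime := hP.1
  have hP2 : MP P 2 := two_mp hP
  have hNP : Npr P := ⟨hP.1, hP.2.1⟩
  have hf0 : f ≠ 0 := by
    rintro rfl
    exact (by decide : ¬ Odd 0) hf
  -- periods
  have hlL : ∀ b d, lam b d ∈ Lf f := fun b d => (hlam.1 b d).1
  have hlA : ∀ b d, Al (lam b d) := fun b d => (hlam.1 b d).2
  have hcA : ∀ b d, Al (cc (lam b d)) := fun b d => al_smul (hlA b d) cc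
  have hcL : ∀ b d, cc (lam b d) ∈ Lf f := fun b d => hst cc _ (hlL b d)
  have hintL : ∀ n : ℤ, (n : Om) ∈ Lf f := fun n => intCast_mem (Lf f) n
  set lp : ℤ → ℤ → Om := fun b d => lam b d + sg * cc (lam b d) with hlp
  have hlpL : ∀ b d, lp b d ∈ Lf f := fun b d =>
    (Lf f).add_mem (hlL b d) ((Lf f).mul_mem (hintL sg) (hcL b d))
  have hlpA : ∀ b d, Al (lp b d) := by
    intro b d Q hQ hQ2
    have hq : Q.IsPrime := hQ.1
    exact (hlA b d Q hQ hQ2).add ((VP.int sg).mul (hcA b d Q hQ hQ2))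
  have hc2' : ∀ x, cc (cc x) = x := hc2
  -- reindexings
  have reR : ∀ τ ∈ GK, ∀ F : Gal(Om/ℚ) → Om,
      (∀ ρ ∈ GK, ∀ ρ' ∈ GK, (∀ x ∈ Lf f, ρ x = ρ' x) → F ρ = F ρ') →
      ∑ s ∈ Sg, F (s * τ) = ∑ s ∈ Sg, F s := by
    intro τ hτ F hF
    refine reindex hSg (fun s => s * τ) (fun s hs => GK.mul_mem hs hτ) ?_ F hF
    intro s _ s' _ h x hx
    have h1 := h (τ⁻¹ x) (hst _ _ hx)
    have h2 : τ (τ⁻¹ x) = x := by
      rw [← AlgEquiv.mul_apply, mul_inv_cancel, AlgEquiv.one_apply]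
    simpa only [AlgEquiv.mul_apply, h2] using h1
  have reL : ∀ τ ∈ GK, ∀ F : Gal(Om/ℚ) → Om,
      (∀ ρ ∈ GK, ∀ ρ' ∈ GK, (∀ x ∈ Lf f, ρ x = ρ' x) → F ρ = F ρ') →
      ∑ s ∈ Sg, F (τ * s) = ∑ s ∈ Sg, F s := by
    intro τ hτ F hF
    refine reindex hSg (fun s => τ * s) (fun s hs => GK.mul_mem hτ hs) ?_ F hF
    intro s _ s' _ h x hx
    have h1 := h x hx
    simp only [AlgEquiv.mul_apply] at h1
    exact τ.injective h1
  have reC : ∀ F : Gal(Om/ℚ) → Om,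
      (∀ ρ ∈ GK, ∀ ρ' ∈ GK, (∀ x ∈ Lf f, ρ x = ρ' x) → F ρ = F ρ') →
      ∑ s ∈ Sg, F (cc * s * cc) = ∑ s ∈ Sg, F s := by
    intro F hF
    refine reindex hSg (fun s => cc * s * cc) hcG ?_ F hF
    intro s _ s' _ h x hx
    have h1 := h (cc x) (hst _ _ hx)
    simp only [AlgEquiv.mul_apply, hc2'] at h1
    exact cc.injective h1
  -- traces
  set tr : Om → Om := fun y => ∑ s ∈ Sg, s y with htr
  have trK : ∀ y ∈ Lf f, tr y ∈ KQ := by
    intro y hy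
    refine hfix _ fun τ hτ => ?_
    have h1 := reL τ hτ (fun ρ => ρ y) (fun ρ _ ρ' _ h => h y hy)
    change τ (∑ s ∈ Sg, s y) = ∑ s ∈ Sg, s y
    rw [map_sum]
    exact h1
  have trc : ∀ y ∈ Lf f, cc (tr y) = tr (cc y) := by
    intro y hy
    have h1 := reC (fun ρ => ρ (cc y)) (fun ρ _ ρ' _ h => h _ (hst cc y hy))
    change cc (∑ s ∈ Sg, s y) = ∑ s ∈ Sg, s (cc y)
    rw [← h1, map_sum]
    refine Finset.sum_congr rfl fun s _ => ?_
    simp only [AlgEquiv.mul_apply, hc2']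
  -- the set S
  have hmain : ∀ a b c d : ℤ, G0 (7 * f ^ 2) a b c d → (7 * f ^ 2 : ℤ) ∣ d - 1 →
      MP P (∑ s ∈ Sg, chG f χ s * s (lp b d)) := by
    intro a b c d h hd
    have h1 := hEtaP f χ Sg lam hf h7 hχ hSg hlam a b c d h hd
    have h2 := hEtaM f χ Sg lam cc sg hf h7 hχ hSg hlam hcc hsg hOmc a b c d h hd
    have h3 : ∑ s ∈ Sg, chG f χ s * s (lp b d) =
        etaX χ (b / d) + etaX χ (-(b / d)) - 2 * etaX χ 0 := by
      have h4 : ∑ s ∈ Sg, chG f χ s * s (lp b d) = ∑ s ∈ Sg, chG f χ s * s (lam b d) +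
          sg * ∑ s ∈ Sg, chG f χ s * s (cc (lam b d)) := by
        rw [Finset.mul_sum, ← Finset.sum_add_distrib]
        refine Finset.sum_congr rfl fun s _ => ?_
        simp only [hlp, map_add, map_mul, map_intCast]
        ring
      rw [h4, ← h1, ← h2]
      ring
    rw [h3]
    exact hyp a b c d h hd
  set S : Set Om := {w | ∃ a b c d : ℤ, G0 (7 * f ^ 2) a b c d ∧ (7 * f ^ 2 : ℤ) ∣ d - 1 ∧
    ∃ τ ∈ GK, w = τ (lp b d)} with hS
  obtain ⟨β, hβL, hβU, hβV, hβc, hβS⟩ := hBeta f P Sg cc hf h7 hP hSg hcc (chG f χ) S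
    (fun s hs => hchU s (hSg.mem s hs) P hp)
    (by
      rintro w ⟨a, b, c, d, -, -, τ, -, rfl⟩
      exact ⟨hst τ _ (hlpL b d), al_smul (hlpA b d) τ⟩)
    (by
      rintro w ⟨a, b, c, d, h, hd, τ, hτ, rfl⟩ ρ hρ
      exact ⟨a, b, c, d, h, hd, ρ * τ, GK.mul_mem hρ hτ, rfl⟩)
    (by
      rintro w ⟨a, b, c, d, h, hd, τ, hτ, rfl⟩
      have hτ' : τ⁻¹ ∈ GK := GK.inv_mem hτ
      have h1 : ∑ s ∈ Sg, chG f χ s * s (τ (lp b d)) =
          chG f χ τ⁻¹ * ∑ s ∈ Sg, chG f χ (s * τ) * (s * τ) (lp b d) := by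
        rw [Finset.mul_sum]
        refine Finset.sum_congr rfl fun s hs => ?_
        have h2 := hchM (s * τ) (GK.mul_mem (hSg.mem s hs) hτ) τ⁻¹ hτ'
        rw [mul_inv_cancel_right] at h2
        rw [h2, AlgEquiv.mul_apply]
        ring
      rw [h1, reR τ hτ (fun ρ => chG f χ ρ * ρ (lp b d))
        (fun ρ hρ ρ' hρ' h3 => by rw [hchE ρ hρ ρ' hρ' h3, h3 _ (hlpL b d)])]
      exact MP.mul_left (hchU _ hτ' P hp).1 (hmain a b c d h hd))
  have hcβL : cc β ∈ Lf f := hst cc β hβL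
  have hcβV : ∀ τ ∈ GK, VP P (τ (cc β)) := by
    intro τ hτ
    have h1 := (hβc τ hτ).vp.add VP.one
    rwa [sub_add_cancel] at h1
  have hcβU : UP P (cc β) := UP.congr UP.one (hβc 1 GK.one_mem)
  -- the traces are in `(1/n) O`
  have key : ∀ y ∈ Lf f, (∀ τ ∈ GK, VP P (τ y)) → (∀ τ ∈ GK, VP P (τ (cc y))) → ∀ b d : ℤ,
      ∃ n : ℕ, Odd n ∧ ∃ v : OO, (n : Om) * tr (y * lam b d) = toO v := by
    intro y hy hyV hyc b d
    have hyl : y * lam b d ∈ Lf f := (Lf f).mul_mem hy (hlL b d)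
    refine hK3 cc hcc _ (trK _ hyl) ?_ ?_
    · refine VP.sum _ _ fun s hs => ?_
      rw [map_mul]
      exact (hyV s (hSg.mem s hs)).mul (al_smul (hlA b d) s P hNP hP2)
    · rw [trc _ hyl]
      refine VP.sum _ _ fun s hs => ?_
      rw [map_mul, map_mul]
      exact (hyc s (hSg.mem s hs)).mul (al_smul (hcA b d) s P hNP hP2)
  have keyA := key β hβL hβV hcβV
  have keyB := key (cc β) hcβL hcβV (fun τ hτ => by rw [hc2']; exact hβV τ hτ)
  have perA := fun a b c d h hd => hPer f σ Sg lam β hf h7 hσ hSg hlam hβL a b c d h hd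
  have perB := fun a b c d h hd => hPer f σ Sg lam (cc β) hf h7 hσ hSg hlam hcβL a b c d h hd
  -- finitely many generators
  have : NeZero (7 * f ^ 2) := ⟨by positivity⟩
  obtain ⟨T, hT1, hT2⟩ := hFg (7 * f ^ 2) (Om × Om)
    (fun g => (tr (β * lam (g 0 1) (g 1 1)), tr (cc β * lam (g 0 1) (g 1 1)))) (by
      intro g hg k hk
      refine Prod.ext ?_ ?_
      · exact per_mul f (Tb f σ β) (fun b d => tr (β * lam b d)) hOm0 perA g hg k hk
      · exact per_mul f (Tb f σ (cc β)) (fun b d => tr (cc β * lam b d)) hOm0 perB g hg k hk)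
  obtain ⟨N0, hN0, hNT⟩ := exists_N T (by
    intro t ht
    obtain ⟨g, -, rfl⟩ := hT1 t ht
    obtain ⟨n, hn, v, hv⟩ := keyA (g 0 1) (g 1 1)
    obtain ⟨m, hm, u, hu⟩ := keyB (g 0 1) (g 1 1)
    refine ⟨n * m, hn.mul hm, ⟨m * v, ?_⟩, n * u, ?_⟩
    · rw [map_mul, map_natCast, ← hv]
      push_cast
      ring
    · rw [map_mul, map_natCast, ← hu]
      push_cast
      ring)
  refine ⟨β, cc β, N0, hβL, hcβL, hβU, hcβU, fun τ hτ => ⟨hβV τ hτ, hcβV τ hτ⟩,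
    by exact_mod_cast hN0, ?_⟩
  intro a b c d h hd
  obtain ⟨g, hg, hgb, hgd⟩ := F1Aux.mk f h hd
  obtain ⟨⟨α, hα⟩, α', hα'⟩ := closure_N N0 T hNT _ (hT2 g hg)
  simp only [hgb, hgd] at hα hα'
  refine ⟨α, α', ?_, fun z hz => ⟨?_, ?_⟩⟩
  · -- parity
    have h1 : lp b d ∈ S := ⟨a, b, c, d, h, hd, 1, GK.one_mem, rfl⟩
    have h2 := hβS _ h1
    have h3 : ∑ s ∈ Sg, s (β * lp b d) = tr (β * lam b d) + sg * cc (tr (cc β * lam b d)) := by
      rw [trc _ ((Lf f).mul_mem hcβL (hlL b d)), map_mul, hc2']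
      change _ = ∑ s ∈ Sg, s (β * lam b d) + sg * ∑ s ∈ Sg, s (β * cc (lam b d))
      rw [Finset.mul_sum, ← Finset.sum_add_distrib]
      refine Finset.sum_congr rfl fun s _ => ?_
      simp only [hlp, map_add, map_mul, map_intCast]
      ring
    rw [h3] at h2
    have h4 : MP P (toO (α + sg * cjO α')) := by
      have h5 := MP.mul_left (VP.nat (P := P) N0) h2
      have h6 : (N0 : Om) * (tr (β * lam b d) + sg * cc (tr (cc β * lam b d))) =
          toO (α + sg * cjO α') := by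
        rw [map_add, map_mul, map_intCast, ← hctoO, ← hα', ← hα, map_mul, map_natCast]
        ring
      rwa [h6] at h5
    rw [hK1] at h4
    have hsg2 : ((sg : ℤ) : OO) * sg = 1 := by
      rcases hsg with rfl | rfl
      · simp
      · simp
    have hcp : cjO pO = pbO := rfl
    have h7' : pbO ∣ α' ↔ pO ∣ cjO α' := by
      have hcpb : cjO pbO = pO := by rw [← hcp, (hcjN pO).2]
      constructor
      · rintro ⟨u, rfl⟩
        rw [hcjm, hcpb]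
        exact dvd_mul_right _ _
      · rintro ⟨u, hu⟩
        have := congrArg cjO hu
        rw [(hcjN α').2, hcjm, hcp] at this
        rw [this]
        exact dvd_mul_right _ _
    rw [h7']
    constructor
    · intro h8
      have h9 : pO ∣ sg * cjO α' := (dvd_add_right h8).1 h4
      have h10 := h9.mul_left (sg : OO)
      rwa [← mul_assoc, hsg2, one_mul] at h10
    · intro h8
      exact (dvd_add_left (h8.mul_left _)).1 h4
  · rw [perA a b c d h hd z hz, ← io_toO, ← hα, map_mul, map_natCast, Int.cast_natCast]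
    ring
  · rw [perB a b c d h hd z hz, ← io_toO, ← hα', map_mul, map_natCast, Int.cast_natCast]
    ring

end Pool.Agent.DI.F
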