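import Pool.Agent.Lib.DI.F.SpecT

/-!
# THEOREM DI, part F, module F3core: the formal output of F3
-/

set_option autoImplicit false

namespace Pool.Agent.DI.F

open Filter Topology

namespace F3coreAux

/-- the value at `0` -/
theorem coeff_zero_tay (f : ℂ → ℂ) : PowerSeries.coeff 0 (tay f) = f 0 := by
  unfold tay
  rw [PowerSeries.coeff_mk, iteratedDeriv_zero]
  simp

/-- the function `u` near `0` -/
theorem near (u : ℂ → ℂ) (k : Subfield ℂ) (hCo : S_Co) (hu : Co k u) (h0 : u 0 = 0)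
    (hd : deriv u 0 ≠ 0) :
    (∀ᶠ q in 𝓝[≠] (0 : ℂ), q ≠ 0 ∧ dslope u 0 q ≠ 0 ∧ u q ≠ 0) ∧
      Tendsto u (𝓝[≠] (0 : ℂ)) (𝓝[≠] (0 : ℂ)) := by
  obtain ⟨_, _, _, _, _, hsl, _⟩ := hCo k
  obtain ⟨ha, ha0, haq⟩ := hsl u hu h0
  have hcont : ContinuousAt (dslope u 0) 0 := ha.1.continuousAt
  have hne : ∀ᶠ q in 𝓝 (0 : ℂ), dslope u 0 q ≠ 0 := by
    refine hcont.eventually_ne ?_
    rw [ha0]
    exact hd
  have h1 : ∀ᶠ q in 𝓝[≠] (0 : ℂ), q ≠ 0 ∧ dslope u 0 q ≠ 0 ∧ u q ≠ 0 := by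
    have h2 : ∀ᶠ q in 𝓝[≠] (0 : ℂ), dslope u 0 q ≠ 0 := hne.filter_mono nhdsWithin_le_nhds
    have h3 : ∀ᶠ q in 𝓝[≠] (0 : ℂ), q ≠ 0 := eventually_mem_nhdsWithin
    filter_upwards [h2, h3] with q hq hq'
    refine ⟨hq', hq, ?_⟩
    rw [haq q]
    exact mul_ne_zero hq' hq
  refine ⟨h1, ?_⟩
  rw [tendsto_nhdsWithin_iff]
  constructor
  · have h4 : Tendsto u (𝓝 0) (𝓝 (u 0)) := hu.1.continuousAt
    rw [h0] at h4
    exact h4.mono_left nhdsWithin_le_nhds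
  · filter_upwards [h1] with q hq
    exact hq.2.2

end F3coreAux

open F3coreAux in
/-- **Formal output of F3.** -/
theorem tF3core (hTay : S_Tay) (hCo : S_Co) (hTW : S_TW) (hGam : S_Gam) (hTWcomp : S_TWcomp) :
    S_F3core := by
  intro Λ hg2 hg3 k p pb hpk hpbk hsum hprod hGA hGB uA uB huA huB huA0 huB0 hdA hdB
  obtain ⟨hT1, _, hTadd, hTmul, ⟨hTc, hTX⟩, _, hTcongr⟩ := hTay
  obtain ⟨⟨hc, hid⟩, har, _, hinv, hcomp, hsl, hcongr⟩ := hCo k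
  have hp0 : p ≠ 0 := by
    rintro rfl
    rw [zero_mul] at hprod
    norm_num at hprod
  have hpb0 : pb ≠ 0 := by
    rintro rfl
    rw [mul_zero] at hprod
    norm_num at hprod
  -- elements of the field
  have h2k : (2 : ℂ) ∈ k := by
    have h := k.add_mem k.one_mem k.one_mem
    rwa [one_add_one_eq_two] at h
  have h4k : (1 / 4 : ℂ) ∈ k := by
    have h := k.inv_mem (k.mul_mem h2k h2k)
    have e : ((2 : ℂ) * 2)⁻¹ = 1 / 4 := by norm_num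
    rwa [e] at h
  have hetk : pb / p ^ 2 - 1 / 4 ∈ k := k.sub_mem (k.div_mem hpbk (pow_mem hpk 2)) h4k
  have hesk : p / pb ^ 2 - 1 / 4 ∈ k := k.sub_mem (k.div_mem hpk (pow_mem hpbk 2)) h4k
  have hk2 : Λ.g₂ ∈ k := by
    rw [hg2]
    have h35 : (35 : ℂ) ∈ k := by exact_mod_cast natCast_mem k 35
    have h4 : (4 : ℂ) ∈ k := by exact_mod_cast natCast_mem k 4
    exact k.div_mem h35 h4
  have hk3 : Λ.g₃ ∈ k := by
    rw [hg3]
    have h49 : (49 : ℂ) ∈ k := by exact_mod_cast natCast_mem k 49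
    have h8 : (8 : ℂ) ∈ k := by exact_mod_cast natCast_mem k 8
    exact k.div_mem h49 h8
  -- the functions
  obtain ⟨hGA1, hGA0, hGAk, _⟩ := hGam Λ p (pb / p ^ 2 - 1 / 4) hp0
  obtain ⟨hGB1, hGB0, hGBk, _⟩ := hGam Λ pb (p / pb ^ 2 - 1 / 4) hpb0
  obtain ⟨haC, ha0, haq⟩ := hsl uA huA huA0
  obtain ⟨hbC, hb0, hbq⟩ := hsl uB huB huB0
  obtain ⟨hTAk, hWAk, hrelA⟩ := hTWcomp Λ hg2 hg3 k uA huA huA0
  obtain ⟨hTBk, hWBk, hrelB⟩ := hTWcomp Λ hg2 hg3 k uB huB huB0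
  obtain ⟨hnA, htA⟩ := near uA k hCo huA huA0 hdA
  obtain ⟨hnB, htB⟩ := near uB k hCo huB huB0 hdB
  have hGAc := hcomp _ _ (hGAk k hk2 hk3 hpk hetk) huA huA0
  have hGBc := hcomp _ _ (hGBk k hk2 hk3 hpbk hesk) huB huB0
  have haI := hinv _ haC (by rw [ha0]; exact hdA)
  have hbI := hinv _ hbC (by rw [hb0]; exact hdB)
  have hS1 := (har _ _ (hc p hpk) hGAc).2.1
  have hS2 := (har _ _ hS1 hGBc).2.1
  have hS3 := (har _ _ hS2 haI).2.1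
  have hS4 := (har _ _ hS3 hbI).2.1
  set S : ℂ → ℂ := fun q => p * Gam Λ p (pb / p ^ 2 - 1 / 4) (uA q) *
    Gam Λ pb (p / pb ^ 2 - 1 / 4) (uB q) * (dslope uA 0 q)⁻¹ * (dslope uB 0 q)⁻¹ with hS
  have hSC : Co k S := hS4
  have hSq : ∀ᶠ q in 𝓝[≠] (0 : ℂ), S q =
      q ^ 2 * (p * GG Λ p (pb / p ^ 2 - 1 / 4) (uA q) * GG Λ pb (p / pb ^ 2 - 1 / 4) (uB q)) := by
    filter_upwards [hnA, hnB] with q hqA hqB
    obtain ⟨_, hA1, hA2⟩ := hqA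
    obtain ⟨_, hB1, hB2⟩ := hqB
    have e1 : S q = p * Gam Λ p (pb / p ^ 2 - 1 / 4) (uA q) *
      Gam Λ pb (p / pb ^ 2 - 1 / 4) (uB q) * (dslope uA 0 q)⁻¹ * (dslope uB 0 q)⁻¹ := rfl
    rw [e1, ← hGA1 (uA q) hA2, ← hGB1 (uB q) hB2]
    have eA : uA q * (dslope uA 0 q)⁻¹ = q := by
      rw [haq q, mul_inv_cancel_right₀ hA1]
    have eB : uB q * (dslope uB 0 q)⁻¹ = q := by
      rw [hbq q, mul_inv_cancel_right₀ hB1]
    calc _ = (uA q * (dslope uA 0 q)⁻¹) * (uB q * (dslope uB 0 q)⁻¹) *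
          (p * GG Λ p (pb / p ^ 2 - 1 / 4) (uA q) *
            GG Λ pb (p / pb ^ 2 - 1 / 4) (uB q)) := by ring
      _ = _ := by
          rw [eA, eB, ← sq]
  -- the relation of functions
  obtain ⟨_, _, _, _, ⟨t, w, _, _, _, _, _, hWw⟩, hTWn⟩ := hTW Λ hg2 hg3 k
  have hW0 : Wf Λ 0 = 0 := by
    rw [hWw 0]
    ring
  have hfun : (fun q => S q * S q * Wf Λ (uA q) * Wf Λ (uB q)) =ᶠ[𝓝 0]
      (fun q => q * q * q * q * (Tf Λ (uA q) + (-(p / pb ^ 2)) * Wf Λ (uA q)) *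
        (p ^ 2 * Tf Λ (uB q) + (-pb) * Wf Λ (uB q))) := by
    have h1 : ∀ᶠ q in 𝓝[≠] (0 : ℂ), S q * S q * Wf Λ (uA q) * Wf Λ (uB q) =
        q * q * q * q * (Tf Λ (uA q) + (-(p / pb ^ 2)) * Wf Λ (uA q)) *
          (p ^ 2 * Tf Λ (uB q) + (-pb) * Wf Λ (uB q)) := by
      filter_upwards [hSq, htA.eventually hGA, htB.eventually hGB, htA.eventually hTWn,
        htB.eventually hTWn] with q h1 h2 h3 h4 h5
      rw [h1]
      obtain ⟨_, hA1, hA2, _⟩ := h4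
      obtain ⟨_, hB1, hB2, _⟩ := h5
      rw [hA2] at h2
      rw [hB2] at h3
      have e1 : GG Λ p (pb / p ^ 2 - 1 / 4) (uA q) ^ 2 * Wf Λ (uA q) =
          Tf Λ (uA q) + (-(p / pb ^ 2)) * Wf Λ (uA q) := by
        rw [h2, sub_mul, div_mul_cancel₀ _ hA1]
        ring
      have e2 : p ^ 2 * (GG Λ pb (p / pb ^ 2 - 1 / 4) (uB q) ^ 2 * Wf Λ (uB q)) =
          p ^ 2 * Tf Λ (uB q) + (-pb) * Wf Λ (uB q) := by
        rw [h3, sub_mul, div_mul_cancel₀ _ hB1]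
        field_simp
        ring
      rw [← e1, ← e2]
      ring
    have h2 : S 0 * S 0 * Wf Λ (uA 0) * Wf Λ (uB 0) =
        (0 : ℂ) * 0 * 0 * 0 * (Tf Λ (uA 0) + (-(p / pb ^ 2)) * Wf Λ (uA 0)) *
          (p ^ 2 * Tf Λ (uB 0) + (-pb) * Wf Λ (uB 0)) := by
      rw [huA0, hW0]
      ring
    rw [eventually_nhdsWithin_iff] at h1
    filter_upwards [h1] with q hq
    by_cases hq0 : q = 0
    · rw [hq0]
      exact h2
    · exact hq hq0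
  -- the power series
  have hpow := hTcongr _ _ hfun
  have aS : AnalyticAt ℂ S 0 := hSC.1
  have aSS : AnalyticAt ℂ (fun q => S q * S q) 0 := aS.mul aS
  have aWA : AnalyticAt ℂ (fun q => Wf Λ (uA q)) 0 := hWAk.1
  have aWB : AnalyticAt ℂ (fun q => Wf Λ (uB q)) 0 := hWBk.1
  have aTA : AnalyticAt ℂ (fun q => Tf Λ (uA q)) 0 := hTAk.1
  have aTB : AnalyticAt ℂ (fun q => Tf Λ (uB q)) 0 := hTBk.1
  have ac : ∀ c : ℂ, AnalyticAt ℂ (fun _ : ℂ => c) 0 := fun c => analyticAt_const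
  have aid : AnalyticAt ℂ (fun q : ℂ => q) 0 := analyticAt_id
  have hL : tay (fun q => S q * S q * Wf Λ (uA q) * Wf Λ (uB q)) =
      tay S * tay S * tay (fun q => Wf Λ (uA q)) * tay (fun q => Wf Λ (uB q)) := by
    rw [hTmul (fun q => S q * S q * Wf Λ (uA q)) (fun q => Wf Λ (uB q)) (aSS.mul aWA) aWB,
      hTmul (fun q => S q * S q) (fun q => Wf Λ (uA q)) aSS aWA, hTmul S S aS aS]
  have hR1 : tay (fun q => Tf Λ (uA q) + (-(p / pb ^ 2)) * Wf Λ (uA q)) =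
      tay (fun q => Tf Λ (uA q)) +
        PowerSeries.C (-(p / pb ^ 2)) * tay (fun q => Wf Λ (uA q)) := by
    rw [hTadd (fun q => Tf Λ (uA q)) (fun q => (-(p / pb ^ 2)) * Wf Λ (uA q)) aTA
      ((ac _).mul aWA), hTmul (fun _ => -(p / pb ^ 2)) (fun q => Wf Λ (uA q)) (ac _) aWA, hTc]
  have hR2 : tay (fun q => p ^ 2 * Tf Λ (uB q) + (-pb) * Wf Λ (uB q)) =
      PowerSeries.C (p ^ 2) * tay (fun q => Tf Λ (uB q)) +
        PowerSeries.C (-pb) * tay (fun q => Wf Λ (uB q)) := by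
    rw [hTadd (fun q => p ^ 2 * Tf Λ (uB q)) (fun q => (-pb) * Wf Λ (uB q)) ((ac _).mul aTB)
      ((ac _).mul aWB), hTmul (fun _ => p ^ 2) (fun q => Tf Λ (uB q)) (ac _) aTB,
      hTmul (fun _ => -pb) (fun q => Wf Λ (uB q)) (ac _) aWB, hTc, hTc]
  have aR1 : AnalyticAt ℂ (fun q => Tf Λ (uA q) + (-(p / pb ^ 2)) * Wf Λ (uA q)) 0 :=
    aTA.add ((ac _).mul aWA)
  have aR2 : AnalyticAt ℂ (fun q => p ^ 2 * Tf Λ (uB q) + (-pb) * Wf Λ (uB q)) 0 :=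
    ((ac _).mul aTB).add ((ac _).mul aWB)
  have aq2 : AnalyticAt ℂ (fun q : ℂ => q * q) 0 := aid.mul aid
  have aq3 : AnalyticAt ℂ (fun q : ℂ => q * q * q) 0 := aq2.mul aid
  have aq4 : AnalyticAt ℂ (fun q : ℂ => q * q * q * q) 0 := aq3.mul aid
  have hR : tay (fun q => q * q * q * q * (Tf Λ (uA q) + (-(p / pb ^ 2)) * Wf Λ (uA q)) *
        (p ^ 2 * Tf Λ (uB q) + (-pb) * Wf Λ (uB q))) =
      PowerSeries.X * PowerSeries.X * PowerSeries.X * PowerSeries.X *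
        (tay (fun q => Tf Λ (uA q)) +
          PowerSeries.C (-(p / pb ^ 2)) * tay (fun q => Wf Λ (uA q))) *
        (PowerSeries.C (p ^ 2) * tay (fun q => Tf Λ (uB q)) +
          PowerSeries.C (-pb) * tay (fun q => Wf Λ (uB q))) := by
    rw [hTmul (fun q => q * q * q * q * (Tf Λ (uA q) + (-(p / pb ^ 2)) * Wf Λ (uA q)))
        (fun q => p ^ 2 * Tf Λ (uB q) + (-pb) * Wf Λ (uB q)) (aq4.mul aR1) aR2,
      hTmul (fun q => q * q * q * q)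
        (fun q => Tf Λ (uA q) + (-(p / pb ^ 2)) * Wf Λ (uA q)) aq4 aR1,
      hTmul (fun q => q * q * q) (fun q => q) aq3 aid,
      hTmul (fun q => q * q) (fun q => q) aq2 aid,
      hTmul (fun q => q) (fun q => q) aid aid, hTX, hR1, hR2]
  rw [hL, hR] at hpow
  refine ⟨tay (fun q => Tf Λ (uA q)), tay (fun q => Wf Λ (uA q)), tay (fun q => Tf Λ (uB q)),
    tay (fun q => Wf Λ (uB q)), tay S, hTAk.2, hWAk.2, hTBk.2, hWBk.2, hSC.2, hrelA, hrelB,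
    ?_, ?_, ?_⟩
  · intro h0
    have h1 := coeff_zero_tay S
    rw [h0, map_zero] at h1
    have h2 : S 0 = p * Gam Λ p (pb / p ^ 2 - 1 / 4) (uA 0) *
      Gam Λ pb (p / pb ^ 2 - 1 / 4) (uB 0) * (dslope uA 0 0)⁻¹ * (dslope uB 0 0)⁻¹ := rfl
    rw [huA0, huB0, hGA0, hGB0, ha0, hb0] at h2
    rw [h2] at h1
    have h3 : p * (-1) * (-1) * (deriv uA 0)⁻¹ * (deriv uB 0)⁻¹ ≠ 0 :=
      mul_ne_zero (mul_ne_zero (mul_ne_zero (mul_ne_zero hp0 (by norm_num)) (by norm_num))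
        (inv_ne_zero hdA)) (inv_ne_zero hdB)
    exact h3 h1.symm
  · calc tay S ^ 2 * tay (fun q => Wf Λ (uA q)) * tay (fun q => Wf Λ (uB q))
        = tay S * tay S * tay (fun q => Wf Λ (uA q)) * tay (fun q => Wf Λ (uB q)) := by
          rw [sq]
      _ = _ := hpow
      _ = _ := by
          rw [map_neg, map_neg]
          ring
  · have h1 := (hT1 S aS).filter_mono (nhdsWithin_le_nhds (s := {(0 : ℂ)}ᶜ))
    filter_upwards [h1, hSq] with q hq hq'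
    rw [← hq']
    exact hq

end Pool.Agent.DI.F
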