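import Pool.Agent.Lib.DI.F.SpecF

set_option autoImplicit false

/-!
# THEOREM DI, Part F, file F: finitely many generators
-/

open scoped Pointwise Topology MatrixGroups
open Filter CongruenceSubgroup

noncomputable section

namespace Pool.Agent.DI.F

open Pool.Agent.MuZ Pool.Agent.DI

theorem tFg : S_Fg := by
  classical
  intro M _ A _ φ hφ
  have hfg : Group.FG SL(2, ℤ) := by
    refine ⟨⟨{ModularGroup.S, ModularGroup.T}, ?_⟩⟩
    rw [Finset.coe_pair]
    exact SpecialLinearGroup.SL2Z_generators
  have hfg1 : Group.FG (Gamma1 M) := Subgroup.fg_of_index_ne_zero _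
  obtain ⟨S, hS⟩ := hfg1.1
  have h1 : φ 1 = 0 := by
    have h := hφ 1 (one_mem _) 1 (one_mem _)
    rw [mul_one] at h
    exact left_eq_add.1 h
  have hinv : ∀ g ∈ Gamma1 M, φ g⁻¹ = - φ g := by
    intro g hg
    have h := hφ g hg g⁻¹ (inv_mem hg)
    rw [mul_inv_cancel, h1] at h
    exact (neg_eq_of_add_eq_zero_right h.symm).symm
  refine ⟨S.image (fun g : Gamma1 M => φ g), ?_, ?_⟩
  · intro t ht
    obtain ⟨g, _, rfl⟩ := Finset.mem_image.1 ht
    exact ⟨g, g.2, rfl⟩
  · have key : ∀ g : Gamma1 M, g ∈ Subgroup.closure (S : Set (Gamma1 M)) →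
        φ g ∈ AddSubgroup.closure
          ((S.image (fun g : Gamma1 M => φ g) : Finset A) : Set A) := by
      intro g hg
      induction hg using Subgroup.closure_induction with
      | mem x hx => exact AddSubgroup.subset_closure (Finset.mem_coe.2 (Finset.mem_image_of_mem _ hx))
      | one =>
        rw [Subgroup.coe_one, h1]
        exact zero_mem _
      | mul x y _ _ hx hy =>
        rw [Subgroup.coe_mul, hφ x x.2 y y.2]
        exact add_mem hx hy
      | inv x _ hx =>
        rw [Subgroup.coe_inv, hinv x x.2]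
        exact neg_mem hx
    intro g hg
    exact key ⟨g, hg⟩ (by rw [hS]; exact Subgroup.mem_top _)

end Pool.Agent.DI.F
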