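import Pool.Agent.Lib.DI.F.SpecF
import Pool.Agent.Lib.DI.Val

/-! DI, part F, module Frac: fractions inside a number field (helper67). -/

set_option autoImplicit false

open scoped Pointwise

noncomputable section

namespace Pool.Agent.DI.F

open Pool.Agent.MuZ Pool.Agent.FW NumberField IsDedekindDomain

theorem tFrac : S_Frac := by
  intro P hP L hfd x hx hxV
  have hNF : NumberField L := NumberField.mk
  set y : L := ⟨x, hx⟩ with hy
  have hfrac : ∀ (z : L) (a d : 𝓞 L), z * algebraMap (𝓞 L) L d = algebraMap (𝓞 L) L a →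
      ((z : L) : Om) * ((iO L d : ZZ) : Om) = ((iO L a : ZZ) : Om) := by
    intro z a d h
    exact congrArg (fun t : L => (t : Om)) h
  have hmem : ∀ a : 𝓞 L, ((iO L a : ZZ) : Om) ∈ L := fun a => (a : L).2
  by_cases hp : P.comap (iO L) = ⊥
  · obtain ⟨a, d, hd, h⟩ := IsFractionRing.div_surjective (A := 𝓞 L) y
    have hd0 : d ≠ 0 := nonZeroDivisors.ne_zero hd
    refine ⟨iO L a, iO L d, hmem a, hmem d, fun hm => hd0 ?_, hfrac y a d ?_⟩
    · have h1 : d ∈ P.comap (iO L) := hm
      rw [hp] at h1
      exact h1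
    · rw [← h]
      refine div_mul_cancel₀ _ ?_
      intro h0
      exact hd0 (FaithfulSMul.algebraMap_injective (𝓞 L) L (by rw [h0, map_zero]))
  · let w : HeightOneSpectrum (𝓞 L) := ⟨P.comap (iO L), inferInstance, hp⟩
    have h1 : w.valuation L y ≤ 1 := by
      by_contra hcon
      rw [not_le] at hcon
      have hx0 : x ≠ 0 := by
        intro h0
        have h2 : y = 0 := Subtype.ext h0
        rw [h2, map_zero] at hcon
        exact absurd hcon (not_lt.2 bot_le)
      have h2 : w.valuation L y⁻¹ < 1 := by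
        rw [map_inv₀]
        exact inv_lt_one_of_one_lt₀ hcon
      obtain ⟨a, d, hd⟩ := w.exists_primeCompl_mul_eq_of_integer y⁻¹ h2.le
      have h3 : w.valuation L (algebraMap (𝓞 L) L a) < 1 := by
        rw [← hd, map_mul]
        calc w.valuation L y⁻¹ * w.valuation L (algebraMap (𝓞 L) L (d : 𝓞 L))
            ≤ w.valuation L y⁻¹ * 1 := by
              gcongr
              exact w.valuation_le_one (d : 𝓞 L)
          _ < 1 := by rw [mul_one]; exact h2
      have h4 : MP P x⁻¹ := ⟨iO L a, iO L d,
        (HeightOneSpectrum.valuation_lt_one_iff_mem (K := L) w a).1 h3, fun h => d.2 h,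
        hfrac y⁻¹ a d hd⟩
      have h5 := MP.mul_left hxV h4
      rw [mul_inv_cancel₀ hx0] at h5
      exact MP.one_not h5
    obtain ⟨a, d, hd⟩ := w.exists_primeCompl_mul_eq_of_integer y h1
    exact ⟨iO L a, iO L d, hmem a, hmem d, fun h => d.2 h, hfrac y a d hd⟩

end Pool.Agent.DI.F
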