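import Pool.Agent.Lib.DI.F.SpecF
import Pool.Agent.Lib.MuZ.Inst

/-!
# THEOREM DI, Part F, module Gal (helper86): Galois theory of L
-/

set_option autoImplicit false

open scoped Pointwise Topology MatrixGroups
open Filter CongruenceSubgroup

noncomputable section

namespace Pool.Agent.DI.F

open Pool.Agent.MuZ Pool.Agent.DI

namespace GalAux

theorem psi_mul (hUCop : S_UCop) (τ τ' : Gal(Om/ℚ)) (N : ℕ) (a a' : OO) (h : Psi τ N a)
    (h' : Psi τ' N a') : Psi (τ * τ') N (a * a') := by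
  refine ⟨(hUCop.2.1 a a' N).2 ⟨h.1, h'.1⟩, fun v => ?_⟩
  rw [AlgEquiv.mul_apply, AlgEquiv.mul_apply, (h'.2 v).1, (h'.2 v).2, (h.2 (a' * v)).1,
    (h.2 (a' * v)).2, mul_assoc]
  exact ⟨rfl, rfl⟩

/-- Finitely many elements of a subgroup represent all restrictions to a number field. -/
theorem exists_reps (L : IntermediateField ℚ Om) (hL : FiniteDimensional ℚ L)
    (G : Subgroup Gal(Om/ℚ)) : ∃ S : Finset Gal(Om/ℚ), (∀ s ∈ S, s ∈ G) ∧
      (∀ τ ∈ G, ∃ s ∈ S, ∀ x ∈ L, s x = τ x) ∧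
      ∀ s ∈ S, ∀ s' ∈ S, (∀ x ∈ L, s x = s' x) → s = s' := by
  classical
  let q : Gal(Om/ℚ) → (L →ₐ[ℚ] Om) := fun τ => (τ : Om →ₐ[ℚ] Om).comp L.val
  have hq : ∀ (τ : Gal(Om/ℚ)) (x : Om) (hx : x ∈ L), q τ ⟨x, hx⟩ = τ x := fun _ _ _ => rfl
  haveI : Finite (L →ₐ[ℚ] Om) := inferInstance
  obtain ⟨S, hSG, hS⟩ := Set.exists_subset_bijOn (G : Set Gal(Om/ℚ)) q
  have hfin : S.Finite := by
    apply Set.Finite.of_finite_image _ hS.injOn
    exact Set.toFinite _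
  refine ⟨hfin.toFinset, ?_, ?_, ?_⟩
  · intro s hs
    exact hSG ((Set.Finite.mem_toFinset hfin).1 hs)
  · intro τ hτ
    obtain ⟨s, hs, h⟩ := hS.surjOn ⟨τ, hτ, rfl⟩
    refine ⟨s, (Set.Finite.mem_toFinset hfin).2 hs, fun x hx => ?_⟩
    rw [← hq s x hx, ← hq τ x hx, h]
  · intro s hs s' hs' h
    apply hS.injOn ((Set.Finite.mem_toFinset hfin).1 hs) ((Set.Finite.mem_toFinset hfin).1 hs')
    apply AlgHom.ext
    rintro ⟨x, hx⟩
    exact h x hx

end GalAux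

open GalAux in
theorem tGal (hE1 : S_E1) (hE7 : S_E7) (hE8 : S_E8) (hE9 : S_E9) (hUHN : S_UHN)
    (hUCop : S_UCop) : S_Gal := by
  classical
  intro f hf h7
  have hfpos : 0 < f := hf.pos
  obtain ⟨⟨hneg, -, h1, -⟩, hmul, -, hper, -, hcop, -⟩ := hUHN f 0 hf h7
  obtain ⟨hfd, hKL, hfix⟩ := hE8 f (Hf f) hfpos hneg hcop hper hmul
  have hwK : wO ∈ KQ := IntermediateField.mem_adjoin_simple_self ℚ wO
  have key : ∀ τ ∈ GK, ∀ τ' ∈ GK, ∀ a a' : OO, Psi τ f a → Psi τ' f a' →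
      ((∀ x ∈ Lf f, τ x = τ' x) ↔ ∃ h : OO, Hf f h ∧ (f : OO) ∣ a' - h * a) := by
    intro τ hτ τ' hτ' a a' ha ha'
    have hρ : τ⁻¹ * τ' ∈ GK := mul_mem (inv_mem hτ) hτ'
    obtain ⟨b, hb⟩ := hE1.1 _ hρ f hfpos
    have h2 := psi_mul hUCop τ (τ⁻¹ * τ') f a b ha hb
    rw [mul_inv_cancel_left] at h2
    have h3 : (f : OO) ∣ a * b - a' := hE1.2 τ' f _ _ hfpos h2 ha'
    have h4 : (∀ x ∈ Lf f, τ x = τ' x) ↔ Hf f b := by
      rw [← hfix _ hρ b hb]
      constructor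
      · intro h x hx
        have h5 := h x hx
        rw [AlgEquiv.mul_apply, ← h5, ← AlgEquiv.mul_apply, inv_mul_cancel]
        rfl
      · intro h x hx
        have h5 := h x hx
        have h6 : τ' x = (τ * (τ⁻¹ * τ')) x := by rw [mul_inv_cancel_left]
        rw [h6, AlgEquiv.mul_apply, h5]
    rw [h4]
    constructor
    · intro h
      refine ⟨b, h, ?_⟩
      have h5 : a' - b * a = -(a * b - a') := by ring
      rw [h5]
      exact (dvd_neg).2 h3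
    · rintro ⟨h, hh, h5⟩
      have h6 : (f : OO) ∣ (b - h) * a := by
        have h7 : (b - h) * a = (a * b - a') + (a' - h * a) := by ring
        rw [h7]
        exact dvd_add h3 h5
      have h7 : IsCoprime a (f : OO) := (hUCop.1 a f).1 ha.1
      obtain ⟨u, hu⟩ := (h7.symm).dvd_of_dvd_mul_right h6
      have h8 : b = h + f * u := by rw [← hu]; ring
      rw [h8]
      exact hper h u hh
  refine ⟨hfd, hKL hwK, ?_, ?_, ?_, (hE9 f hf h7).1, ?_, psi_mul hUCop, key, ?_⟩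
  · intro τ hτ
    exact (IntermediateField.mem_fixingSubgroup_iff KQ τ).1 hτ wO hwK
  · choose! σ hσ using fun (v : OO) (hv : Cop v f) => hE7 f v hfpos hv
    exact ⟨σ, hσ⟩
  · obtain ⟨S, hS1, hS2, hS3⟩ := exists_reps (Lf f) hfd GK
    exact ⟨S, ⟨hS1, hS2, hS3⟩⟩
  · intro x hx
    have h2 : x ∈ IntermediateField.fixedField KQ.fixingSubgroup := by
      rintro ⟨τ, hτ⟩
      exact hx τ hτ
    rwa [InfiniteGalois.fixedField_fixingSubgroup] at h2
  · intro τ hτ τ' hτ' x hx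
    obtain ⟨a, ha⟩ := hE1.1 τ hτ f hfpos
    obtain ⟨a', ha'⟩ := hE1.1 τ' hτ' f hfpos
    have h2 := (key (τ * τ') (mul_mem hτ hτ') (τ' * τ) (mul_mem hτ' hτ) _ _
      (psi_mul hUCop τ τ' f a a' ha ha') (psi_mul hUCop τ' τ f a' a ha' ha)).2
      ⟨1, h1, by
        have h3 : a' * a - 1 * (a * a') = 0 := by ring
        rw [h3]
        exact dvd_zero _⟩
    exact h2 x hx

end Pool.Agent.DI.F
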