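import Pool.Agent.Lib.DI.F.SpecF

set_option autoImplicit false

/-!
# THEOREM DI, Part F: the functions `G` (F2)
-/

open scoped Pointwise Topology MatrixGroups
open Filter CongruenceSubgroup

noncomputable section

namespace Pool.Agent.DI.F

open Pool.Agent.MuZ Pool.Agent.DI

namespace GpAux

theorem lat_iff (z : ℂ) : Lat z ↔ z ∈ LO.lattice := by
  rw [PeriodPair.mem_lattice]
  constructor
  · rintro ⟨v, rfl⟩
    refine ⟨v.re, v.im, ?_⟩
    rw [toC_apply]
    change (v.re : ℂ) * 1 + v.im * wC = _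
    ring
  · rintro ⟨m, n, h⟩
    refine ⟨⟨m, n⟩, ?_⟩
    rw [← h, toC_apply]
    change (m : ℂ) * 1 + n * wC = m + n * wC
    ring

theorem lat_add {z z' : ℂ} (h : Lat z) (h' : Lat z') : Lat (z + z') := by
  obtain ⟨v, rfl⟩ := h
  obtain ⟨v', rfl⟩ := h'
  exact ⟨v + v', (map_add toC v v').symm⟩

theorem lat_sub {z z' : ℂ} (h : Lat z) (h' : Lat z') : Lat (z - z') := by
  obtain ⟨v, rfl⟩ := h
  obtain ⟨v', rfl⟩ := h'
  exact ⟨v - v', (map_sub toC v v').symm⟩

theorem lat_mul {z : ℂ} (q : OO) (h : Lat z) : Lat (toC q * z) := by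
  obtain ⟨v, rfl⟩ := h
  exact ⟨q * v, (map_mul toC q v).symm⟩

theorem lat_one : Lat 1 := ⟨1, (map_one toC).symm⟩

theorem lat_toC (v : OO) : Lat (toC v) := ⟨v, rfl⟩

theorem isOpen_notLat : IsOpen {z : ℂ | ¬ Lat z} := by
  have h : {z : ℂ | ¬ Lat z} = (LO.lattice : Set ℂ)ᶜ := by
    ext z
    simp only [Set.mem_ofPred_eq, Set.mem_compl_iff, SetLike.mem_coe, lat_iff]
  rw [h]
  exact LO.isClosed_lattice.isOpen_compl

theorem mulO (x y a b : ℤ) : (⟨x, y⟩ : OO) * ⟨a, b⟩ = ⟨x * a + -2 * y * b, x * b + y * a + 1 * y * b⟩ := by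
  apply QuadraticAlgebra.ext
  · exact QuadraticAlgebra.re_mul _ _
  · exact QuadraticAlgebra.im_mul _ _

theorem toC_pO : toC pO = wC := by
  rw [toC_apply]
  change ((0 : ℤ) : ℂ) + ((1 : ℤ) : ℂ) * wC = wC
  push_cast
  ring

theorem toC_pbO : toC pbO = wbC := by
  rw [toC_apply]
  change ((1 : ℤ) : ℂ) + ((-1 : ℤ) : ℂ) * wC = wbC
  unfold wbC
  push_cast
  ring

theorem basic (p pb : ℂ) (h : PP p pb) :
    pb = 1 - p ∧ p ^ 2 = p - 2 ∧ ∃ q qb : OO, toC q = p ∧ toC qb = pb ∧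
      ∀ v : OO, (∃ v', v = q * v') ∨ ∃ v', v = 1 + q * v' := by
  rcases h with ⟨h1, h2⟩ | ⟨h1, h2⟩
  · refine ⟨by rw [h1, h2]; rfl, by rw [h1]; exact wC_sq, pO, pbO, by rw [h1, toC_pO],
      by rw [h2, toC_pbO], ?_⟩
    rintro ⟨a, b⟩
    rcases Int.even_or_odd' a with ⟨k, hk | hk⟩
    · left
      refine ⟨⟨b + k, -k⟩, ?_⟩
      change (⟨a, b⟩ : OO) = (⟨0, 1⟩ : OO) * ⟨b + k, -k⟩
      rw [mulO, hk]
      apply QuadraticAlgebra.ext
      · change 2 * k = 0 * (b + k) + -2 * 1 * -k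
        ring
      · change b = 0 * -k + 1 * (b + k) + 1 * 1 * -k
        ring
    · right
      refine ⟨⟨b + k, -k⟩, ?_⟩
      change (⟨a, b⟩ : OO) = ⟨1, 0⟩ + (⟨0, 1⟩ : OO) * ⟨b + k, -k⟩
      rw [mulO, hk]
      apply QuadraticAlgebra.ext
      · change 2 * k + 1 = 1 + (0 * (b + k) + -2 * 1 * -k)
        ring
      · change b = 0 + (0 * -k + 1 * (b + k) + 1 * 1 * -k)
        ring
  · refine ⟨?_, ?_, pbO, pO, by rw [h1, toC_pbO], by rw [h2, toC_pO], ?_⟩
    · rw [h1, h2]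
      unfold wbC
      ring
    · rw [h1]
      unfold wbC
      linear_combination wC_sq
    rintro ⟨a, b⟩
    rcases Int.even_or_odd' (a + b) with ⟨k, hk | hk⟩
    · left
      refine ⟨⟨-b, k⟩, ?_⟩
      change (⟨a, b⟩ : OO) = (⟨1, -1⟩ : OO) * ⟨-b, k⟩
      rw [mulO]
      apply QuadraticAlgebra.ext
      · change a = 1 * -b + -2 * -1 * k
        linarith
      · change b = 1 * k + -1 * -b + 1 * -1 * k
        ring
    · right
      refine ⟨⟨-b, k⟩, ?_⟩
      change (⟨a, b⟩ : OO) = ⟨1, 0⟩ + (⟨1, -1⟩ : OO) * ⟨-b, k⟩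
      rw [mulO]
      apply QuadraticAlgebra.ext
      · change a = 1 + (1 * -b + -2 * -1 * k)
        linarith
      · change b = 0 + (1 * k + -1 * -b + 1 * -1 * k)
        ring

theorem ne_zero {p pb : ℂ} (h1 : pb = 1 - p) (h2 : p ^ 2 = p - 2) : p ≠ 0 ∧ pb ≠ 0 := by
  have h3 : p * pb = 2 := by rw [h1]; linear_combination -h2
  constructor
  · intro h
    rw [h, zero_mul] at h3
    norm_num at h3
  · intro h
    rw [h, mul_zero] at h3
    norm_num at h3

theorem A_eq {p pb X : ℂ} (h1 : pb = 1 - p) (h2 : p ^ 2 = p - 2) :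
    p ^ 2 * X - pb = (p - 2) * X - (1 - p) := by
  rw [h1, h2]

theorem pb_sq {p pb : ℂ} (h1 : pb = 1 - p) (h2 : p ^ 2 = p - 2) : pb ^ 2 = -1 - p := by
  rw [h1]
  linear_combination h2

theorem A_div {p pb X : ℂ} (hp : p ≠ 0) : X - pb / p ^ 2 = (p ^ 2 * X - pb) / p ^ 2 := by
  field_simp

/-- The value of `Gp` without the division. -/
theorem Gp_eq {p pb : ℂ} (hp : p ≠ 0) (z : ℂ) :
    Gp p pb z = p * (2 * YC (z / p) + XC (z / p)) / (2 * (p ^ 2 * XC (z / p) - pb)) := by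
  unfold Gp
  rw [A_div hp]
  have e : 2 * p * ((p ^ 2 * XC (z / p) - pb) / p ^ 2) = 2 * (p ^ 2 * XC (z / p) - pb) / p := by
    field_simp
  rw [e, div_div_eq_mul_div]
  ring

/-- The first statement. -/
theorem first (hB1 : S_B1) (hB6 : S_B6) (p pb : ℂ) (h : PP p pb) (z : ℂ) (hz : ¬ Lat z) :
    Gp p pb z ^ 2 = XC z - p / pb ^ 2 := by
  obtain ⟨h1, h2, q, qb, hq, hqb, -⟩ := basic p pb h
  obtain ⟨hp, hpb⟩ := ne_zero h1 h2
  have e : p * (z / p) = z := by field_simp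
  have hz' : ¬ Lat (z / p) := by
    intro h3
    apply hz
    rw [← e, ← hq]
    rw [← hq] at h3
    exact lat_mul q h3
  obtain ⟨h4, h5, -⟩ := hB6 p pb h (z / p) hz' (by rw [e]; exact hz)
  rw [e] at h5
  have h6 := hB1 (z / p) hz'
  rw [Gp_eq hp]
  generalize XC (z / p) = X at *
  generalize YC (z / p) = Y at *
  have hpp : p * pb = 2 := by rw [h1]; linear_combination -h2
  have hN : (2 * Y + X) ^ 2 = 4 * X ^ 3 - 3 * X ^ 2 - 8 * X - 4 := by
    linear_combination 4 * h6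
  have hin : pb ^ 2 * (X ^ 2 - p) - (p ^ 2 * X - pb) * p = -(1 + p) * X ^ 2 + (p + 2) * X + 2 * p := by
    rw [pb_sq h1 h2, A_eq h1 h2]
    linear_combination (-X) * h2
  have hpr : (p ^ 2 * X - pb) * (pb ^ 2 * (X ^ 2 - p) - (p ^ 2 * X - pb) * p) = (2 * Y + X) ^ 2 := by
    rw [hin, hN, A_eq h1 h2]
    linear_combination (-X ^ 3 + 3 * X + 2) * h2
  have hpb2 : pb ^ 2 ≠ 0 := pow_ne_zero 2 hpb
  have hA2 : (2 * (p ^ 2 * X - pb)) ^ 2 ≠ 0 := pow_ne_zero 2 (mul_ne_zero two_ne_zero h4)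
  rw [div_pow, div_eq_iff hA2, mul_pow, ← hpr]
  have e5 : p / pb ^ 2 = p ^ 3 / 4 := by
    rw [div_eq_div_iff hpb2 (by norm_num)]
    linear_combination (-p) * (p * pb + 2) * hpp
  rw [e5]
  have e6 : p ^ 2 * pb ^ 2 = 4 := by
    linear_combination (p * pb + 2) * hpp
  linear_combination ((p ^ 2 * X - pb) * (X ^ 2 - p)) * e6 - 4 * (p ^ 2 * X - pb) * h5

/-- The second statement. -/
theorem second (hB2 : S_B2) (p pb : ℂ) (h : PP p pb) (z : ℂ) (v v' : OO)
    (hv : toC v = p * toC v') : Gp p pb (z + toC v) = Gp p pb z := by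
  obtain ⟨h1, h2, -⟩ := basic p pb h
  obtain ⟨hp, -⟩ := ne_zero h1 h2
  have e : (z + toC v) / p = z / p + toC v' := by
    rw [hv]
    field_simp
  unfold Gp
  rw [e, (hB2.1 (z / p) v').1, (hB2.1 (z / p) v').2.1]

/-- The numerator and the denominator at `w + 1 / p`. -/
theorem shift (hB0 : S_B0) (hB7 : S_B7) (hB14 : S_B14) (p pb : ℂ) (h : PP p pb) (w : ℂ)
    (hw : ¬ Lat (p * w)) :
    (2 * YC (w + 1 / p) + XC (w + 1 / p)) / (XC (w + 1 / p) - pb / p ^ 2) =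
      -((2 * YC w + XC w) / (XC w - pb / p ^ 2)) := by
  obtain ⟨h1, h2, q, qb, hq, hqb, -⟩ := basic p pb h
  obtain ⟨hp, hpb⟩ := ne_zero h1 h2
  have hnl : ∀ u : ℂ, ¬ Lat (p * u) → ¬ Lat u := by
    intro u hu h3
    apply hu
    rw [← hq]
    exact lat_mul q h3
  have hs : ¬ Lat (p * (w + 1 / p)) := by
    intro h3
    apply hw
    have e : p * w = p * (w + 1 / p) - 1 := by
      field_simp
      ring
    rw [e]
    exact lat_sub h3 lat_one
  have hwl := hnl w hw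
  have hsl := hnl _ hs
  have hp2 : p ^ 2 ≠ 0 := pow_ne_zero 2 hp
  -- the product of the two values is constant
  have hc : ∀ u : ℂ, ¬ Lat (p * u) →
      (XC (u + 1 / p) - pb / p ^ 2) * (XC u - pb / p ^ 2) = -7 / p ^ 4 := by
    intro u hu
    have h3 := (hB7.2 p pb h).2 u (hnl u hu) hu
    have e1 : (XC (u + 1 / p) - pb / p ^ 2) * (XC u - pb / p ^ 2) =
        (XC (u + 1 / p) * (p ^ 2 * XC u - pb) - pb * XC u + pb ^ 2 / p ^ 2) / p ^ 2 := by
      field_simp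
      ring
    rw [e1, h3, div_eq_div_iff hp2 (pow_ne_zero 4 hp)]
    have e2 : (pb * XC u - p ^ 3 - pb * XC u + pb ^ 2 / p ^ 2) * p ^ 4 =
        (pb ^ 2 - p ^ 5) * p ^ 2 := by
      field_simp
      ring
    rw [e2, h1]
    linear_combination (-(p ^ 2) * (p ^ 3 + p ^ 2 - p - 4)) * h2
  have hO : IsOpen {u : ℂ | ¬ Lat (p * u)} :=
    isOpen_notLat.preimage (continuous_const.mul continuous_id)
  have hev : (fun u => (XC (u + 1 / p) - pb / p ^ 2) * (XC u - pb / p ^ 2)) =ᶠ[𝓝 w]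
      fun _ => -7 / p ^ 4 := by
    filter_upwards [hO.mem_nhds hw] with u hu
    exact hc u hu
  have hd0 : HasDerivAt (fun u => (XC (u + 1 / p) - pb / p ^ 2) * (XC u - pb / p ^ 2)) 0 w :=
    (hasDerivAt_const w (-7 / p ^ 4)).congr_of_eventuallyEq hev
  have hd1 : HasDerivAt (fun u => XC (u + 1 / p) - pb / p ^ 2)
      (OmC * (2 * YC (w + 1 / p) + XC (w + 1 / p))) w :=
    ((hB14 _ hsl).2.2.comp_add_const w (1 / p)).sub_const _
  have hd2 : HasDerivAt (fun u => XC u - pb / p ^ 2) (OmC * (2 * YC w + XC w)) w :=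
    (hB14 _ hwl).2.2.sub_const _
  have h4 := hd0.unique (hd1.mul hd2)
  have h5 := hc w hw
  have h6 : (-7 : ℂ) / p ^ 4 ≠ 0 := div_ne_zero (by norm_num) (pow_ne_zero 4 hp)
  have h7 : XC (w + 1 / p) - pb / p ^ 2 ≠ 0 := by
    intro h8
    rw [h8, zero_mul] at h5
    exact h6 h5.symm
  have h8 : XC w - pb / p ^ 2 ≠ 0 := by
    intro h9
    rw [h9, mul_zero] at h5
    exact h6 h5.symm
  have h9 : (2 * YC (w + 1 / p) + XC (w + 1 / p)) * (XC w - pb / p ^ 2) +
      (XC (w + 1 / p) - pb / p ^ 2) * (2 * YC w + XC w) = 0 := by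
    have h10 : OmC * ((2 * YC (w + 1 / p) + XC (w + 1 / p)) * (XC w - pb / p ^ 2) +
      (XC (w + 1 / p) - pb / p ^ 2) * (2 * YC w + XC w)) = 0 := by
      linear_combination -h4
    exact (mul_eq_zero.1 h10).resolve_left hB0.1
  rw [← neg_div, div_eq_div_iff h7 h8]
  linear_combination h9

/-- `2 Y + X` vanishes at the points `w` with `p w` in the lattice. -/
theorem num_zero (hB0 : S_B0) (hB3 : S_B3) (p pb : ℂ) (h : PP p pb) (w : ℂ) (hw : Lat (p * w)) :
    2 * YC w + XC w = 0 := by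
  obtain ⟨h1, h2, q, qb, hq, hqb, -⟩ := basic p pb h
  by_cases hl : Lat w
  · rw [(hB0.2 w hl).1, (hB0.2 w hl).2.1]
    norm_num
  · rw [hB3.2.1 w hl]
    have e : 2 * w = toC qb * (p * w) := by
      rw [hqb, h1]
      linear_combination w * h2
    rw [e]
    exact lat_mul qb hw

theorem split (a b c : ℂ) : a / (c * b) = a / b / c := by
  rw [mul_comm, div_div]

/-- The third statement. -/
theorem third (hB0 : S_B0) (hB2 : S_B2) (hB3 : S_B3) (hB7 : S_B7) (hB14 : S_B14) (p pb : ℂ)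
    (h : PP p pb) (z : ℂ) (v : OO) (hv : ∀ v' : OO, toC v ≠ p * toC v') :
    Gp p pb (z + toC v) = -Gp p pb z := by
  obtain ⟨h1, h2, q, qb, hq, hqb, hdec⟩ := basic p pb h
  obtain ⟨hp, hpb⟩ := ne_zero h1 h2
  obtain ⟨v', hv'⟩ : ∃ v', v = 1 + q * v' := by
    rcases hdec v with ⟨v', hv'⟩ | h3
    · exact absurd (by rw [hv', map_mul, hq]) (hv v')
    · exact h3
  have e : (z + toC v) / p = z / p + 1 / p + toC v' := by
    rw [hv', map_add, map_one, map_mul, hq]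
    field_simp
    ring
  have e0 : p * (z / p) = z := by field_simp
  have e1 : p * (z / p + 1 / p) = z + 1 := by field_simp
  have hG : Gp p pb (z + toC v) = (2 * YC (z / p + 1 / p) + XC (z / p + 1 / p)) /
      (2 * p * (XC (z / p + 1 / p) - pb / p ^ 2)) := by
    unfold Gp
    rw [e, (hB2.1 (z / p + 1 / p) v').1, (hB2.1 (z / p + 1 / p) v').2.1]
  rw [hG]
  unfold Gp
  by_cases hz : Lat z
  · rw [num_zero hB0 hB3 p pb h (z / p) (by rw [e0]; exact hz),
      num_zero hB0 hB3 p pb h (z / p + 1 / p) (by rw [e1]; exact lat_add hz lat_one)]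
    simp
  · have h3 := shift hB0 hB7 hB14 p pb h (z / p) (by rw [e0]; exact hz)
    rw [split _ (XC (z / p + 1 / p) - pb / p ^ 2) (2 * p),
      split _ (XC (z / p) - pb / p ^ 2) (2 * p), h3, neg_div]

theorem mero_XC : Meromorphic XC := by
  intro x
  have h := LO.meromorphic_weierstrassP x
  exact ((h.div (MeromorphicAt.const (OmC ^ 2) x)).add (MeromorphicAt.const (1 / 4) x))

theorem mero_YC : Meromorphic YC := by
  intro x
  have h := LO.meromorphic_derivWeierstrassP x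
  exact (((h.div (MeromorphicAt.const (OmC ^ 3) x)).sub (mero_XC x)).div (MeromorphicAt.const 2 x))

theorem fourth (p pb : ℂ) : Meromorphic (Gp p pb) := by
  intro x
  have hdiv : AnalyticAt ℂ (fun z : ℂ => z / p) x := by
    simp only [div_eq_mul_inv]
    exact analyticAt_id.mul analyticAt_const
  have hX : MeromorphicAt (fun z => XC (z / p)) x :=
    MeromorphicAt.comp_analyticAt (f := XC) (g := fun z => z / p) (mero_XC (x / p)) hdiv
  have hY : MeromorphicAt (fun z => YC (z / p)) x :=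
    MeromorphicAt.comp_analyticAt (f := YC) (g := fun z => z / p) (mero_YC (x / p)) hdiv
  exact (((MeromorphicAt.const 2 x).mul hY).add hX).div
    ((MeromorphicAt.const (2 * p) x).mul (hX.sub (MeromorphicAt.const (pb / p ^ 2) x)))

end GpAux

theorem tGp (hB0 : S_B0) (hB1 : S_B1) (hB2 : S_B2) (hB3 : S_B3) (hB6 : S_B6) (hB7 : S_B7)
    (hB14 : S_B14) : S_Gp := by
  intro p pb h
  exact ⟨GpAux.first hB1 hB6 p pb h, GpAux.second hB2 p pb h,
    GpAux.third hB0 hB2 hB3 hB7 hB14 p pb h, GpAux.fourth p pb⟩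

end Pool.Agent.DI.F
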