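import Pool.Agent.Lib.DI.F.SpecF

set_option autoImplicit false

open scoped Pointwise

noncomputable section

namespace Pool.Agent.DI.F

open Pool.Agent.MuZ Pool.Agent.DI

namespace KPAux

variable {P : Ideal ZZ}

theorem toO_eq (v : OO) : toO v = (v.re : Om) + (v.im : Om) * wO := rfl

theorem toO_pO : toO pO = wO := by
  rw [toO_eq]
  simp [pO]

theorem wO_ne : wO ≠ 0 := by
  intro h
  have h1 := wO_sq
  rw [h] at h1
  norm_num at h1

theorem two_eq : (2 : Om) = wO * (1 - wO) := by
  linear_combination wO_sq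

theorem mp2 (hP : P.IsPrime) (hw : MP P wO) : MP P (2 : Om) := by
  rw [two_eq]
  exact mp_mul_vp hP hw (vp_sub hP (vp_one hP) (mp_vp hw))

theorem two_mem (hP : P.IsPrime) (hw : MP P wO) : (2 : ZZ) ∈ P := (mp_coe hP 2).1 (mp2 hP hw)

theorem mp_even (hP : P.IsPrime) (hw : MP P wO) {n : ℤ} (hn : Even n) : MP P (n : Om) := by
  obtain ⟨k, rfl⟩ := hn
  have h : ((k + k : ℤ) : Om) = 2 * (k : Om) := by
    push_cast
    ring
  rw [h]
  exact mp_mul_vp hP (mp2 hP hw) (vp_intCast hP k)

theorem mp_toO_sub (hP : P.IsPrime) (hw : MP P wO) (v : OO) : MP P (toO v - (v.re : Om)) := by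
  have h : toO v - (v.re : Om) = (v.im : Om) * wO := by
    rw [toO_eq]
    ring
  rw [h]
  exact vp_mul_mp hP (vp_intCast hP _) hw

theorem vp_toO (hP : P.IsPrime) (hw : MP P wO) (v : OO) : VP P (toO v) := by
  rw [toO_eq]
  exact vp_add hP (vp_intCast hP _) (vp_mul hP (vp_intCast hP _) (mp_vp hw))

theorem part1 (hP : P.IsPrime) (hw : MP P wO) (v : OO) : MP P (toO v) ↔ pO ∣ v := by
  constructor
  · intro h
    have h1 : MP P (v.re : Om) := by
      have h2 := mp_sub hP h (mp_toO_sub hP hw v)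
      rwa [sub_sub_cancel] at h2
    have h2 : Even v.re := by
      by_contra h3
      rw [Int.not_even_iff_odd] at h3
      exact (up_odd hP (two_mem hP hw) h3).2 h1
    obtain ⟨k, hk⟩ := h2
    refine ⟨⟨v.im + k, -k⟩, ?_⟩
    apply QuadraticAlgebra.ext
    · rw [QuadraticAlgebra.re_mul, hk]
      change k + k = 0 * (v.im + k) + -2 * 1 * -k
      ring
    · rw [QuadraticAlgebra.im_mul]
      change v.im = 0 * -k + 1 * (v.im + k) + 1 * 1 * -k
      ring
  · rintro ⟨u, rfl⟩
    rw [map_mul, toO_pO]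
    exact mp_mul_vp hP hw (vp_toO hP hw u)

/-- elements of `KQ` are `a + b w` -/
theorem kq_form (x : Om) (hx : x ∈ KQ) : ∃ a b : ℚ, x = (a : Om) + (b : Om) * wO := by
  have hint : IsIntegral ℚ wO := (isAlgOm.isAlgebraic wO).isIntegral
  have h1 : x ∈ Algebra.adjoin ℚ {wO} := by
    rw [← IntermediateField.adjoin_simple_toSubalgebra_of_isAlgebraic hint.isAlgebraic]
    exact hx
  clear hx
  induction h1 using Algebra.adjoin_induction with
  | mem y hy =>
      rw [Set.mem_singleton_iff] at hy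
      exact ⟨0, 1, by rw [hy]; simp⟩
  | algebraMap r => exact ⟨r, 0, by simp⟩
  | add y z hy hz ihy ihz =>
      obtain ⟨a, b, h⟩ := ihy
      obtain ⟨a', b', h'⟩ := ihz
      refine ⟨a + a', b + b', ?_⟩
      rw [h, h']
      push_cast
      ring
  | mul y z hy hz ihy ihz =>
      obtain ⟨a, b, h⟩ := ihy
      obtain ⟨a', b', h'⟩ := ihz
      refine ⟨a * a' - 2 * b * b', a * b' + b * a' + b * b', ?_⟩
      rw [h, h']
      push_cast
      linear_combination ((b : Om) * b') * wO_sq

theorem kq_den (x : Om) (hx : x ∈ KQ) : ∃ (N : ℕ) (v : OO), 0 < N ∧ x * (N : Om) = toO v := by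
  obtain ⟨a, b, h⟩ := kq_form x hx
  refine ⟨a.den * b.den, ⟨a.num * b.den, b.num * a.den⟩, Nat.mul_pos a.pos b.pos, ?_⟩
  have ha : (a : Om) * (a.den : Om) = (a.num : Om) := by
    have h1 := Rat.mul_den_eq_num a
    exact_mod_cast congrArg (fun r : ℚ => (r : Om)) h1
  have hb : (b : Om) * (b.den : Om) = (b.num : Om) := by
    have h1 := Rat.mul_den_eq_num b
    exact_mod_cast congrArg (fun r : ℚ => (r : Om)) h1
  rw [toO_eq, h]
  push_cast
  linear_combination (b.den : Om) * ha + (a.den : Om) * wO * hb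

theorem one_mul_cl (hP : P.IsPrime) {a b : Om} (ha : MP P (a - 1)) (hb : MP P (b - 1)) :
    MP P (a * b - 1) := by
  have h1 : a * b - 1 = (a - 1) * (b - 1) + (a - 1) + (b - 1) := by ring
  rw [h1]
  exact mp_add hP (mp_add hP (mp_mul_vp hP ha (mp_vp hb)) ha) hb

theorem one_pow_cl (hP : P.IsPrime) {a : Om} (ha : MP P (a - 1)) (k : ℕ) : MP P (a ^ k - 1) := by
  induction k with
  | zero =>
      rw [pow_zero, sub_self]
      exact mp_zero hP
  | succ k ih =>
      rw [pow_succ]
      exact one_mul_cl hP ih ha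

theorem one_int (hP : P.IsPrime) (hw : MP P wO) {n : ℤ} (hn : Odd n) : MP P ((n : Om) - 1) := by
  obtain ⟨k, rfl⟩ := hn
  have h1 : ((2 * k + 1 : ℤ) : Om) - 1 = 2 * (k : Om) := by
    push_cast
    ring
  rw [h1]
  exact mp_mul_vp hP (mp2 hP hw) (vp_intCast hP k)

theorem desc (hP : P.IsPrime) (hw : MP P wO) (x c : Om) (hx : VP P x) (hc : MP P (c - 1)) :
    ∀ (k : ℕ) (u : OO), x * wO ^ k * c = toO u → MP P x ∨ MP P (x - 1) := by
  have hcv : VP P c := by
    have h1 := vp_add hP (mp_vp hc) (vp_one hP)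
    rwa [sub_add_cancel] at h1
  intro k
  induction k with
  | zero =>
      intro u h
      rw [pow_zero, mul_one] at h
      have h1 := mp_toO_sub hP hw u
      rcases Int.even_or_odd u.re with he | ho
      · left
        have h2 := mp_add hP h1 (mp_even hP hw he)
        rw [sub_add_cancel, ← h] at h2
        rcases mp_or hP hx hcv h2 with h3 | h3
        · exact h3
        · exfalso
          have h4 := mp_sub hP h3 hc
          rw [sub_sub_cancel] at h4
          exact not_mp_one hP h4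
      · right
        have h2 := mp_add hP h1 (one_int hP hw ho)
        have h3 : toO u - (u.re : Om) + ((u.re : Om) - 1) = x * c - 1 := by
          rw [h]
          ring
        rw [h3] at h2
        have h4 := mp_sub hP h2 (vp_mul_mp hP hx hc)
        have h5 : x * c - 1 - x * (c - 1) = x - 1 := by ring
        rwa [h5] at h4
  | succ k ih =>
      intro u h
      have h1 : MP P (toO u) := by
        rw [← h]
        have h2 : x * wO ^ (k + 1) * c = wO * (x * wO ^ k * c) := by ring
        rw [h2]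
        exact mp_mul_vp hP hw (vp_mul hP (vp_mul hP hx (vp_pow hP (mp_vp hw) k)) hcv)
      obtain ⟨u', rfl⟩ := (part1 hP hw u).1 h1
      apply ih u'
      apply mul_left_cancel₀ wO_ne
      rw [map_mul, toO_pO] at h
      rw [← h]
      ring

theorem part2 (hP : P.IsPrime) (hw : MP P wO) (x : Om) (hx : x ∈ KQ) (hv : VP P x) :
    MP P x ∨ MP P (x - 1) := by
  obtain ⟨N, v, hN, h⟩ := kq_den x hx
  obtain ⟨k, n, hn, hk⟩ := Nat.exists_eq_two_pow_mul_odd hN.ne'
  have h1 : MP P ((1 - wO) - 1) := by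
    have h2 : (1 - wO) - 1 = -wO := by ring
    rw [h2]
    exact mp_neg hP hw
  have h2 : MP P ((n : Om) - 1) := by
    have h3 := one_int hP hw (n := (n : ℤ)) (by exact_mod_cast hn)
    rwa [Int.cast_natCast] at h3
  refine desc hP hw x ((1 - wO) ^ k * n) hv (one_mul_cl hP (one_pow_cl hP h1 k) h2) k v ?_
  rw [← h, hk]
  push_cast
  rw [two_eq, mul_pow]
  ring

theorem rat_den (hP : P.IsPrime) (hw : MP P wO) (q : ℚ) (h : VP P (q : Om)) : Odd q.den := by
  by_contra hc
  rw [Nat.not_odd_iff_even] at hc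
  have h1 : (q : Om) * (q.den : Om) = (q.num : Om) := by
    exact_mod_cast congrArg (fun r : ℚ => (r : Om)) (Rat.mul_den_eq_num q)
  have h2 : MP P (q.den : Om) := by
    have h3 := mp_even hP hw (n := (q.den : ℤ)) (by exact_mod_cast hc)
    rwa [Int.cast_natCast] at h3
  have h3 := vp_mul_mp hP h h2
  rw [h1] at h3
  have h4 : Odd q.num := by
    rw [← Int.not_even_iff_odd]
    intro he
    have h5 : 2 ∣ q.num.natAbs := Int.natAbs_dvd_natAbs.2 he.two_dvd
    have h6 : 2 ∣ q.den := hc.two_dvd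
    have h7 := Nat.dvd_gcd h5 h6
    rw [q.reduced] at h7
    omega
  exact (up_odd hP (two_mem hP hw) h4).2 h3

theorem part3 (hP : P.IsPrime) (h0 : P ≠ ⊥) (hw : MP P wO) (c : Gal(Om/ℚ)) (hc : c wO = 1 - wO)
    (x : Om) (hx : x ∈ KQ) (hv : VP P x) (hv' : VP P (c x)) :
    ∃ n : ℕ, Odd n ∧ ∃ v : OO, (n : Om) * x = toO v := by
  obtain ⟨a, b, h⟩ := kq_form x hx
  have hcx : c x = (a : Om) + (b : Om) * (1 - wO) := by
    rw [h, map_add, map_mul, hc, map_ratCast, map_ratCast]
  have h2 := two_mem hP hw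
  have hb : VP P (b : Om) := by
    have h3 := vp_sub hP hv hv'
    have h4 := vp_mul hP h3 h3
    have h7 : UP P ((-7 : ℤ) : Om) := up_odd hP h2 (by decide)
    have h5 := vp_mul hP h4 (up_inv hP h7).1
    have h70 := up_ne_zero hP h7
    have h6 : (x - c x) * (x - c x) * ((-7 : ℤ) : Om)⁻¹ = (b : Om) * b := by
      rw [hcx, h]
      field_simp
      push_cast
      linear_combination (4 * (b : Om) ^ 2) * wO_sq
    rw [h6] at h5
    by_cases hb0 : (b : Om) = 0
    · rw [hb0]
      exact vp_zero hP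
    by_contra h8
    have h9 := (mp_inv_iff hP h0 hb0).2 h8
    have h10 := vp_mul hP h5 (mp_vp h9)
    rw [mul_assoc, mul_inv_cancel₀ hb0, mul_one] at h10
    exact h8 h10
  have ha : VP P (a : Om) := by
    have h3 := vp_sub hP hv (vp_mul hP hb (mp_vp hw))
    rwa [h, add_sub_cancel_right] at h3
  have hda := rat_den hP hw a ha
  have hdb := rat_den hP hw b hb
  refine ⟨a.den * b.den, hda.mul hdb, ⟨a.num * b.den, b.num * a.den⟩, ?_⟩
  have ha : (a : Om) * (a.den : Om) = (a.num : Om) := by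
    exact_mod_cast congrArg (fun r : ℚ => (r : Om)) (Rat.mul_den_eq_num a)
  have hb : (b : Om) * (b.den : Om) = (b.num : Om) := by
    exact_mod_cast congrArg (fun r : ℚ => (r : Om)) (Rat.mul_den_eq_num b)
  rw [toO_eq, h]
  push_cast
  linear_combination (b.den : Om) * ha + (a.den : Om) * wO * hb

end KPAux

/-- The field `K` at the primes above `2`. -/
theorem tKP (hCc : S_Cc) : S_KP := by
  intro P hAb
  obtain ⟨hP, h0, hw⟩ := hAb
  refine ⟨fun v => KPAux.part1 hP hw v, fun x hx hv => KPAux.part2 hP hw x hx hv, ?_⟩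
  intro c hc x hx hv hv'
  exact KPAux.part3 hP h0 hw c (hCc c hc).1 x hx hv hv'

end Pool.Agent.DI.F
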