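import Pool.Agent.Lib.DI.F.SpecF

set_option autoImplicit false

/-!
# THEOREM DI, Part F: the functions `kb`
-/

open scoped Pointwise

noncomputable section

namespace Pool.Agent.DI.F

open Pool.Agent.MuZ Pool.Agent.DI

namespace KbAux

theorem hf_neg {f : ℕ} (hUHN : S_UHN) (hf : Odd f) (h7 : 7 ∣ f) {h : OO} (hh : Hf f h) :
    Hf f (-h) := by
  have h1 := hUHN f 0 hf h7
  have h2 := h1.2.1 (-1) h h1.1.1 hh
  rwa [neg_one_mul] at h2

/-- If `u = h v` modulo `f` with `h` in `H_f`, then `σ u` and `σ v` agree on `L`. -/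
theorem agree {f : ℕ} {σ : OO → Gal(Om/ℚ)} (hGal : S_Gal) (hUHN : S_UHN) (hf : Odd f) (h7 : 7 ∣ f)
    (hσ : FH.IsSig f σ) {u v h : OO} (hu : Cop u f) (hv : Cop v f) (hh : Hf f h)
    (hd : (f : OO) ∣ u - h * v) : ∀ x ∈ Lf f, σ u x = σ v x := by
  have hG := (hGal f hf h7).2.2.2.2.2.2.2.2.1
  obtain ⟨hu1, hu2⟩ := hσ u hu
  obtain ⟨hv1, hv2⟩ := hσ v hv
  have hn := hf_neg hUHN hf h7 hh
  intro x hx
  refine Eq.symm ?_
  rcases hu2 with hu2 | hu2
  · rcases hv2 with hv2 | hv2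
    · exact (hG (σ v) hv1 (σ u) hu1 v u hv2 hu2).2 ⟨h, hh, hd⟩ x hx
    · refine (hG (σ v) hv1 (σ u) hu1 (-v) u hv2 hu2).2 ⟨-h, hn, ?_⟩ x hx
      rwa [neg_mul_neg]
  · rcases hv2 with hv2 | hv2
    · refine (hG (σ v) hv1 (σ u) hu1 v (-u) hv2 hu2).2 ⟨-h, hn, ?_⟩ x hx
      have h1 : -u - -h * v = -(u - h * v) := by ring
      rw [h1]
      exact (dvd_neg).2 hd
    · refine (hG (σ v) hv1 (σ u) hu1 (-v) (-u) hv2 hu2).2 ⟨h, hh, ?_⟩ x hx
      have h1 : -u - h * -v = -(u - h * v) := by ring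
      rw [h1]
      exact (dvd_neg).2 hd

end KbAux

theorem tKb (hGal : S_Gal) (hUHN : S_UHN) (hUCop : S_UCop) (hUEps : S_UEps) : S_Kb := by
  classical
  intro f σ β hf h7 hσ hβ
  have hH := hUHN f 0 hf h7
  have hper : ∀ v u : OO, kb f σ β (v + f * u) = kb f σ β v := by
    intro v u
    have hc := hUCop.2.2.1 v u f
    unfold kb
    by_cases hv : Cop v f
    · rw [if_pos hv, if_pos (hc.2 hv)]
      refine KbAux.agree hGal hUHN hf h7 hσ (hc.2 hv) hv hH.1.2.2.1 ?_ β hβ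
      rw [one_mul, add_sub_cancel_left]
      exact dvd_mul_right _ _
    · rw [if_neg hv, if_neg (fun h => hv (hc.1 h))]
  have hmul : ∀ v h : OO, Hf f h → kb f σ β (h * v) = kb f σ β v := by
    intro v h hh
    have hc := hUCop.2.1 h v f
    unfold kb
    by_cases hv : Cop v f
    · have h1 : Cop (h * v) f := hc.2 ⟨hh.1, hv⟩
      rw [if_pos hv, if_pos h1]
      refine KbAux.agree hGal hUHN hf h7 hσ h1 hv hh ?_ β hβ
      rw [sub_self]
      exact dvd_zero _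
    · rw [if_neg hv, if_neg (fun h => hv (hc.1 h).2)]
  have hneg : ∀ v : OO, kb f σ β (-v) = kb f σ β v := by
    intro v
    have h1 := hmul v (-1) hH.1.1
    rwa [neg_one_mul] at h1
  refine ⟨hper, hmul, fun v hv => ?_, hneg, ?_, fun v => ?_, ?_⟩
  · unfold kb
    rw [if_neg hv]
  · have hc : Cop 1 f := (hH.1.2.2.1).1
    unfold kb
    rw [if_pos hc]
    obtain ⟨h1, h2⟩ := hσ 1 hc
    rcases h2 with h2 | h2
    · exact hβ (σ 1) h1 1 h2 hH.1.2.2.1
    · exact hβ (σ 1) h1 (-1) h2 hH.1.1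
  · unfold kb
    split_ifs with hv
    · exact (hGal f hf h7).2.2.2.2.2.1 (σ v) β hβ
    · exact zero_mem _
  · constructor
    · intro v u
      obtain ⟨k, hk⟩ := h7
      have h1 : eps (v + f * u) = eps v := by
        have h2 := hUEps.2.1 v (k * u)
        rw [hk]
        push_cast
        rwa [← mul_assoc] at h2
      rw [h1, hper]
    · intro v
      rw [hUEps.2.2.1, hneg]
      push_cast
      ring

end Pool.Agent.DI.F
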