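import Pool.Agent.Lib.DI.F.SpecF

set_option autoImplicit false

/-!
# THEOREM DI, Part F, file F: the lattice `Ω O`

`tLam`: the functions `XC`, `2 YC + XC` are the Weierstrass functions of the lattice `Ω O`, which has
the invariants `g₂ = 35/4`, `g₃ = 49/8`.
-/

noncomputable section

namespace Pool.Agent.DI.F

open Pool.Agent.MuZ Pool.Agent.DI

namespace LamAux

theorem indep_mul (c : ℂ) (hc : c ≠ 0) : LinearIndependent ℝ ![c * 1, c * wC] := by
  rw [LinearIndependent.pair_iff]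
  intro s t h
  have h1 := LinearIndependent.pair_iff.1 indep_wC s t
  apply h1
  simp only [Complex.real_smul] at h ⊢
  have h2 : c * (s * 1 + t * wC) = 0 := by linear_combination h
  exact (mul_eq_zero.1 h2).resolve_left hc

/-- the lattice `c O` -/
def LL (c : ℂ) (hc : c ≠ 0) : PeriodPair where
  ω₁ := c * 1
  ω₂ := c * wC
  indep := indep_mul c hc

theorem mem_LL (c : ℂ) (hc : c ≠ 0) (z : ℂ) : c * z ∈ (LL c hc).lattice ↔ z ∈ LO.lattice := by
  rw [PeriodPair.mem_lattice, PeriodPair.mem_lattice]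
  constructor
  · rintro ⟨m, n, h⟩
    refine ⟨m, n, ?_⟩
    change (m : ℂ) * (c * 1) + n * (c * wC) = c * z at h
    change (m : ℂ) * 1 + n * wC = z
    apply mul_left_cancel₀ hc
    rw [← h]
    ring
  · rintro ⟨m, n, h⟩
    refine ⟨m, n, ?_⟩
    change (m : ℂ) * (c * 1) + n * (c * wC) = c * z
    change (m : ℂ) * 1 + n * wC = z at h
    rw [← h]
    ring

/-- multiplication by `c` on the lattices -/
def eqv (c : ℂ) (hc : c ≠ 0) : LO.lattice ≃ (LL c hc).lattice where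
  toFun l := ⟨c * l.1, (mem_LL c hc l.1).2 l.2⟩
  invFun l := ⟨c⁻¹ * l.1, (mem_LL c hc (c⁻¹ * l.1)).1 (by rw [mul_inv_cancel_left₀ hc]; exact l.2)⟩
  left_inv l := Subtype.ext (inv_mul_cancel_left₀ hc l.1)
  right_inv l := Subtype.ext (mul_inv_cancel_left₀ hc l.1)

theorem wp (c : ℂ) (hc : c ≠ 0) (z : ℂ) :
    (LL c hc).weierstrassP (c * z) = LO.weierstrassP z / c ^ 2 := by
  rw [PeriodPair.weierstrassP, PeriodPair.weierstrassP, ← (eqv c hc).tsum_eq, ← tsum_div_const]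
  refine tsum_congr fun l => ?_
  change 1 / (c * z - c * l.1) ^ 2 - 1 / (c * l.1) ^ 2 = _
  rw [← mul_sub, mul_pow, mul_pow, sub_div, div_div, div_div, mul_comm (c ^ 2), mul_comm (c ^ 2)]

theorem wpd (c : ℂ) (hc : c ≠ 0) (z : ℂ) :
    (LL c hc).derivWeierstrassP (c * z) = LO.derivWeierstrassP z / c ^ 3 := by
  rw [PeriodPair.derivWeierstrassP, PeriodPair.derivWeierstrassP, ← (eqv c hc).tsum_eq, neg_div,
    ← tsum_div_const]
  congr 1
  refine tsum_congr fun l => ?_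
  change 2 / (c * z - c * l.1) ^ 3 = _
  rw [← mul_sub, mul_pow, div_div, mul_comm (c ^ 3)]

theorem lat_iff (z : ℂ) : Lat z ↔ z ∈ LO.lattice := by
  rw [PeriodPair.mem_lattice]
  constructor
  · rintro ⟨v, rfl⟩
    refine ⟨v.re, v.im, ?_⟩
    change (v.re : ℂ) * 1 + v.im * wC = _
    rw [toC_apply, mul_one]
  · rintro ⟨m, n, h⟩
    refine ⟨⟨m, n⟩, ?_⟩
    change (m : ℂ) * 1 + n * wC = z at h
    rw [toC_apply, ← h, mul_one]

end LamAux

open LamAux

theorem tLam (hB0 : S_B0) (hB1 : S_B1) (hB3 : S_B3) : S_Lam := by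
  have hc : OmC ≠ 0 := hB0.1
  have hX : ∀ z : ℂ, XC z = (LL OmC hc).weierstrassP (OmC * z) + 1 / 4 := by
    intro z
    rw [wp, XC]
  have hY : ∀ z : ℂ, 2 * YC z + XC z = (LL OmC hc).derivWeierstrassP (OmC * z) := by
    intro z
    rw [wpd, YC]
    ring
  have hL : ∀ z : ℂ, Lat z ↔ OmC * z ∈ (LL OmC hc).lattice := by
    intro z
    rw [mem_LL, lat_iff]
  have key : ∀ z : ℂ, ¬ Lat z →
      ((LL OmC hc).g₂ - 35 / 4) * (XC z - 1 / 4) + ((LL OmC hc).g₃ - 49 / 8) = 0 := by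
    intro z hz
    have h1 := (LL OmC hc).derivWeierstrassP_sq (OmC * z) (fun h => hz ((hL z).2 h))
    have h2 := hB1 z hz
    have h3 : (LL OmC hc).weierstrassP (OmC * z) = XC z - 1 / 4 := by rw [hX z]; ring
    rw [← hY z, h3] at h1
    linear_combination h1 - 4 * h2
  obtain ⟨z1, hz1, hx1, -⟩ := hB3.2.2 2 (-1) (by norm_num)
  obtain ⟨z2, hz2, hx2, -⟩ := hB3.2.2 0 Complex.I (by rw [Complex.I_sq]; norm_num)
  have k1 := key z1 hz1
  have k2 := key z2 hz2
  rw [hx1] at k1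
  rw [hx2] at k2
  refine ⟨LL OmC hc, ?_, ?_, fun z => ⟨hX z, hY z⟩, hL⟩
  · linear_combination (1 / 2 : ℂ) * k1 - (1 / 2 : ℂ) * k2
  · linear_combination (1 / 8 : ℂ) * k1 + (7 / 8 : ℂ) * k2

end Pool.Agent.DI.F
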