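import Pool.Agent.Lib.DI.F.SpecF

set_option autoImplicit false

/-!
# THEOREM DI, Part F, module Lin: linear algebra of F1
-/

noncomputable section

namespace Pool.Agent.DI.F

namespace LinAux

private theorem ded {R F ι : Type} [CommRing R] [Field F] [Fintype ι] (r : ι → R →+* F)
    (hr : Function.Injective r) (g : ι → F) (h : ∀ x : R, ∑ i, g i * r i x = 0) : g = 0 := by
  have h1 := (linearIndependent_monoidHom R F).comp (fun i => ((r i : R →+* F) : R →* F)) (by
    intro i j hij
    apply hr
    ext x
    exact DFunLike.congr_fun hij x)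
  have h2 := Fintype.linearIndependent_iff.1 h1 g (by
    funext x
    rw [Finset.sum_apply, Pi.zero_apply, ← h x]
    rfl)
  funext i
  exact h2 i

end LinAux

open LinAux in
theorem tLin : S_Lin := by
  classical
  intro R F ι _ _ _ _ r hr hfin hval k S hk hS
  let _ : Algebra (ZMod 2) F := ZMod.algebra F 2
  have hinj : Function.Injective (algebraMap (ZMod 2) F) := (algebraMap (ZMod 2) F).injective
  -- the image
  let Φ : R →+ (ι → F) :=
    { toFun := fun x i => r i x
      map_zero' := by
        funext i
        exact map_zero (r i)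
      map_add' := by
        intro x y
        funext i
        exact map_add (r i) x y }
  have hΦ : ∀ x i, Φ x i = r i x := fun _ _ => rfl
  let U : Submodule (ZMod 2) (ι → F) := AddSubgroup.toZModSubmodule 2 Φ.range
  have hmem : ∀ v : ι → F, v ∈ U ↔ ∃ x, Φ x = v := by
    intro v
    change v ∈ Φ.range ↔ _
    exact AddMonoidHom.mem_range
  have : Finite U := by
    have h1 : (U : Set (ι → F)) = Set.range fun (x : R) (i : ι) => r i x := by
      ext v
      rw [SetLike.mem_coe, hmem]
      rfl
    have h2 : (U : Set (ι → F)).Finite := by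
      rw [h1]
      exact hfin
    exact h2.to_subtype
  have : Module.Finite (ZMod 2) U := Module.Finite.of_finite
  -- the form
  have hform : ∀ u v : U, ∃ c : ZMod 2, algebraMap (ZMod 2) F c = ∑ i, u.1 i * v.1 i := by
    intro u v
    obtain ⟨x, hx⟩ := (hmem u.1).1 u.2
    obtain ⟨y, hy⟩ := (hmem v.1).1 v.2
    have h1 : ∑ i, u.1 i * v.1 i = ∑ i, r i (x * y) := by
      refine Finset.sum_congr rfl fun i _ => ?_
      rw [← hx, ← hy, hΦ, hΦ, map_mul]
    rw [h1]
    rcases hval (x * y) with h | h
    · exact ⟨0, by rw [map_zero, h]⟩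
    · exact ⟨1, by rw [map_one, h]⟩
  choose B hB using hform
  let t : U →ₗ[ZMod 2] Module.Dual (ZMod 2) U := LinearMap.mk₂ (ZMod 2) B
    (by
      intro u u' v
      apply hinj
      rw [map_add, hB, hB, hB, ← Finset.sum_add_distrib]
      refine Finset.sum_congr rfl fun i _ => ?_
      simp only [Submodule.coe_add, Pi.add_apply]
      ring)
    (by
      intro c u v
      apply hinj
      rw [smul_eq_mul, map_mul, hB, hB, Finset.mul_sum]
      refine Finset.sum_congr rfl fun i _ => ?_
      simp only [Submodule.coe_smul, Pi.smul_apply, Algebra.smul_def]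
      ring)
    (by
      intro u v v'
      apply hinj
      rw [map_add, hB, hB, hB, ← Finset.sum_add_distrib]
      refine Finset.sum_congr rfl fun i _ => ?_
      simp only [Submodule.coe_add, Pi.add_apply]
      ring)
    (by
      intro c u v
      apply hinj
      rw [smul_eq_mul, map_mul, hB, hB, Finset.mul_sum]
      refine Finset.sum_congr rfl fun i _ => ?_
      simp only [Submodule.coe_smul, Pi.smul_apply, Algebra.smul_def]
      ring)
  have ht : ∀ u v, algebraMap (ZMod 2) F (t u v) = ∑ i, u.1 i * v.1 i := fun u v => hB u v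
  have htinj : Function.Injective t := by
    rw [injective_iff_map_eq_zero]
    intro u hu
    have h1 : u.1 = 0 := by
      apply ded r hr u.1
      intro x
      have h2 := ht u ⟨Φ x, (hmem _).2 ⟨x, rfl⟩⟩
      rw [hu, LinearMap.zero_apply, map_zero] at h2
      exact h2.symm
    exact Subtype.ext h1
  have htsurj : Function.Surjective t :=
    (LinearMap.injective_iff_surjective_of_finrank_eq_finrank
      (Subspace.dual_finrank_eq (K := ZMod 2) (V := U)).symm).1 htinj
  -- the functional
  obtain ⟨x0, hx0⟩ : ∃ x0 : R, ∑ i, k i * r i x0 ≠ 0 := by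
    by_contra hne
    push Not at hne
    obtain ⟨i, hi⟩ := hk
    have h1 := ded r hr k hne
    exact hi (congrFun h1 i)
  obtain ⟨m, hm⟩ : ∃ m : Module.Dual (ZMod 2) F, m (∑ i, k i * r i x0) ≠ 0 := by
    by_contra hne
    push Not at hne
    exact hx0 ((Module.forall_dual_apply_eq_zero_iff (ZMod 2) _).1 hne)
  let kap : U →ₗ[ZMod 2] F :=
    { toFun := fun v => ∑ i, k i * v.1 i
      map_add' := by
        intro v v'
        rw [← Finset.sum_add_distrib]
        refine Finset.sum_congr rfl fun i _ => ?_
        simp only [Submodule.coe_add, Pi.add_apply]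
        ring
      map_smul' := by
        intro c v
        rw [RingHom.id_apply, Algebra.smul_def, Finset.mul_sum]
        refine Finset.sum_congr rfl fun i _ => ?_
        simp only [Submodule.coe_smul, Pi.smul_apply, Algebra.smul_def]
        ring }
  obtain ⟨u, hu⟩ := htsurj (m.comp kap)
  obtain ⟨b, hb⟩ := (hmem u.1).1 u.2
  refine ⟨b, ?_, ?_⟩
  · by_contra hne
    push Not at hne
    have h1 : u = 0 := by
      apply Subtype.ext
      rw [← hb]
      funext i
      exact hne i
    rw [h1, map_zero] at hu
    have h2 := LinearMap.congr_fun hu ⟨Φ x0, (hmem _).2 ⟨x0, rfl⟩⟩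
    apply hm
    rw [LinearMap.zero_apply] at h2
    exact h2.symm
  · intro w hw
    have h1 := ht u ⟨Φ w, (hmem _).2 ⟨w, rfl⟩⟩
    have h2 : t u ⟨Φ w, (hmem _).2 ⟨w, rfl⟩⟩ = m (∑ i, k i * r i w) := by
      rw [hu]
      rfl
    rw [h2, hS w hw, map_zero, map_zero] at h1
    rw [h1]
    refine Finset.sum_congr rfl fun i _ => ?_
    rw [← hb]
    rfl

end Pool.Agent.DI.F
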