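import Pool.Agent.Lib.DI.F.SpecT

set_option autoImplicit false

/-!
# THEOREM DI, Part F: the Weierstrass function near 0, rational coefficients
-/

namespace Pool.Agent.DI.F

open Filter Topology

namespace P01Aux

/-- `f` is analytic at `0` with Taylor series `p` -/
def T (f : ℂ → ℂ) (p : PowerSeries ℂ) : Prop := AnalyticAt ℂ f 0 ∧ tay f = p

theorem T.add (hTay : S_Tay) {f g : ℂ → ℂ} {p q : PowerSeries ℂ} (hf : T f p) (hg : T g q) :
    T (fun z => f z + g z) (p + q) :=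
  ⟨hf.1.add hg.1, by rw [hTay.2.2.1 f g hf.1 hg.1, hf.2, hg.2]⟩

theorem T.mul (hTay : S_Tay) {f g : ℂ → ℂ} {p q : PowerSeries ℂ} (hf : T f p) (hg : T g q) :
    T (fun z => f z * g z) (p * q) :=
  ⟨hf.1.mul hg.1, by rw [hTay.2.2.2.1 f g hf.1 hg.1, hf.2, hg.2]⟩

theorem T.const (hTay : S_Tay) (c : ℂ) : T (fun _ => c) (PowerSeries.C c) :=
  ⟨analyticAt_const, hTay.2.2.2.2.1.1 c⟩

theorem T.id (hTay : S_Tay) : T (fun z => z) PowerSeries.X :=
  ⟨analyticAt_id, hTay.2.2.2.2.1.2⟩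

theorem T.pow (hTay : S_Tay) {f : ℂ → ℂ} {p : PowerSeries ℂ} (hf : T f p) (n : ℕ) :
    T (fun z => f z ^ n) (p ^ n) := by
  induction n with
  | zero =>
    have h := T.const hTay 1
    rw [map_one] at h
    simpa using h
  | succ n ih =>
    have h := ih.mul hTay hf
    simpa [pow_succ] using h

theorem T.sub (hTay : S_Tay) {f g : ℂ → ℂ} {p q : PowerSeries ℂ} (hf : T f p) (hg : T g q) :
    T (fun z => f z - g z) (p - q) := by
  have h := hf.add hTay ((T.const hTay (-1)).mul hTay hg)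
  have h1 : (fun z => f z + -1 * g z) = fun z => f z - g z := by
    funext z
    ring
  have h2 : p + PowerSeries.C (-1 : ℂ) * q = p - q := by
    rw [map_neg, map_one]
    ring
  rw [h1, h2] at h
  exact h

/-- the power series whose coefficients up to `m` lie in `k` -/
def Sb (k : Subfield ℂ) (m : ℕ) : Subring (PowerSeries ℂ) where
  carrier := {p | ∀ i ≤ m, PowerSeries.coeff i p ∈ k}
  zero_mem' := fun i _ => by
    rw [map_zero]
    exact zero_mem k
  one_mem' := fun i _ => by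
    rw [PowerSeries.coeff_one]
    split_ifs
    · exact one_mem k
    · exact zero_mem k
  add_mem' := fun {p q} hp hq i hi => by
    rw [map_add]
    exact add_mem (hp i hi) (hq i hi)
  neg_mem' := fun {p} hp i hi => by
    rw [map_neg]
    exact neg_mem (hp i hi)
  mul_mem' := fun {p q} hp hq i hi => by
    rw [PowerSeries.coeff_mul]
    refine sum_mem fun kl hkl => ?_
    rw [Finset.HasAntidiagonal.mem_antidiagonal] at hkl
    exact mul_mem (hp kl.1 (by omega)) (hq kl.2 (by omega))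

theorem mem_Sb (k : Subfield ℂ) (m : ℕ) (p : PowerSeries ℂ) :
    p ∈ Sb k m ↔ ∀ i ≤ m, PowerSeries.coeff i p ∈ k := Iff.rfl

theorem C_mem (k : Subfield ℂ) (m : ℕ) (c : ℂ) (hc : c ∈ k) : PowerSeries.C c ∈ Sb k m := by
  rw [mem_Sb]
  intro i _
  rw [PowerSeries.coeff_C]
  split_ifs
  · exact hc
  · exact zero_mem k

theorem X_mem (k : Subfield ℂ) (m : ℕ) : (PowerSeries.X : PowerSeries ℂ) ∈ Sb k m := by
  rw [mem_Sb]
  intro i _
  rw [PowerSeries.coeff_X]
  split_ifs
  · exact one_mem k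
  · exact zero_mem k

theorem coeff_X_der (c : PowerSeries ℂ) (n : ℕ) :
    PowerSeries.coeff n (PowerSeries.X * PowerSeries.derivative ℂ c) =
      (n : ℂ) * PowerSeries.coeff n c := by
  cases n with
  | zero =>
    rw [PowerSeries.coeff_zero_X_mul, Nat.cast_zero, zero_mul]
  | succ n =>
    rw [PowerSeries.coeff_succ_X_mul, PowerSeries.coeff_derivative]
    push_cast
    ring

/-- the recursion -/
theorem recur (k : Subfield ℂ) (g2 g3 : ℂ) (h2 : g2 ∈ k) (h3 : g3 ∈ k) (c : PowerSeries ℂ)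
    (h : (-2 + PowerSeries.X ^ 3 * PowerSeries.derivative ℂ c) ^ 2 =
      4 * (1 + PowerSeries.X ^ 2 * c) ^ 3 -
      PowerSeries.C g2 * PowerSeries.X ^ 4 * (1 + PowerSeries.X ^ 2 * c) -
      PowerSeries.C g3 * PowerSeries.X ^ 6) (n : ℕ) : PowerSeries.coeff n c ∈ k := by
  set d := PowerSeries.derivative ℂ c with hd
  set R : PowerSeries ℂ := PowerSeries.X ^ 2 * d ^ 2 - 12 * c ^ 2 -
    4 * PowerSeries.X ^ 2 * c ^ 3 + PowerSeries.C g2 + PowerSeries.C g2 * PowerSeries.X ^ 2 * c +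
    PowerSeries.C g3 * PowerSeries.X ^ 2 with hR
  have h1 : 12 * c + 4 * (PowerSeries.X * d) = PowerSeries.X ^ 2 * R := by
    have hX : (PowerSeries.X : PowerSeries ℂ) ^ 2 ≠ 0 := pow_ne_zero 2 PowerSeries.X_ne_zero
    apply mul_left_cancel₀ hX
    rw [hR]
    linear_combination (-1) * h
  induction n using Nat.strong_induction_on with
  | _ n ih =>
    have h4 := congrArg (PowerSeries.coeff n) h1
    have e12 : (12 : PowerSeries ℂ) = PowerSeries.C 12 := (map_ofNat PowerSeries.C 12).symm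
    have e4 : (4 : PowerSeries ℂ) = PowerSeries.C 4 := (map_ofNat PowerSeries.C 4).symm
    rw [map_add, e12, PowerSeries.coeff_C_mul, e4, PowerSeries.coeff_C_mul, hd, coeff_X_der,
      PowerSeries.coeff_X_pow_mul'] at h4
    have h5 : (if 2 ≤ n then PowerSeries.coeff (n - 2) R else 0) ∈ k := by
      split_ifs with hn
      · have hc : c ∈ Sb k (n - 2) := by
          rw [mem_Sb]
          exact fun i hi => ih i (by omega)
        have hdm : d ∈ Sb k (n - 2) := by
          rw [mem_Sb]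
          intro i hi
          rw [hd, PowerSeries.coeff_derivative]
          exact mul_mem (ih (i + 1) (by omega)) (add_mem (natCast_mem k i) (one_mem k))
        have hX := X_mem k (n - 2)
        have hRm : R ∈ Sb k (n - 2) := by
          rw [hR]
          refine add_mem (add_mem (add_mem (sub_mem (sub_mem ?_ ?_) ?_) ?_) ?_) ?_
          · exact mul_mem (pow_mem hX 2) (pow_mem hdm 2)
          · exact mul_mem (ofNat_mem _ 12) (pow_mem hc 2)
          · exact mul_mem (mul_mem (ofNat_mem _ 4) (pow_mem hX 2)) (pow_mem hc 3)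
          · exact C_mem k _ g2 h2
          · exact mul_mem (mul_mem (C_mem k _ g2 h2) (pow_mem hX 2)) hc
          · exact mul_mem (C_mem k _ g3 h3) (pow_mem hX 2)
        exact hRm (n - 2) le_rfl
      · exact zero_mem k
    have h6 : ((12 : ℂ) + 4 * n) ≠ 0 := by
      have h7 : (12 + 4 * n : ℕ) ≠ 0 := by omega
      exact_mod_cast h7
    have h8 : PowerSeries.coeff n c =
        (if 2 ≤ n then PowerSeries.coeff (n - 2) R else 0) / ((12 : ℂ) + 4 * n) := by
      rw [eq_div_iff h6, ← h4]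
      ring
    rw [h8]
    exact div_mem h5 (add_mem (ofNat_mem k 12) (mul_mem (ofNat_mem k 4) (natCast_mem k n)))

theorem P0_eq (Λ : PeriodPair) (u : ℂ) (hu : u ≠ 0) : P0 Λ u = u ^ 2 * Λ.weierstrassP u := by
  have h := Λ.weierstrassPExcept_def 0 u
  have h0 : ((0 : Λ.lattice) : ℂ) = 0 := rfl
  rw [h0] at h
  unfold P0
  rw [h]
  field_simp
  ring

theorem P1_eq (Λ : PeriodPair) (u : ℂ) (hu : u ≠ 0) :
    P1 Λ u = u ^ 3 * Λ.derivWeierstrassP u := by
  have h := Λ.derivWeierstrassPExcept_def 0 u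
  have h0 : ((0 : Λ.lattice) : ℂ) = 0 := rfl
  rw [h0] at h
  unfold P1
  rw [h, sub_zero]
  field_simp
  ring

theorem P0_zero (Λ : PeriodPair) : P0 Λ 0 = 1 := by
  unfold P0
  ring

theorem P1_zero (Λ : PeriodPair) : P1 Λ 0 = -2 := by
  unfold P1
  ring

theorem rel (Λ : PeriodPair) : (fun u => P1 Λ u ^ 2) =ᶠ[𝓝 0] fun u =>
    4 * P0 Λ u ^ 3 - Λ.g₂ * u ^ 4 * P0 Λ u - Λ.g₃ * u ^ 6 := by
  filter_upwards [Λ.compl_lattice_sdiff_singleton_mem_nhds 0] with u hu
  by_cases h0 : u = 0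
  · subst h0
    rw [P0_zero, P1_zero]
    ring
  · have hl : u ∉ Λ.lattice := fun h => hu ⟨h, h0⟩
    rw [P0_eq Λ u h0, P1_eq Λ u h0]
    have h := Λ.derivWeierstrassP_sq u hl
    linear_combination u ^ 6 * h

theorem main (hTay : S_Tay) (Λ : PeriodPair) (k : Subfield ℂ) (h2 : Λ.g₂ ∈ k) (h3 : Λ.g₃ ∈ k) :
    Co k (Λ.weierstrassPExcept 0) ∧
      deriv (Λ.weierstrassPExcept 0) =ᶠ[𝓝 0] Λ.derivWeierstrassPExcept 0 := by
  have ha : AnalyticAt ℂ (Λ.weierstrassPExcept 0) 0 := Λ.analyticAt_weierstrassPExcept 0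
  have hder : deriv (Λ.weierstrassPExcept 0) =ᶠ[𝓝 0] Λ.derivWeierstrassPExcept 0 := by
    filter_upwards [Λ.compl_lattice_sdiff_singleton_mem_nhds 0] with u hu
    exact Λ.eqOn_deriv_weierstrassPExcept_derivWeierstrassPExcept 0 hu
  refine ⟨⟨ha, ?_⟩, hder⟩
  set f := Λ.weierstrassPExcept 0 with hf
  set c := tay f with hc
  have hcT : T f c := ⟨ha, rfl⟩
  have hdT : T (Λ.derivWeierstrassPExcept 0) (PowerSeries.derivative ℂ c) := by
    refine ⟨Λ.analyticAt_derivWeierstrassPExcept 0, ?_⟩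
    rw [← hTay.2.2.2.2.2.2 _ _ hder]
    exact hTay.2.2.2.2.2.1 f ha
  have e4 : PowerSeries.C (4 : ℂ) = 4 := map_ofNat PowerSeries.C 4
  have e2 : PowerSeries.C (-2 : ℂ) = -2 := by
    rw [map_neg, map_ofNat PowerSeries.C 2]
  have hP0 : T (P0 Λ) (1 + PowerSeries.X ^ 2 * c) := by
    have h := (T.const hTay 1).add hTay (((T.id hTay).pow hTay 2).mul hTay hcT)
    rw [map_one] at h
    exact h
  have hP1 : T (P1 Λ) (-2 + PowerSeries.X ^ 3 * PowerSeries.derivative ℂ c) := by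
    have h := (T.const hTay (-2)).add hTay (((T.id hTay).pow hTay 3).mul hTay hdT)
    rw [e2] at h
    exact h
  have hL := hP1.pow hTay 2
  have hR := (((T.const hTay 4).mul hTay (hP0.pow hTay 3)).sub hTay
    (((T.const hTay Λ.g₂).mul hTay ((T.id hTay).pow hTay 4)).mul hTay hP0)).sub hTay
    ((T.const hTay Λ.g₃).mul hTay ((T.id hTay).pow hTay 6))
  have hE := hTay.2.2.2.2.2.2 _ _ (rel Λ)
  rw [hL.2, hR.2, e4] at hE
  exact recur k Λ.g₂ Λ.g₃ h2 h3 c hE

end P01Aux

open P01Aux in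
theorem tP01 (hTay : S_Tay) (hCo : S_Co) : S_P01 := by
  intro Λ
  refine ⟨fun u hu => ⟨P0_eq Λ u hu, P1_eq Λ u hu⟩, P0_zero Λ, P1_zero Λ, fun k h2 h3 => ?_⟩
  obtain ⟨hf, hder⟩ := main hTay Λ k h2 h3
  obtain ⟨⟨c1, c2⟩, c3, c4, -, -, -, c8⟩ := hCo k
  have hd : Co k (Λ.derivWeierstrassPExcept 0) := c8 _ _ hder (c4 _ hf)
  have hsq : Co k fun q => q * q := (c3 _ _ c2 c2).2.1
  constructor
  · have h := (c3 (fun _ => 1) (fun q => (q * q) * Λ.weierstrassPExcept 0 q) (c1 1 (one_mem k))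
      (c3 _ _ hsq hf).2.1).1
    have h1 : P0 Λ = fun q => 1 + (q * q) * Λ.weierstrassPExcept 0 q := by
      funext q
      unfold P0
      rw [sq]
    rw [h1]
    exact h
  · have hcb : Co k fun q => q * q * q := (c3 _ _ hsq c2).2.1
    have h := (c3 (fun _ => -2) (fun q => (q * q * q) * Λ.derivWeierstrassPExcept 0 q)
      (c1 (-2) (neg_mem (ofNat_mem k 2))) (c3 _ _ hcb hd).2.1).1
    have h1 : P1 Λ = fun q => -2 + (q * q * q) * Λ.derivWeierstrassPExcept 0 q := by
      funext q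
      unfold P1
      ring
    rw [h1]
    exact h

end Pool.Agent.DI.F
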