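import Pool.Agent.Lib.DI.F.SpecF

/-!
# THEOREM DI (MP_d0239a_nt), part F: the periods of the functions `Tb`
-/

set_option autoImplicit false

open scoped Pointwise Topology MatrixGroups

noncomputable section

namespace Pool.Agent.DI.F

open Pool.Agent.MuZ Pool.Agent.DI

namespace PerAux

open Classical in
private theorem cast_nH (f : ℕ) :
    sumO f (fun v => if Hf f v then (1 : ℂ) else 0) = (nH f : ℂ) := by
  unfold nH sumO
  rw [Nat.cast_sum]
  refine Finset.sum_congr rfl fun a _ => ?_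
  rw [Nat.cast_sum]
  refine Finset.sum_congr rfl fun b _ => ?_
  beta_reduce
  by_cases h : Hf f ⟨a, b⟩
  · rw [if_pos h, if_pos h, Nat.cast_one]
  · rw [if_neg h, if_neg h, Nat.cast_zero]

end PerAux

open Classical in
theorem tPer (hGal : S_Gal) (hSumC : S_SumC) (hKb : S_Kb) : S_Per := by
  intro f σ Sg lam β hf h7 hσ hSg hlam hβ a b c d hG hd z hz
  have _ := hGal
  obtain ⟨k1, k2, k3, -, -, -, -⟩ := hKb f σ β hf h7 hσ hβ
  obtain ⟨hn, hsum⟩ := hSumC f σ Sg hf h7 hσ hSg
  have h1 := hlam.2 (kb f σ β) σ k1 k2 k3 hσ a b c d hG hd z hz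
  have h2 : sumO f (fun v => if Cop v f then kb f σ β v * σ v (lam b d) else 0) =
      (nH f : Om) * ∑ s ∈ Sg, s (β * lam b d) := by
    rw [← hsum (fun τ => τ (β * lam b d))
      (fun τ _ τ' _ h => h _ ((Lf f).mul_mem hβ (hlam.1 b d).1))]
    refine congrArg (sumO f) (funext fun v => ?_)
    by_cases hv : Cop v f
    · rw [if_pos hv, if_pos hv, kb, if_pos hv, map_mul]
    · rw [if_neg hv, if_neg hv]
  rw [h2, PerAux.cast_nH, map_mul, map_natCast] at h1
  have hne : (nH f : ℂ) ≠ 0 := Nat.cast_ne_zero.2 hn.ne'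
  apply mul_left_cancel₀ hne
  unfold Tb
  rw [h1]
  ring

end Pool.Agent.DI.F
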