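import Pool.Agent.Lib.DI.F.SpecF

set_option autoImplicit false

/-!
# THEOREM DI, Part F, module PsiCusp: the function Psi at the cusps
-/

open scoped Pointwise Topology MatrixGroups
open Filter CongruenceSubgroup

noncomputable section

namespace Pool.Agent.DI.F

open Pool.Agent.MuZ Pool.Agent.DI

namespace PsiCuspAux

theorem analytic (c0 : ℂ) (cf : ℕ → ℂ) (C : ℝ) (h : ∀ n, ‖cf n‖ ≤ C * (n + 1) ^ 3) :
    AnalyticAt ℂ (fun t : ℂ => c0 + ∑' n : ℕ, cf n * t ^ (n + 1)) 0 := by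
  have hs0 : Summable fun n : ℕ => (n : ℝ) ^ 3 * (1 / 2 : ℝ) ^ n :=
    summable_pow_mul_geometric_of_norm_lt_one 3 (by norm_num)
  have hs1 : Summable fun n : ℕ => ((n + 1 : ℕ) : ℝ) ^ 3 * (1 / 2 : ℝ) ^ (n + 1) :=
    (summable_nat_add_iff (f := fun n : ℕ => (n : ℝ) ^ 3 * (1 / 2 : ℝ) ^ n) 1).2 hs0
  have hs2 : Summable fun n : ℕ => C * (((n + 1 : ℕ) : ℝ) ^ 3 * (1 / 2 : ℝ) ^ (n + 1)) :=
    hs1.mul_left C
  have hd : DifferentiableOn ℂ (fun t : ℂ => ∑' n : ℕ, cf n * t ^ (n + 1))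
      (Metric.ball (0 : ℂ) (1 / 2)) := by
    refine Complex.differentiableOn_tsum_of_summable_norm hs2 (fun n => ?_) Metric.isOpen_ball ?_
    · fun_prop
    · intro n w hw
      rw [mem_ball_zero_iff] at hw
      rw [norm_mul, norm_pow]
      have h1 := h n
      have h2 : ‖w‖ ^ (n + 1) ≤ (1 / 2 : ℝ) ^ (n + 1) :=
        pow_le_pow_left₀ (norm_nonneg _) hw.le _
      calc ‖cf n‖ * ‖w‖ ^ (n + 1) ≤ (C * (n + 1) ^ 3) * (1 / 2 : ℝ) ^ (n + 1) :=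
            mul_le_mul h1 h2 (by positivity) ((norm_nonneg _).trans h1)
        _ = C * (((n + 1 : ℕ) : ℝ) ^ 3 * (1 / 2 : ℝ) ^ (n + 1)) := by
            push_cast
            ring
  have ha : AnalyticAt ℂ (fun t : ℂ => ∑' n : ℕ, cf n * t ^ (n + 1)) 0 :=
    hd.analyticAt (Metric.isOpen_ball.mem_nhds (Metric.mem_ball_self (by norm_num)))
  exact analyticAt_const.add ha

theorem ex_pow (n : ℕ) (z : ℂ) (M : ℂ) :
    ex ((n + 1) * z / M) = (Complex.exp (2 * Real.pi * Complex.I * z / M)) ^ (n + 1) := by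
  unfold ex
  rw [← Complex.exp_nat_mul]
  congr 1
  push_cast
  ring

/-- The expansion of `Tb` at a cusp. -/
theorem expand (hC2 : S_C2) (hKb : S_Kb) (f : ℕ) (σ : OO → Gal(Om/ℚ)) (β : Om) (hf : Odd f)
    (h7 : 7 ∣ f) (hσ : FH.IsSig f σ) (hβ : β ∈ Lf f) (a b c d : ℤ) (hdet : a * d - b * c = 1) :
    ∃ al : ℂ → ℂ, AnalyticAt ℂ al 0 ∧ ∀ z : ℂ, 0 < z.im →
      Tb f σ β ((a * z + b) / (c * z + d)) =
        al (Complex.exp (2 * Real.pi * Complex.I * z / (7 * f ^ 2 : ℕ))) := by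
  obtain ⟨-, -, -, -, -, -, hρ⟩ := hKb f σ β hf h7 hσ hβ
  obtain ⟨c0, cf, C, hcf, hsum⟩ := hC2 f hf h7 _ hρ a b c d hdet
  refine ⟨_, analytic c0 cf C hcf, fun z hz => ?_⟩
  have h1 := (hsum z hz).tsum_eq
  have h2 : (7 * (f : ℂ) ^ 2) = ((7 * f ^ 2 : ℕ) : ℂ) := by push_cast; ring
  simp only [ex_pow, h2] at h1
  unfold Tb
  rw [h1]
  ring

end PsiCuspAux

/-- **Psi at the cusps.** -/
theorem tPsiCusp (hC2 : S_C2) (hGp : S_Gp) (hKb : S_Kb) : S_PsiCusp := by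
  intro f σ β β' N0 hf h7 hσ hβ hβ' γ
  have hdet : γ 0 0 * γ 1 1 - γ 0 1 * γ 1 0 = 1 := by
    have h := γ.det_coe
    rw [Matrix.det_fin_two] at h
    exact h
  obtain ⟨al, hal, hal2⟩ := PsiCuspAux.expand hC2 hKb f σ β hf h7 hσ hβ _ _ _ _ hdet
  obtain ⟨al', hal', hal2'⟩ := PsiCuspAux.expand hC2 hKb f σ β' hf h7 hσ hβ' _ _ _ _ hdet
  obtain ⟨-, -, -, m1⟩ := hGp wC wbC (Or.inl ⟨rfl, rfl⟩)
  obtain ⟨-, -, -, m2⟩ := hGp wbC wC (Or.inr ⟨rfl, rfl⟩)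
  have e1 : AnalyticAt ℂ (fun t => (N0 : ℂ) * al t / OmC) 0 :=
    (analyticAt_const.mul hal).div_const
  have e2 : AnalyticAt ℂ (fun t => (N0 : ℂ) * al' t / OmC) 0 :=
    (analyticAt_const.mul hal').div_const
  refine ⟨fun t => wC * Gp wC wbC ((N0 : ℂ) * al t / OmC) * Gp wbC wC ((N0 : ℂ) * al' t / OmC), 0,
    ?_, fun z hz => ?_⟩
  · have g1 : MeromorphicAt (fun t => Gp wC wbC ((N0 : ℂ) * al t / OmC)) 0 :=
      (m1 _).comp_analyticAt e1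
    have g2 : MeromorphicAt (fun t => Gp wbC wC ((N0 : ℂ) * al' t / OmC)) 0 :=
      (m2 _).comp_analyticAt e2
    exact ((MeromorphicAt.const wC 0).mul g1).mul g2
  · have hz' : 0 < (z : ℂ).im := hz
    have hγ : ((γ • z : UpperHalfPlane) : ℂ) =
        ((γ 0 0 : ℤ) * (z : ℂ) + (γ 0 1 : ℤ)) / ((γ 1 0 : ℤ) * (z : ℂ) + (γ 1 1 : ℤ)) := by
      rw [UpperHalfPlane.specialLinearGroup_apply]
      simp
    unfold PsiF
    rw [hγ, hal2 _ hz', hal2' _ hz']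

end Pool.Agent.DI.F
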