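import Pool.Agent.Lib.DI.F.SpecT

set_option autoImplicit false

/-!
# THEOREM DI, Part F: Taylor series
-/

namespace Pool.Agent.DI.F

open Filter Topology

namespace TayAux

/-- the formal multilinear series with given coefficients -/
noncomputable def fm (p : PowerSeries ℂ) : FormalMultilinearSeries ℂ ℂ ℂ :=
  FormalMultilinearSeries.ofScalars ℂ fun n => PowerSeries.coeff n p

theorem fm_coeff (p : PowerSeries ℂ) (n : ℕ) : (fm p).coeff n = PowerSeries.coeff n p :=
  FormalMultilinearSeries.coeff_ofScalars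

theorem iff_hasSum (f : ℂ → ℂ) (p : PowerSeries ℂ) :
    HasFPowerSeriesAt f (fm p) 0 ↔
      ∀ᶠ q in 𝓝 (0 : ℂ), HasSum (fun n : ℕ => PowerSeries.coeff n p * q ^ n) (f q) := by
  rw [hasFPowerSeriesAt_iff]
  have h : ∀ q : ℂ, (HasSum (fun n : ℕ => q ^ n • (fm p).coeff n) (f (0 + q)) ↔
      HasSum (fun n : ℕ => PowerSeries.coeff n p * q ^ n) (f q)) := by
    intro q
    have h1 : (fun n : ℕ => q ^ n • (fm p).coeff n) =
        fun n : ℕ => PowerSeries.coeff n p * q ^ n := by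
      funext n
      rw [fm_coeff, smul_eq_mul, mul_comm]
    rw [h1, zero_add]
  exact eventually_congr (Eventually.of_forall h)

theorem fps_tay (f : ℂ → ℂ) (h : AnalyticAt ℂ f 0) : HasFPowerSeriesAt f (fm (tay f)) 0 := by
  have h1 := h.hasFPowerSeriesAt
  have h2 : fm (tay f) = FormalMultilinearSeries.ofScalars ℂ
      (fun n : ℕ => iteratedDeriv n f 0 / (n.factorial : ℂ)) := by
    unfold fm tay
    congr 1
    funext n
    rw [PowerSeries.coeff_mk]
  rw [h2]
  exact h1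

theorem tay_eq_of_fps (f : ℂ → ℂ) (p : PowerSeries ℂ) (h : HasFPowerSeriesAt f (fm p) 0) :
    AnalyticAt ℂ f 0 ∧ tay f = p := by
  have ha : AnalyticAt ℂ f 0 := ⟨_, h⟩
  refine ⟨ha, ?_⟩
  have h1 := (fps_tay f ha).eq_formalMultilinearSeries h
  ext n
  rw [← fm_coeff, ← fm_coeff, h1]

theorem t1 (f : ℂ → ℂ) (h : AnalyticAt ℂ f 0) :
    ∀ᶠ q in 𝓝 (0 : ℂ), HasSum (fun n : ℕ => PowerSeries.coeff n (tay f) * q ^ n) (f q) :=
  (iff_hasSum f (tay f)).mp (fps_tay f h)

theorem t2 (f : ℂ → ℂ) (p : PowerSeries ℂ)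
    (h : ∀ᶠ q in 𝓝 (0 : ℂ), HasSum (fun n : ℕ => PowerSeries.coeff n p * q ^ n) (f q)) :
    AnalyticAt ℂ f 0 ∧ tay f = p :=
  tay_eq_of_fps f p ((iff_hasSum f p).mpr h)

theorem t4 (f g : ℂ → ℂ) (hf : AnalyticAt ℂ f 0) (hg : AnalyticAt ℂ g 0) :
    tay (fun q => f q * g q) = tay f * tay g := by
  refine (t2 _ _ ?_).2
  filter_upwards [t1 f hf, t1 g hg] with q h1 h2
  have s1 := h1.summable.norm
  have s2 := h2.summable.norm
  have s3 := summable_norm_sum_mul_antidiagonal_of_summable_norm s1 s2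
  have s4 := tsum_mul_tsum_eq_tsum_sum_antidiagonal_of_summable_norm s1 s2
  rw [h1.tsum_eq, h2.tsum_eq] at s4
  have s5 : HasSum (fun n : ℕ => ∑ kl ∈ Finset.HasAntidiagonal.antidiagonal n,
      PowerSeries.coeff kl.1 (tay f) * q ^ kl.1 *
        (PowerSeries.coeff kl.2 (tay g) * q ^ kl.2)) (f q * g q) := by
    rw [s4]
    exact s3.of_norm.hasSum
  have h3 : (fun n : ℕ => PowerSeries.coeff n (tay f * tay g) * q ^ n) =
      fun n : ℕ => ∑ kl ∈ Finset.HasAntidiagonal.antidiagonal n,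
      PowerSeries.coeff kl.1 (tay f) * q ^ kl.1 *
        (PowerSeries.coeff kl.2 (tay g) * q ^ kl.2) := by
    funext n
    rw [PowerSeries.coeff_mul, Finset.sum_mul]
    refine Finset.sum_congr rfl fun kl hkl => ?_
    rw [Finset.HasAntidiagonal.mem_antidiagonal] at hkl
    rw [← hkl, pow_add]
    ring
  rw [h3]
  exact s5

end TayAux

open TayAux in
theorem tTay : S_Tay := by
  refine ⟨t1, t2, ?_, t4, ⟨?_, ?_⟩, ?_, ?_⟩
  · intro f g hf hg
    refine (t2 _ _ ?_).2
    filter_upwards [t1 f hf, t1 g hg] with q h1 h2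
    have h3 : (fun n : ℕ => PowerSeries.coeff n (tay f + tay g) * q ^ n) =
        fun n : ℕ => PowerSeries.coeff n (tay f) * q ^ n + PowerSeries.coeff n (tay g) * q ^ n := by
      funext n
      rw [map_add, add_mul]
    rw [h3]
    exact h1.add h2
  · intro c
    refine (t2 _ _ (Eventually.of_forall fun q => ?_)).2
    have h1 : ∀ n : ℕ, n ≠ 0 → PowerSeries.coeff n (PowerSeries.C c) * q ^ n = 0 := by
      intro n hn
      rw [PowerSeries.coeff_C, if_neg hn, zero_mul]
    have h2 := hasSum_single 0 h1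
    rw [PowerSeries.coeff_C, if_pos rfl, pow_zero, mul_one] at h2
    exact h2
  · refine (t2 _ _ (Eventually.of_forall fun q => ?_)).2
    have h1 : ∀ n : ℕ, n ≠ 1 → PowerSeries.coeff n (PowerSeries.X : PowerSeries ℂ) * q ^ n = 0 := by
      intro n hn
      rw [PowerSeries.coeff_X, if_neg hn, zero_mul]
    have h2 := hasSum_single 1 h1
    rw [PowerSeries.coeff_X, if_pos rfl, pow_one, one_mul] at h2
    exact h2
  · intro f _
    ext n
    rw [PowerSeries.coeff_derivative]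
    unfold tay
    rw [PowerSeries.coeff_mk, PowerSeries.coeff_mk, ← iteratedDeriv_succ', Nat.factorial_succ]
    have h1 : ((n : ℂ) + 1) ≠ 0 := Nat.cast_add_one_ne_zero n
    have h2 : ((n.factorial : ℕ) : ℂ) ≠ 0 := Nat.cast_ne_zero.mpr (Nat.factorial_ne_zero n)
    push_cast
    field_simp
  · intro f g h
    ext n
    unfold tay
    rw [PowerSeries.coeff_mk, PowerSeries.coeff_mk, h.iteratedDeriv_eq n]

end Pool.Agent.DI.F
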