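import Pool.Agent.Lib.DI.F.SpecF
import Pool.Agent.Lib.DI.F.Tay

/-!
# THEOREM DI, part F, module PsiExp: the expansion of `Psi`
-/

set_option autoImplicit false

open scoped Pointwise Topology MatrixGroups
open Filter CongruenceSubgroup

noncomputable section

namespace Pool.Agent.DI.F

open Pool.Agent.MuZ Pool.Agent.DI

namespace PsiExpAux

theorem ex_ne (z : ℂ) : ex z ≠ 0 := Complex.exp_ne_zero _

theorem norm_ex (z : ℂ) : ‖ex z‖ = Real.exp (-(2 * Real.pi * z.im)) := by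
  unfold ex
  rw [Complex.norm_exp]
  congr 1
  have : (2 * Real.pi * Complex.I * z : ℂ) = ((2 * Real.pi : ℝ) : ℂ) * (Complex.I * z) := by
    push_cast
    ring
  rw [this, Complex.re_ofReal_mul]
  simp

/-- every `q` with `0 < ‖q‖ < 1` is `ex z` -/
theorem exists_ex (q : ℂ) (h0 : q ≠ 0) (h1 : ‖q‖ < 1) : ∃ z : ℂ, 0 < z.im ∧ ex z = q := by
  have hpi : (2 * Real.pi * Complex.I : ℂ) ≠ 0 := Complex.two_pi_I_ne_zero
  refine ⟨Complex.log q / (2 * Real.pi * Complex.I), ?_, ?_⟩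
  · have h2 : ex (Complex.log q / (2 * Real.pi * Complex.I)) = q := by
      unfold ex
      rw [mul_div_cancel₀ _ hpi, Complex.exp_log h0]
    have h3 := norm_ex (Complex.log q / (2 * Real.pi * Complex.I))
    rw [h2] at h3
    rw [h3] at h1
    have h4 := Real.exp_lt_one_iff.1 h1
    have h5 := Real.pi_pos
    by_contra hc
    rw [not_lt] at hc
    nlinarith
  · unfold ex
    rw [mul_div_cancel₀ _ hpi, Complex.exp_log h0]

theorem wb_im : wbC = 1 - wC := rfl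

theorem io_wbO : io wbO = wbC := by
  unfold wbO wbC
  rw [map_sub, map_one, io_wO]

theorem sum_pp : wC + wbC = 1 := by
  rw [wb_im]
  ring

theorem mul_pp : wC * wbC = 2 := by
  rw [wb_im]
  linear_combination -wC_sq

/-- `map io` is injective on power series. -/
theorem pmap_inj {p q : PowerSeries Om} (h : PowerSeries.map io p = PowerSeries.map io q) : p = q := by
  ext n
  have := congrArg (PowerSeries.coeff n) h
  rw [PowerSeries.coeff_map, PowerSeries.coeff_map] at this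
  exact io_inj this

theorem der_map (p : PowerSeries Om) : PowerSeries.derivative ℂ (PowerSeries.map io p) =
    PowerSeries.map io (PowerSeries.derivative Om p) := by
  ext n
  rw [PowerSeries.coeff_map, PowerSeries.coeff_derivative, PowerSeries.coeff_derivative,
    PowerSeries.coeff_map, map_mul, map_add, map_natCast, map_one]

/-- lift of a series with coefficients in `k` -/
theorem lift (L : IntermediateField ℚ Om) (p : PowerSeries ℂ) (h : Cf (L.toSubfield.map io) p) :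
    ∃ p' : PowerSeries Om, (∀ n, PowerSeries.coeff n p' ∈ L) ∧ PowerSeries.map io p' = p := by
  have h1 : ∀ n, ∃ x ∈ L, io x = PowerSeries.coeff n p := fun n => by
    obtain ⟨x, hx, hx'⟩ := h n
    exact ⟨x, hx, hx'⟩
  choose x hx hx' using h1
  refine ⟨PowerSeries.mk x, fun n => ?_, ?_⟩
  · rw [PowerSeries.coeff_mk]
    exact hx n
  · ext n
    rw [PowerSeries.coeff_map, PowerSeries.coeff_mk, hx']

theorem twrel_lift {u T W : PowerSeries Om}
    (h : TWrel (PowerSeries.map io u) (PowerSeries.map io T) (PowerSeries.map io W)) : TWrel u T W := by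
  refine ⟨?_, ?_, ?_, ?_, ?_, ?_, ?_, ?_⟩
  · apply pmap_inj
    have := h.curve
    simp only [map_add, map_sub, map_mul, map_pow, map_ofNat]
    exact this
  · apply pmap_inj
    have := h.diff
    rw [der_map, der_map, der_map] at this
    simp only [map_sub, map_mul, map_ofNat]
    exact this
  · have := h.T0
    rw [PowerSeries.coeff_map] at this
    exact io_inj (by rw [this, map_zero])
  · have := h.T1
    rw [PowerSeries.coeff_map, PowerSeries.coeff_map] at this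
    exact io_inj this
  · have := h.W0
    rw [PowerSeries.coeff_map] at this
    exact io_inj (by rw [this, map_zero])
  · have := h.W1
    rw [PowerSeries.coeff_map] at this
    exact io_inj (by rw [this, map_zero])
  · have := h.W2
    rw [PowerSeries.coeff_map] at this
    exact io_inj (by rw [this, map_zero])
  · have := h.W3
    rw [PowerSeries.coeff_map, PowerSeries.coeff_map, ← map_pow] at this
    exact io_inj this

/-- `GG` and `Gp` -/
theorem GG_eq (Λ : PeriodPair) (hΩ : OmC ≠ 0)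
    (hL : ∀ z : ℂ, XC z = Λ.weierstrassP (OmC * z) + 1 / 4 ∧
      2 * YC z + XC z = Λ.derivWeierstrassP (OmC * z)) (p pb w : ℂ) :
    GG Λ p (pb / p ^ 2 - 1 / 4) w = Gp p pb (w / OmC) := by
  unfold GG Gp
  rw [(hL (w / OmC / p)).2, (hL (w / OmC / p)).1]
  have h1 : OmC * (w / OmC / p) = w / p := by
    rw [← mul_div_assoc, mul_div_cancel₀ _ hΩ]
  rw [h1]
  congr 2
  ring

/-- the hypothesis of `S_F3core` -/
theorem GG_sq (Λ : PeriodPair) (hΩ : OmC ≠ 0) (hGp : S_Gp)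
    (hL : ∀ z : ℂ, XC z = Λ.weierstrassP (OmC * z) + 1 / 4 ∧
      2 * YC z + XC z = Λ.derivWeierstrassP (OmC * z))
    (hLat : ∀ z : ℂ, Lat z ↔ OmC * z ∈ Λ.lattice) (p pb : ℂ) (hp : PP p pb) :
    ∀ᶠ u in 𝓝[≠] (0 : ℂ),
      GG Λ p (pb / p ^ 2 - 1 / 4) u ^ 2 = Λ.weierstrassP u + 1 / 4 - p / pb ^ 2 := by
  have evL : ∀ᶠ u in 𝓝[≠] (0 : ℂ), u ∉ (Λ.lattice : Set ℂ) \ {0} :=
    nhdsWithin_le_nhds (Λ.compl_lattice_sdiff_singleton_mem_nhds 0)
  filter_upwards [evL, self_mem_nhdsWithin] with u hu hu0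
  have h1 : u ∉ Λ.lattice := fun h => hu ⟨h, hu0⟩
  have h2 : ¬ Lat (u / OmC) := by
    rw [hLat, mul_div_cancel₀ _ hΩ]
    exact h1
  rw [GG_eq Λ hΩ hL, (hGp p pb hp).1 _ h2, (hL _).1, mul_div_cancel₀ _ hΩ]

/-- the function `u_A` -/
theorem uA_prop (huHas : S_uHas) (f : ℕ) (σ : OO → Gal(Om/ℚ)) (β : Om) (N0 : ℤ) (hf : Odd f)
    (h7 : 7 ∣ f) (hσ : FH.IsSig f σ) (hβ : β ∈ Lf f) (hβ0 : β ≠ 0) (hN : N0 ≠ 0) :
    ∃ uA : ℂ → ℂ, Co ((Lf f).toSubfield.map io) uA ∧ uA 0 = 0 ∧ deriv uA 0 ≠ 0 ∧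
      tay uA = PowerSeries.map io (FH.uS f σ N0 β) ∧
      ∀ z : ℂ, 0 < z.im → uA (ex z) = (N0 : ℂ) * Tb f σ β z := by
  obtain ⟨h1, h2, h3, h4⟩ := huHas f σ β N0 hf h7 hσ hβ
  let uA : ℂ → ℂ := fun q => ∑' n : ℕ, io (PowerSeries.coeff n (FH.uS f σ N0 β)) * q ^ n
  have hz : ∀ z : ℂ, 0 < z.im → uA (ex z) = (N0 : ℂ) * Tb f σ β z := fun z hz => (h1 z hz).tsum_eq
  have h0 : HasSum (fun n : ℕ => io (PowerSeries.coeff n (FH.uS f σ N0 β)) * (0 : ℂ) ^ n) 0 := by
    have e : (fun n : ℕ => io (PowerSeries.coeff n (FH.uS f σ N0 β)) * (0 : ℂ) ^ n) = fun _ => 0 := by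
      funext n
      rcases Nat.eq_zero_or_pos n with rfl | hn
      · rw [h2, map_zero, zero_mul]
      · rw [zero_pow hn.ne', mul_zero]
    rw [e]
    exact hasSum_zero
  have hu0 : uA 0 = 0 := h0.tsum_eq
  have hev : ∀ᶠ q in 𝓝 (0 : ℂ),
      HasSum (fun n : ℕ => PowerSeries.coeff n (PowerSeries.map io (FH.uS f σ N0 β)) * q ^ n) (uA q) := by
    filter_upwards [Metric.ball_mem_nhds (0 : ℂ) one_pos] with q hq
    rw [mem_ball_zero_iff] at hq
    simp only [PowerSeries.coeff_map]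
    rcases eq_or_ne q 0 with rfl | hq0
    · rw [hu0]
      exact h0
    · obtain ⟨z, hz1, rfl⟩ := exists_ex q hq0 hq
      rw [hz z hz1]
      exact h1 z hz1
  obtain ⟨ha, ht⟩ := tTay.2.1 uA _ hev
  refine ⟨uA, ⟨ha, fun n => ?_⟩, hu0, ?_, ht, hz⟩
  · rw [ht, PowerSeries.coeff_map]
    exact ⟨_, h4 n, rfl⟩
  · have h5 : PowerSeries.coeff 1 (tay uA) = deriv uA 0 := by
      unfold tay
      rw [PowerSeries.coeff_mk, iteratedDeriv_one]
      simp
    rw [← h5, ht, PowerSeries.coeff_map, h3]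
    intro h6
    rw [← map_zero io] at h6
    have h7 := io_inj h6
    rcases mul_eq_zero.1 h7 with h8 | h8
    · exact hN (by exact_mod_cast h8)
    · exact hβ0 h8

end PsiExpAux

open PsiExpAux in
/-- **The expansion of Psi.** -/
theorem tPsiExp (hB0 : S_B0) (hGp : S_Gp) (hLam : S_Lam) (huHas : S_uHas) (hGal : S_Gal)
    (hF3core : S_F3core) : S_PsiExp := by
  intro f σ β β' N0 hf h7 hσ hβ hβ' hβ0 hβ0' hN
  obtain ⟨Λ, hg2, hg3, hL, hLat⟩ := hLam
  obtain ⟨_, hwL, _⟩ := hGal f hf h7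
  obtain ⟨uA, cA, zA, dA, tA, eA⟩ := uA_prop huHas f σ β N0 hf h7 hσ hβ hβ0 hN
  obtain ⟨uB, cB, zB, dB, tB, eB⟩ := uA_prop huHas f σ β' N0 hf h7 hσ hβ' hβ0' hN
  have hΩ := hB0.1
  have hwk : wC ∈ (Lf f).toSubfield.map io := ⟨wO, hwL, io_wO⟩
  have hwbk : wbC ∈ (Lf f).toSubfield.map io :=
    ⟨wbO, (Lf f).sub_mem (Lf f).one_mem hwL, io_wbO⟩
  have hpp : PP wC wbC := Or.inl ⟨rfl, rfl⟩
  have hpp' : PP wbC wC := Or.inr ⟨rfl, rfl⟩
  obtain ⟨TA, WA, TB, WB, ψ, kTA, kWA, kTB, kWB, kψ, rA, rB, hψ0, hrel, hsum⟩ :=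
    hF3core Λ hg2 hg3 ((Lf f).toSubfield.map io) wC wbC hwk hwbk sum_pp mul_pp
      (GG_sq Λ hΩ hGp hL hLat wC wbC hpp) (GG_sq Λ hΩ hGp hL hLat wbC wC hpp')
      uA uB cA cB zA zB dA dB
  obtain ⟨TA', -, rfl⟩ := lift (Lf f) TA kTA
  obtain ⟨WA', -, rfl⟩ := lift (Lf f) WA kWA
  obtain ⟨TB', -, rfl⟩ := lift (Lf f) TB kTB
  obtain ⟨WB', -, rfl⟩ := lift (Lf f) WB kWB
  obtain ⟨ψ', lψ, rfl⟩ := lift (Lf f) ψ kψ
  rw [tA] at rA
  rw [tB] at rB
  rw [eventually_nhdsWithin_iff, Metric.eventually_nhds_iff] at hsum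
  obtain ⟨ε, hε, hsum⟩ := hsum
  -- the bound for the imaginary part
  obtain ⟨Y, hY0, hY⟩ : ∃ Y : ℝ, 0 ≤ Y ∧ ∀ z : ℂ, Y < z.im → ‖ex z‖ < ε := by
    refine ⟨max 0 (-Real.log ε / (2 * Real.pi)), le_max_left _ _, fun z hz => ?_⟩
    have h1 : -Real.log ε / (2 * Real.pi) < z.im := lt_of_le_of_lt (le_max_right _ _) hz
    rw [div_lt_iff₀ (by positivity)] at h1
    rw [norm_ex, ← Real.exp_log hε, Real.exp_lt_exp]
    linarith
  refine ⟨TA', WA', TB', WB', ψ', Y, lψ, twrel_lift rA, twrel_lift rB, ?_, ?_, ?_⟩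
  · rintro rfl
    exact hψ0 (map_zero _)
  · apply pmap_inj
    simp only [map_mul, map_pow, map_sub, PowerSeries.map_X, PowerSeries.map_C, map_div₀, io_wO,
      io_wbO]
    simp only [map_pow] at hrel
    exact hrel
  · intro z hz
    have hz0 : 0 < z.im := lt_of_le_of_lt hY0 hz
    have h1 := hsum (y := ex z) (by rw [dist_zero_right]; exact hY z hz) (ex_ne z)
    simp only [PowerSeries.coeff_map] at h1
    rw [GG_eq Λ hΩ hL, GG_eq Λ hΩ hL, eA z hz0, eB z hz0] at h1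
    exact h1

end Pool.Agent.DI.F
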