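import Pool.Agent.Lib.DI.F.SpecF

set_option autoImplicit false

/-!
# THEOREM DI, Part F: the function Psi is meromorphic and invariant
-/

open scoped Pointwise Topology MatrixGroups
open Filter CongruenceSubgroup

noncomputable section

namespace Pool.Agent.DI.F

open Pool.Agent.MuZ Pool.Agent.DI

namespace PsiInvAux

theorem toC_pO : toC pO = wC := by
  rw [toC_apply]
  simp [pO]

theorem toC_pbO : toC pbO = wbC := by
  rw [toC_apply]
  simp [pbO, wbC]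
  ring

/-- `Gp` under a lattice translation: the sign depends on divisibility. -/
theorem shift (hGp : S_Gp) (hinj : Function.Injective toC) (p pb : ℂ) (hp : PP p pb) (q : OO)
    (hq : toC q = p) (x : ℂ) (v : OO) :
    (q ∣ v → Gp p pb (x + toC v) = Gp p pb x) ∧
      (¬ q ∣ v → Gp p pb (x + toC v) = -Gp p pb x) := by
  obtain ⟨_, h2, h3, _⟩ := hGp p pb hp
  refine ⟨?_, fun hv => h3 x v ?_⟩
  · rintro ⟨v', rfl⟩
    exact h2 x _ v' (by rw [map_mul, hq])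
  · intro v' h
    apply hv
    refine ⟨v', hinj ?_⟩
    rw [h, map_mul, hq]

theorem an (hC6 : S_C6) (hKb : S_Kb) (f : ℕ) (σ : OO → Gal(Om/ℚ)) (β : Om) (N0 : ℤ)
    (hf : Odd f) (h7 : 7 ∣ f) (hσ : FH.IsSig f σ) (hβ : β ∈ Lf f) (z : ℂ) (hz : 0 < z.im) :
    AnalyticAt ℂ (fun z => (N0 : ℂ) * Tb f σ β z / OmC) z := by
  have h1 := (hC6 f hf h7 _ (hKb f σ β hf h7 hσ hβ).2.2.2.2.2.2).1
  have h2 : AnalyticAt ℂ (Tb f σ β) z := by
    have h3 : {z : ℂ | 0 < z.im} ∈ 𝓝 z :=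
      (isOpen_lt continuous_const Complex.continuous_im).mem_nhds hz
    exact h1.analyticAt h3
  have h4 : AnalyticAt ℂ (fun z => (N0 : ℂ) * Tb f σ β z * OmC⁻¹) z :=
    (analyticAt_const.mul h2).mul analyticAt_const
  have h5 : (fun z => (N0 : ℂ) * Tb f σ β z / OmC) = fun z => (N0 : ℂ) * Tb f σ β z * OmC⁻¹ := by
    funext z
    rw [div_eq_mul_inv]
  rw [h5]
  exact h4

end PsiInvAux

open PsiInvAux in
theorem tPsiInv (hC6 : S_C6) (hGp : S_Gp) (hKb : S_Kb) (hUNm : S_UNm) : S_PsiInv := by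
  intro f σ β β' N0 hf h7 hσ hβ hβ'
  obtain ⟨_, _, _, _, _, _, _, _, hinj, _⟩ := hUNm
  refine ⟨fun z hz => ?_, fun hper h0 γ hγ z => ?_⟩
  · have a1 := an hC6 hKb f σ β N0 hf h7 hσ hβ z hz
    have a2 := an hC6 hKb f σ β' N0 hf h7 hσ hβ' z hz
    have m1 : MeromorphicAt (fun z => Gp wC wbC ((N0 : ℂ) * Tb f σ β z / OmC)) z :=
      ((hGp wC wbC (Or.inl ⟨rfl, rfl⟩)).2.2.2 _).comp_analyticAt a1
    have m2 : MeromorphicAt (fun z => Gp wbC wC ((N0 : ℂ) * Tb f σ β' z / OmC)) z :=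
      ((hGp wbC wC (Or.inr ⟨rfl, rfl⟩)).2.2.2 _).comp_analyticAt a2
    exact ((MeromorphicAt.const wC z).mul m1).mul m2
  · obtain ⟨g1, g2, g3⟩ := (Gamma1_mem _ γ).mp hγ
    have hdet : γ 0 0 * γ 1 1 - γ 0 1 * γ 1 0 = 1 := by
      have h := γ.det_coe
      rw [Matrix.det_fin_two] at h
      exact h
    have hc : (7 * (f : ℤ) ^ 2) ∣ γ 1 0 := by
      have h := (ZMod.intCast_zmod_eq_zero_iff_dvd _ _).mp g3
      push_cast at h
      exact h
    have hd : (7 * (f : ℤ) ^ 2) ∣ γ 1 1 - 1 := by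
      have h : ((γ 1 1 - 1 : ℤ) : ZMod (7 * f ^ 2)) = 0 := by
        push_cast
        rw [g2, sub_self]
      have h' := (ZMod.intCast_zmod_eq_zero_iff_dvd _ _).mp h
      push_cast at h'
      exact h'
    obtain ⟨α, α', hpar, hz⟩ := hper (γ 0 0) (γ 0 1) (γ 1 0) (γ 1 1) ⟨hdet, hc⟩ hd
    obtain ⟨e1, e2⟩ := hz (z : ℂ) z.im_pos
    have hco : ((γ • z : UpperHalfPlane) : ℂ) =
        ((γ 0 0 : ℤ) * (z : ℂ) + (γ 0 1 : ℤ)) / ((γ 1 0 : ℤ) * (z : ℂ) + (γ 1 1 : ℤ)) := by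
      rw [UpperHalfPlane.coe_specialLinearGroup_apply]
      simp
    have x1 : ∀ (b : Om) (a : OO), (N0 : ℂ) * (Tb f σ b ((γ • z : UpperHalfPlane) : ℂ) -
        Tb f σ b (z : ℂ)) = OmC * toC a →
        (N0 : ℂ) * Tb f σ b ((γ • z : UpperHalfPlane) : ℂ) / OmC =
          (N0 : ℂ) * Tb f σ b (z : ℂ) / OmC + toC a := by
      intro b a h
      field_simp
      linear_combination h
    rw [← hco] at e1 e2
    unfold PsiF
    rw [x1 β α e1, x1 β' α' e2]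
    have s1 := shift hGp hinj wC wbC (Or.inl ⟨rfl, rfl⟩) pO toC_pO
      ((N0 : ℂ) * Tb f σ β (z : ℂ) / OmC) α
    have s2 := shift hGp hinj wbC wC (Or.inr ⟨rfl, rfl⟩) pbO toC_pbO
      ((N0 : ℂ) * Tb f σ β' (z : ℂ) / OmC) α'
    by_cases h : pO ∣ α
    · rw [s1.1 h, s2.1 (hpar.mp h)]
    · rw [s1.2 h, s2.2 (fun h' => h (hpar.mpr h'))]
      ring

end Pool.Agent.DI.F
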