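import Pool.Agent.Lib.DI.F.SpecF

set_option autoImplicit false

/-!
# THEOREM DI, Part F: finiteness of residues
-/

open scoped Pointwise Topology MatrixGroups
open Filter CongruenceSubgroup

noncomputable section

namespace Pool.Agent.DI.F

open Pool.Agent.MuZ Pool.Agent.DI

namespace ResFinAux

/-- algebraic integers to the valuation ring -/
def j {P : Ideal ZZ} (hP : P.IsPrime) (h0 : P ≠ ⊥) : ZZ →+* VS hP h0 where
  toFun a := ⟨(a : Om), vp_coe hP a⟩
  map_one' := rfl
  map_mul' _ _ := rfl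
  map_zero' := rfl
  map_add' _ _ := rfl

/-- integers of `L` to all algebraic integers -/
def φ (L : IntermediateField ℚ Om) : NumberField.RingOfIntegers L →+* ZZ where
  toFun := fun a => ⟨((a : L) : Om), (a.2).map (IsScalarTower.toAlgHom ℤ L Om)⟩
  map_one' := rfl
  map_mul' := fun _ _ => rfl
  map_zero' := rfl
  map_add' := fun _ _ => rfl

/-- the residue of an integer of `L` -/
def ψ {P : Ideal ZZ} (hP : P.IsPrime) (h0 : P ≠ ⊥) (L : IntermediateField ℚ Om) :
    NumberField.RingOfIntegers L →+* RF hP h0 :=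
  ((IsLocalRing.residue (VS hP h0)).comp (j hP h0)).comp (φ L)

theorem ψ_apply {P : Ideal ZZ} (hP : P.IsPrime) (h0 : P ≠ ⊥) (L : IntermediateField ℚ Om)
    (a : NumberField.RingOfIntegers L) : ψ hP h0 L a = red hP h0 ((a : L) : Om) :=
  (red_of_vp hP h0 (vp_coe hP (φ L a))).symm

theorem lift_mem (L : IntermediateField ℚ Om) (s : ZZ) (hs : (s : Om) ∈ L) :
    ∃ a : NumberField.RingOfIntegers L, ((a : L) : Om) = s := by
  have h1 : IsIntegral ℤ (⟨(s : Om), hs⟩ : L) := by
    have h2 : IsIntegral ℤ ((IsScalarTower.toAlgHom ℤ L Om) (⟨(s : Om), hs⟩ : L)) := s.2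
    exact (isIntegral_algHom_iff (IsScalarTower.toAlgHom ℤ L Om) Subtype.val_injective).1 h2
  exact ⟨⟨⟨(s : Om), hs⟩, h1⟩, rfl⟩

end ResFinAux

open ResFinAux in
theorem tResFin (hFrac : S_Frac) : S_ResFin := by
  intro P hP h0 h2 L hfd
  have hnf : NumberField L := { to_charZero := inferInstance, to_finiteDimensional := hfd }
  have hker : RingHom.ker (ψ hP h0 L) ≠ ⊥ := by
    intro h
    have h3 : (2 : NumberField.RingOfIntegers L) ∈ RingHom.ker (ψ hP h0 L) := by
      rw [RingHom.mem_ker, map_ofNat]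
      have := charP_RF hP h0 h2
      exact CharTwo.two_eq_zero
    rw [h, Ideal.mem_bot] at h3
    exact two_ne_zero h3
  have hfin : Finite (NumberField.RingOfIntegers L ⧸ RingHom.ker (ψ hP h0 L)) :=
    Ideal.finiteQuotientOfFreeOfNeBot _ hker
  have hrange : (Set.range (ψ hP h0 L)).Finite := by
    have h3 : Finite (ψ hP h0 L).range :=
      Finite.of_equiv _ (RingHom.quotientKerEquivRange (ψ hP h0 L)).toEquiv
    have h4 : ((ψ hP h0 L).range : Set (RF hP h0)).Finite := Set.toFinite _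
    rwa [RingHom.coe_range] at h4
  refine (Set.Finite.image2 (fun a b => a / b) hrange hrange).subset ?_
  rintro y ⟨x, hxL, hx, rfl⟩
  obtain ⟨s, t, hs, ht, htP, hst⟩ := hFrac P hP L hfd x hxL hx
  obtain ⟨a, ha⟩ := lift_mem L s hs
  obtain ⟨b, hb⟩ := lift_mem L t ht
  refine ⟨ψ hP h0 L a, ⟨a, rfl⟩, ψ hP h0 L b, ⟨b, rfl⟩, ?_⟩
  have h3 : red hP h0 (t : Om) ≠ 0 := by
    intro h
    exact htP ((mp_coe hP t).1 ((red_eq_zero_iff hP h0 (vp_coe hP t)).1 h))
  have h4 : red hP h0 x * red hP h0 (t : Om) = red hP h0 (s : Om) := by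
    rw [← red_mul hP h0 hx (vp_coe hP t), hst]
  show ψ hP h0 L a / ψ hP h0 L b = red hP h0 x
  rw [ψ_apply, ψ_apply, ha, hb, div_eq_iff h3, h4]

end Pool.Agent.DI.F
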