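import Pool.Agent.Lib.DI.F.SpecF

set_option autoImplicit false

/-!
# DI, Part F: sums over `O/f` and over the Galois group

`S_E1` is used for the existence of `a` with `Psi s f a`.
-/

open scoped Pointwise Topology MatrixGroups
open Filter CongruenceSubgroup

noncomputable section

namespace Pool.Agent.DI.F

open Pool.Agent.MuZ Pool.Agent.DI

namespace SumCAux

/-- the class of `a`: `v = h a` modulo `f` with `h ∈ H_f` -/
def Cl (f : ℕ) (a v : OO) : Prop := ∃ h : OO, Hf f h ∧ (f : OO) ∣ v - h * a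

theorem cl_add {f : ℕ} {a v u : OO} : Cl f a (v + f * u) ↔ Cl f a v := by
  constructor
  · rintro ⟨h, h1, h2⟩
    refine ⟨h, h1, ?_⟩
    have h3 : v - h * a = (v + f * u - h * a) - f * u := by ring
    rw [h3]
    exact dvd_sub h2 (dvd_mul_right _ _)
  · rintro ⟨h, h1, h2⟩
    refine ⟨h, h1, ?_⟩
    have h3 : v + f * u - h * a = (v - h * a) + f * u := by ring
    rw [h3]
    exact dvd_add h2 (dvd_mul_right _ _)

theorem cl_neg {f : ℕ} (hm : Hf f (-1)) (hmul : ∀ v u : OO, Hf f v → Hf f u → Hf f (v * u))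
    {a v : OO} : Cl f a (-v) ↔ Cl f a v := by
  have key : ∀ w : OO, Cl f a w → Cl f a (-w) := by
    rintro w ⟨h, h1, h2⟩
    refine ⟨-1 * h, hmul _ _ hm h1, ?_⟩
    have h3 : -w - -1 * h * a = -(w - h * a) := by ring
    rw [h3]
    exact (dvd_neg).2 h2
  exact ⟨fun h => by simpa using key _ h, key v⟩

theorem cl_mul {f : ℕ} (hper : ∀ v u : OO, Hf f v → Hf f (v + f * u)) {a v : OO}
    (ha : IsCoprime a (f : OO)) : Cl f a (v * a) ↔ Hf f v := by
  constructor
  · rintro ⟨h, h1, h2⟩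
    have h3 : v * a - h * a = a * (v - h) := by ring
    rw [h3] at h2
    obtain ⟨u, hu⟩ := ha.symm.dvd_of_dvd_mul_left h2
    have h4 : v = h + f * u := by rw [← hu]; ring
    rw [h4]
    exact hper h u h1
  · intro h
    exact ⟨v, h, by simp⟩

theorem sumO_sum {A ι : Type} [AddCommMonoid A] (m : ℕ) (S : Finset ι) (F : ι → OO → A) :
    sumO m (fun v => ∑ s ∈ S, F s v) = ∑ s ∈ S, sumO m (F s) := by
  unfold sumO
  rw [Finset.sum_comm]
  rw [← Finset.sum_comm]
  simp_rw [Finset.sum_comm (s := Finset.range m) (t := S)]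

theorem sumO_mul (m : ℕ) (F : OO → ℕ) (c : Om) :
    sumO m (fun v => (F v : Om) * c) = ((sumO m F : ℕ) : Om) * c := by
  unfold sumO
  push_cast
  rw [Finset.sum_mul]
  refine Finset.sum_congr rfl fun x _ => ?_
  rw [Finset.sum_mul]

open Classical in
/-- the number of the residue classes in the class of `a` -/
theorem card_cl (hUSum : S_USum) (hUHN : S_UHN) (hUCop : S_UCop) {f : ℕ} (hf : Odd f) (h7 : 7 ∣ f)
    {a : OO} (ha : Cop a f) : sumO f (fun v => if Cl f a v then 1 else 0) = nH f := by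
  obtain ⟨-, -, -, hper, -⟩ := hUHN f 0 hf h7
  have hc : IsCoprime a (f : OO) := (hUCop.1 a f).1 ha
  have hpos : 0 < f := hf.pos
  have h1 := (hUSum ℕ f (fun v => if Cl f a v then 1 else 0) hpos (fun v u => by
    simp only [cl_add])).2.1 (fun v => v * a) (fun v u => by
      have e : v * a - u * a = (v - u) * a := by ring
      simp only [e]
      exact ⟨fun h => Dvd.dvd.mul_right h a, fun h => hc.symm.dvd_of_dvd_mul_right h⟩)
  rw [← h1]
  unfold nH
  simp only [cl_mul hper hc]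

theorem nH_pos (hUHN : S_UHN) {f : ℕ} (hf : Odd f) (h7 : 7 ∣ f) : 0 < nH f := by
  classical
  obtain ⟨⟨-, -, h1, -⟩, -⟩ := hUHN f 0 hf h7
  have hpos : 0 < f := hf.pos
  have h2 : 7 ≤ f := Nat.le_of_dvd hpos h7
  have e1 : (⟨((1 : ℕ) : ℤ), ((0 : ℕ) : ℤ)⟩ : OO) = 1 := rfl
  unfold nH sumO
  refine Finset.sum_pos' (fun _ _ => Nat.zero_le _) ⟨1, Finset.mem_range.2 (by omega), ?_⟩
  refine Finset.sum_pos' (fun _ _ => Nat.zero_le _) ⟨0, Finset.mem_range.2 (by omega), ?_⟩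
  rw [e1]
  simp only [if_pos h1, Nat.lt_one_iff]

/-- the fibre of `σ` over `s` -/
theorem fib_iff (hGal : S_Gal) (hUHN : S_UHN) (hUCop : S_UCop) {f : ℕ} (hf : Odd f) (h7 : 7 ∣ f)
    {σ : OO → Gal(Om/ℚ)} (hσ : FH.IsSig f σ) {s : Gal(Om/ℚ)} (hs : s ∈ GK) {a : OO}
    (ha : Psi s f a) (v : OO) : (Cop v f ∧ ∀ x ∈ Lf f, s x = σ v x) ↔ Cl f a v := by
  obtain ⟨⟨hm, -, -, -⟩, hmul, -, hper, -, hcop, -⟩ := hUHN f 0 hf h7
  obtain ⟨-, -, -, -, -, -, -, -, h9, -⟩ := hGal f hf h7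
  have key : ∀ w : OO, Cop w f → ((∀ x ∈ Lf f, s x = σ w x) ↔ Cl f a w) := by
    intro w hw
    obtain ⟨h1, h2 | h2⟩ := hσ w hw
    · exact h9 s hs (σ w) h1 a w ha h2
    · exact (h9 s hs (σ w) h1 a (-w) ha h2).trans (cl_neg hm hmul)
  constructor
  · rintro ⟨h1, h2⟩
    exact (key v h1).1 h2
  · intro h
    have hv : Cop v f := by
      obtain ⟨h', h1, u, hu⟩ := h
      have e : v = h' * a + f * u := by rw [← hu]; ring
      rw [e]
      exact (hUCop.2.2.1 _ u f).2 ((hUCop.2.1 h' a f).2 ⟨hcop h' h1, ha.1⟩)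
    exact ⟨hv, (key v hv).2 h⟩

end SumCAux

open SumCAux

theorem tSumC (hE1 : S_E1) (hGal : S_Gal) (hUSum : S_USum) (hUHN : S_UHN) (hUCop : S_UCop) :
    S_SumC := by
  classical
  intro f σ Sg hf h7 hσ hSg
  refine ⟨nH_pos hUHN hf h7, fun F hF => ?_⟩
  have hpos : 0 < f := hf.pos
  have hI : ∀ s ∈ Sg, sumO f (fun v => if Cop v f ∧ ∀ x ∈ Lf f, s x = σ v x then 1 else 0) =
      nH f := by
    intro s hs
    obtain ⟨a, ha⟩ := hE1.1 s (hSg.mem s hs) f hpos
    rw [← card_cl hUSum hUHN hUCop hf h7 ha.1]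
    simp only [fib_iff hGal hUHN hUCop hf h7 hσ (hSg.mem s hs) ha]
  have hL : (fun v => if Cop v f then F (σ v) else 0) = fun v => ∑ s ∈ Sg,
      (((if Cop v f ∧ ∀ x ∈ Lf f, s x = σ v x then 1 else 0 : ℕ)) : Om) * F s := by
    funext v
    by_cases hv : Cop v f
    · obtain ⟨s0, h0, h1⟩ := hSg.ex (σ v) (hσ v hv).1
      rw [if_pos hv, Finset.sum_eq_single s0]
      · rw [if_pos ⟨hv, h1⟩, Nat.cast_one, one_mul]
        exact hF _ (hσ v hv).1 _ (hSg.mem s0 h0) fun x hx => (h1 x hx).symm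
      · intro s hs hne
        rw [if_neg, Nat.cast_zero, zero_mul]
        rintro ⟨-, h2⟩
        exact hne (hSg.uni s hs s0 h0 fun x hx => (h2 x hx).trans (h1 x hx).symm)
      · intro h
        exact absurd h0 h
    · rw [if_neg hv]
      refine (Finset.sum_eq_zero fun s _ => ?_).symm
      rw [if_neg (fun h => hv h.1), Nat.cast_zero, zero_mul]
  rw [hL, sumO_sum f Sg (fun s v =>
    (((if Cop v f ∧ ∀ x ∈ Lf f, s x = σ v x then 1 else 0 : ℕ)) : Om) * F s), Finset.mul_sum]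
  refine Finset.sum_congr rfl fun s hs => ?_
  rw [sumO_mul, hI s hs]

end Pool.Agent.DI.F
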