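import Pool.Agent.Lib.DI.F.SpecT

set_option autoImplicit false

/-!
# THEOREM DI (MP_d0239a_nt), Part F: the module TWcomp, Taylor series of T(u(q)), W(u(q)) (helper3)
-/

namespace Pool.Agent.DI.F

open Filter Topology

namespace TWcompAux

/-- `f` is analytic at `0` with Taylor series `p` -/
private def Rep (f : ℂ → ℂ) (p : PowerSeries ℂ) : Prop := AnalyticAt ℂ f 0 ∧ tay f = p

private theorem Rep.add (h : S_Tay) {f g : ℂ → ℂ} {p r : PowerSeries ℂ} (hf : Rep f p)
    (hg : Rep g r) : Rep (fun q => f q + g q) (p + r) :=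
  ⟨hf.1.add hg.1, by rw [h.2.2.1 f g hf.1 hg.1, hf.2, hg.2]⟩

private theorem Rep.mul (h : S_Tay) {f g : ℂ → ℂ} {p r : PowerSeries ℂ} (hf : Rep f p)
    (hg : Rep g r) : Rep (fun q => f q * g q) (p * r) :=
  ⟨hf.1.mul hg.1, by rw [h.2.2.2.1 f g hf.1 hg.1, hf.2, hg.2]⟩

private theorem Rep.const (h : S_Tay) (c : ℂ) : Rep (fun _ => c) (PowerSeries.C c) :=
  ⟨analyticAt_const, h.2.2.2.2.1.1 c⟩

private theorem Rep.deriv' (h : S_Tay) {f : ℂ → ℂ} {p : PowerSeries ℂ} (hf : Rep f p) :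
    Rep (deriv f) (PowerSeries.derivative ℂ p) :=
  ⟨hf.1.deriv, by rw [h.2.2.2.2.2.1 f hf.1, hf.2]⟩

private theorem Rep.eq (h : S_Tay) {f g : ℂ → ℂ} {p r : PowerSeries ℂ} (hf : Rep f p)
    (hg : Rep g r) (hfg : f =ᶠ[𝓝 0] g) : p = r := by
  rw [← hf.2, ← hg.2]
  exact h.2.2.2.2.2.2 f g hfg

private theorem coeff_zero_tay (f : ℂ → ℂ) : PowerSeries.coeff 0 (tay f) = f 0 := by
  simp [tay]

private theorem coeff_zero_mul' (p r : PowerSeries ℂ) :
    PowerSeries.coeff 0 (p * r) = PowerSeries.coeff 0 p * PowerSeries.coeff 0 r := by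
  simp only [PowerSeries.coeff_zero_eq_constantCoeff_apply, map_mul]

end TWcompAux

open TWcompAux

theorem tTWcomp (hTay : S_Tay) (hCo : S_Co) (hTW : S_TW) : S_TWcomp := by
  intro Λ hg2 hg3 k u hu hu0
  obtain ⟨hT, hW, hcurve, hdiff, ⟨t, w, ht, hw, ht0, hw0, hTt, hWw⟩, -⟩ := hTW Λ hg2 hg3 k
  have hcomp := (hCo k).2.2.2.2.1
  have hTu := hcomp _ _ hT hu hu0
  have hWu := hcomp _ _ hW hu hu0
  have htu := hcomp _ _ ht hu hu0
  have hwu := hcomp _ _ hw hu hu0
  refine ⟨hTu, hWu, ?_⟩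
  have hcont : Tendsto u (𝓝 0) (𝓝 0) := by
    have h := hu.1.continuousAt
    rw [ContinuousAt, hu0] at h
    exact h
  have rT : Rep (fun q => Tf Λ (u q)) (tay fun q => Tf Λ (u q)) := ⟨hTu.1, rfl⟩
  have rW : Rep (fun q => Wf Λ (u q)) (tay fun q => Wf Λ (u q)) := ⟨hWu.1, rfl⟩
  have ru : Rep u (tay u) := ⟨hu.1, rfl⟩
  have rt : Rep (fun q => t (u q)) (tay fun q => t (u q)) := ⟨htu.1, rfl⟩
  have rw' : Rep (fun q => w (u q)) (tay fun q => w (u q)) := ⟨hwu.1, rfl⟩
  have r2 : Rep (fun _ => (2 : ℂ)) (2 : PowerSeries ℂ) := by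
    have h := Rep.const hTay 2
    rwa [map_ofNat] at h
  have rm1 : Rep (fun _ => (-1 : ℂ)) (-1 : PowerSeries ℂ) := by
    have h := Rep.const hTay (-1)
    rwa [map_neg, map_one] at h
  have h1 := hcont.eventually hcurve
  have h2 := hcont.eventually hdiff
  -- products
  have eT := Rep.eq hTay rT (ru.mul hTay rt) (Eventually.of_forall fun q => hTt (u q))
  have eW := Rep.eq hTay rW ((ru.mul hTay (ru.mul hTay ru)).mul hTay rw')
    (Eventually.of_forall fun q => by
      show Wf Λ (u q) = u q * (u q * u q) * w (u q)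
      rw [hWw (u q)]
      ring)
  have c0 : PowerSeries.coeff 0 (tay u) = 0 := by rw [coeff_zero_tay, hu0]
  obtain ⟨p, hp⟩ : PowerSeries.X ∣ tay u := by
    rw [PowerSeries.X_dvd_iff, ← PowerSeries.coeff_zero_eq_constantCoeff_apply]
    exact c0
  have ct : PowerSeries.coeff 0 (tay fun q => t (u q)) = 1 := by
    rw [coeff_zero_tay, hu0, ht0]
  have cw : PowerSeries.coeff 0 (tay fun q => w (u q)) = 1 := by
    rw [coeff_zero_tay, hu0, hw0]
  have eT' : (tay fun q => Tf Λ (u q)) = PowerSeries.X * (p * tay fun q => t (u q)) := by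
    rw [eT, hp]
    ring
  have eW' : (tay fun q => Wf Λ (u q)) =
      PowerSeries.X ^ 3 * (p * p * p * tay fun q => w (u q)) := by
    rw [eW, hp]
    ring
  have c1 : PowerSeries.coeff 1 (tay u) = PowerSeries.coeff 0 p := by
    rw [hp, show (1 : ℕ) = 0 + 1 from rfl, PowerSeries.coeff_succ_X_mul]
  refine ⟨?_, ?_, ?_, ?_, ?_, ?_, ?_, ?_⟩
  · -- curve
    have hL := ((rW.add hTay ((rT.mul hTay rT).mul hTay rW)).add hTay
      (r2.mul hTay (rT.mul hTay (rW.mul hTay rW)))).add hTay ((rW.mul hTay rW).mul hTay rW)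
    have hR := ((rT.mul hTay rT).mul hTay rT).add hTay (rT.mul hTay rW)
    have h := Rep.eq hTay hL hR (h1.mono fun q hq => by
      simp only
      linear_combination hq)
    linear_combination h
  · -- differential
    have hL := (rT.deriv' hTay).mul hTay rW
    have hR := (rT.mul hTay (rW.deriv' hTay)).add hTay
      (((rT.add hTay (rm1.mul hTay r2)).mul hTay rW).mul hTay (ru.deriv' hTay))
    have dT : ∀ᶠ q in 𝓝 (0 : ℂ), deriv (fun q => Tf Λ (u q)) q = deriv (Tf Λ) (u q) * deriv u q := by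
      have a1 := hcont.eventually hT.1.eventually_analyticAt
      filter_upwards [a1, hu.1.eventually_analyticAt] with q hq1 hq2
      exact deriv_comp q hq1.differentiableAt hq2.differentiableAt
    have dW : ∀ᶠ q in 𝓝 (0 : ℂ), deriv (fun q => Wf Λ (u q)) q = deriv (Wf Λ) (u q) * deriv u q := by
      have a1 := hcont.eventually hW.1.eventually_analyticAt
      filter_upwards [a1, hu.1.eventually_analyticAt] with q hq1 hq2
      exact deriv_comp q hq1.differentiableAt hq2.differentiableAt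
    have h := Rep.eq hTay hL hR (by
      filter_upwards [h2, dT, dW] with q hq hq1 hq2
      simp only [hq1, hq2]
      linear_combination (deriv u q) * hq)
    linear_combination h
  · rw [coeff_zero_tay, hu0, hTt 0, zero_mul]
  · rw [c1, eT', show (1 : ℕ) = 0 + 1 from rfl, PowerSeries.coeff_succ_X_mul, coeff_zero_mul', ct,
      mul_one]
  · rw [coeff_zero_tay, hu0, hWw 0]
    ring
  · rw [eW', PowerSeries.coeff_X_pow_mul']
    simp
  · rw [eW', PowerSeries.coeff_X_pow_mul']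
    simp
  · rw [c1, eW', PowerSeries.coeff_X_pow_mul', if_pos le_rfl, Nat.sub_self, coeff_zero_mul',
      coeff_zero_mul', coeff_zero_mul', cw]
    ring

end Pool.Agent.DI.F
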