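import Pool.Agent.Lib.DI.F.SpecF

set_option autoImplicit false

/-!
# THEOREM DI, Part F: the q-expansion (F3)
-/

open scoped Pointwise Topology MatrixGroups
open Filter

noncomputable section

namespace Pool.Agent.DI.F

open Pool.Agent.MuZ Pool.Agent.DI

namespace uHasAux

theorem uF_eq (f : ℕ) (σ : OO → Gal(Om/ℚ)) (N0 : ℤ) (β : Om) (v : OO) :
    FH.uF f σ N0 β v = (N0 : Om) * (eps v : Om) * kb f σ β v / toO v := by
  unfold FH.uF kb
  split_ifs
  · rfl
  · rw [mul_zero, zero_div]

theorem coeff_uS (f : ℕ) (σ : OO → Gal(Om/ℚ)) (N0 : ℤ) (β : Om) (n : ℕ) :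
    PowerSeries.coeff n (FH.uS f σ N0 β) =
      (∑ v ∈ FH.lev n, (N0 : Om) * (eps v : Om) * kb f σ β v / toO v) / 2 := by
  unfold FH.uS FH.thS
  rw [PowerSeries.coeff_mk]
  congr 1
  exact Finset.sum_congr rfl fun v _ => uF_eq f σ N0 β v

theorem fib (n : ℕ) : (fun v : OO => (Nm v).toNat) ⁻¹' {n} = (↑(FH.lev n) : Set OO) := by
  ext v
  rw [Set.mem_preimage, Set.mem_singleton_iff, Finset.mem_coe, FH.mem_lev]
  have h := FH.Nm_nonneg v
  omega

theorem ex_pow (n : ℕ) (z : ℂ) : ex ((n : ℂ) * z) = ex z ^ n := by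
  unfold ex
  rw [← Complex.exp_nat_mul]
  congr 1
  ring

theorem sqOne (x : ℤ) (h : x ^ 2 = 1) : x = 1 ∨ x = -1 := by
  have h1 : (x - 1) * (x + 1) = 0 := by linear_combination h
  rcases mul_eq_zero.1 h1 with h2 | h2
  · exact Or.inl (by omega)
  · exact Or.inr (by omega)

theorem lev_one : FH.lev 1 = {1, -1} := by
  ext v
  rw [FH.mem_lev, Finset.mem_insert, Finset.mem_singleton]
  constructor
  · intro h
    have h1 := FH.im_sq_le v
    rw [h] at h1
    have h2 : v.im = 0 := by
      have h3 : v.im ^ 2 < 1 := by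
        push_cast at h1
        linarith
      have h4 : v.im ^ 2 = 0 := le_antisymm (Int.lt_add_one_iff.1 (by simpa using h3)) (sq_nonneg _)
      exact pow_eq_zero_iff two_ne_zero |>.1 h4
    unfold Nm at h
    rw [h2] at h
    have h5 : v.re ^ 2 = 1 := by
      push_cast at h
      linarith
    rcases sqOne v.re h5 with h6 | h6
    · left
      ext
      · exact h6
      · exact h2
    · right
      ext
      · exact h6
      · change v.im = -0
        rw [h2, neg_zero]
  · rintro (rfl | rfl)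
    · rfl
    · rfl
end uHasAux

open uHasAux in
theorem tuHas (hC6 : S_C6) (_hUNm : S_UNm) (hUEps : S_UEps) (hGal : S_Gal) (hKb : S_Kb) :
    S_uHas := by
  intro f σ β N0 hf h7 hσ hβ
  obtain ⟨_, hwO, _⟩ := hGal f hf h7
  obtain ⟨_, _, _, kneg, kone, kmem, krho⟩ := hKb f σ β hf h7 hσ hβ
  obtain ⟨_, hsum, _⟩ := hC6 f hf h7 _ krho
  obtain ⟨_, _, eneg, _, eint, _⟩ := hUEps
  refine ⟨?_, ?_, ?_, ?_⟩
  · intro z hz
    have hS := (hsum z hz).hasSum
    have hS2 := hS.mul_left ((N0 : ℂ) * (1 / 2))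
    have hval : (N0 : ℂ) * (1 / 2) *
        ∑' v : OO, (eps v : ℂ) * io (kb f σ β v) / toC v * ex (Nm v * z) =
        (N0 : ℂ) * Tb f σ β z := by
      unfold Tb Th
      rw [mul_assoc]
    rw [hval] at hS2
    have hS3 := hS2.tsum_fiberwise (fun v : OO => (Nm v).toNat)
    have hfun : (fun n : ℕ => ∑' b : ((fun v : OO => (Nm v).toNat) ⁻¹' {n} : Set OO),
        (N0 : ℂ) * (1 / 2) * ((eps (b : OO) : ℂ) * io (kb f σ β b) / toC b * ex (Nm (b : OO) * z))) =
        fun n : ℕ => io (PowerSeries.coeff n (FH.uS f σ N0 β)) * ex z ^ n := by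
      funext n
      rw [fib n]
      rw [Finset.tsum_subtype' (FH.lev n) (fun b : OO =>
        (N0 : ℂ) * (1 / 2) * ((eps b : ℂ) * io (kb f σ β b) / toC b * ex (Nm b * z)))]
      rw [coeff_uS, map_div₀, map_sum, map_ofNat, div_mul_eq_mul_div, Finset.sum_mul,
        Finset.sum_div]
      refine Finset.sum_congr rfl fun v hv => ?_
      have hn : (Nm v : ℂ) = (n : ℂ) := by
        rw [FH.mem_lev.1 hv]
        push_cast
        rfl
      rw [hn, ex_pow, map_div₀, map_mul, map_mul, map_intCast, map_intCast, io_toO]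
      ring
    rw [hfun] at hS3
    exact hS3
  · rw [coeff_uS]
    have h0 : ∑ v ∈ FH.lev 0, (N0 : Om) * (eps v : Om) * kb f σ β v / toO v = 0 := by
      refine Finset.sum_eq_zero fun v hv => ?_
      have h1 : ¬ Cop v f := by
        intro h
        unfold Cop at h
        rw [FH.mem_lev.1 hv] at h
        have h2 : IsUnit (f : ℤ) := by
          rw [Nat.cast_zero, isCoprime_zero_left] at h
          exact h
        rw [Int.isUnit_iff] at h2
        omega
      unfold kb
      rw [if_neg h1, mul_zero, zero_div]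
    rw [h0, zero_div]
  · rw [coeff_uS, lev_one]
    have hne : (1 : OO) ∉ ({-1} : Finset OO) := by
      rw [Finset.mem_singleton]
      intro h
      have h1 := congrArg QuadraticAlgebra.re h
      change (1 : ℤ) = -1 at h1
      omega
    rw [Finset.sum_insert hne, Finset.sum_singleton]
    have e1 : eps 1 = 1 := by
      have h := eint 1
      rw [Int.cast_one, jacobiSym.one_left] at h
      exact h
    have e2 : eps (-1) = -1 := by rw [eneg, e1]
    have k2 : kb f σ β (-1) = β := by rw [kneg, kone]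
    rw [e1, e2, kone, k2, map_neg, map_one]
    push_cast
    have h2 : (2 : Om) ≠ 0 := two_ne_zero
    field_simp
    ring
  · intro n
    rw [coeff_uS]
    refine div_mem (sum_mem fun v _ => ?_) ?_
    · refine div_mem (mul_mem (mul_mem (intCast_mem _ _) (intCast_mem _ _)) (kmem v)) ?_
      have h1 : toO v = (v.re : Om) + (v.im : Om) * wO := rfl
      rw [h1]
      exact add_mem (intCast_mem _ _) (mul_mem (intCast_mem _ _) hwO)
    · exact ofNat_mem _ 2

end Pool.Agent.DI.F
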