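import Pool.Agent.Lib.DI.F.Asm
import Pool.Agent.Lib.DI.F.Beta
import Pool.Agent.Lib.DI.F.Cc
import Pool.Agent.Lib.DI.F.Chi
import Pool.Agent.Lib.DI.F.Cj
import Pool.Agent.Lib.DI.F.Co
import Pool.Agent.Lib.DI.F.Dist
import Pool.Agent.Lib.DI.F.EtaM
import Pool.Agent.Lib.DI.F.EtaP
import Pool.Agent.Lib.DI.F.F1
import Pool.Agent.Lib.DI.F.F3core
import Pool.Agent.Lib.DI.F.Fg
import Pool.Agent.Lib.DI.F.Frac
import Pool.Agent.Lib.DI.F.Gal
import Pool.Agent.Lib.DI.F.Gam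
import Pool.Agent.Lib.DI.F.Gp
import Pool.Agent.Lib.DI.F.KP
import Pool.Agent.Lib.DI.F.Kb
import Pool.Agent.Lib.DI.F.Lam
import Pool.Agent.Lib.DI.F.Lin
import Pool.Agent.Lib.DI.F.P01
import Pool.Agent.Lib.DI.F.Per
import Pool.Agent.Lib.DI.F.PsiCusp
import Pool.Agent.Lib.DI.F.PsiExp
import Pool.Agent.Lib.DI.F.PsiInv
import Pool.Agent.Lib.DI.F.ResFin
import Pool.Agent.Lib.DI.F.SumC
import Pool.Agent.Lib.DI.F.TW
import Pool.Agent.Lib.DI.F.TWcomp
import Pool.Agent.Lib.DI.F.Tay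
import Pool.Agent.Lib.DI.F.uHas
import Pool.Agent.Lib.DI.F5.All
import Pool.Agent.Lib.DI.Util.UCop
import Pool.Agent.Lib.DI.Util.UEps
import Pool.Agent.Lib.DI.Util.UHN
import Pool.Agent.Lib.DI.Util.UNm
import Pool.Agent.Lib.DI.Util.USum

set_option autoImplicit false

/-!
# THEOREM DI, Part F: all modules of Part F, assembled

`tF` derives `S_F` from the statements of the other parts (the statements `S_U…` of the folder
`Util` and `DIF5.S_W2` are already proved and plugged in).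
-/

noncomputable section

namespace Pool.Agent.DI.F

open Pool.Agent.DI

theorem tF (hFH : FH.S_FH) (hA0 : S_A0) (hA1 : S_A1) (hB0 : S_B0) (hB1 : S_B1)
    (hB2 : S_B2) (hB3 : S_B3) (hB6 : S_B6) (hB7 : S_B7) (hB12 : S_B12) (hB14 : S_B14)
    (hC1 : S_C1) (hC2 : S_C2) (hC5 : S_C5) (hC6 : S_C6) (hE1 : S_E1) (hE3 : S_E3) (hE7 : S_E7)
    (hE8 : S_E8) (hE9 : S_E9) (hE11 : S_E11) (hE14 : S_E14) : S_F := by
  have hGal : S_Gal := tGal hE1 hE7 hE8 hE9 tUHN tUCop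
  have hDist : S_Dist := tDist hE9 tFrac
  have hCc : S_Cc := tCc
  have hKP : S_KP := tKP hCc
  have hResFin : S_ResFin := tResFin tFrac
  have hChi : S_Chi := tChi hE1 hGal tUHN
  have hCj : S_Cj := tCj hB12 hA0 hCc tUNm
  have hSumC : S_SumC := tSumC hE1 hGal tUSum tUHN tUCop
  have hBeta : S_Beta := tBeta tLin hResFin hDist hCc hKP hGal
  have hKb : S_Kb := tKb hGal tUHN tUCop tUEps
  have hPer : S_Per := tPer hGal hSumC hKb
  have hEtaP : S_EtaP := tEtaP hB0 hC1 hE11 hGal hSumC hChi tUEps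
  have hEtaM : S_EtaM :=
    tEtaM hB0 hC5 hE11 hGal hChi hCc hCj hEtaP tUEps tUNm tUHN tUCop
  have hF1 : S_F1 :=
    tF1 hB0 hB12 hA1 hGal hChi hCc hKP hCj tFg hBeta hPer hEtaP hEtaM tUNm
  have hGp : S_Gp := tGp hB0 hB1 hB2 hB3 hB6 hB7 hB14
  have hLam : S_Lam := tLam hB0 hB1 hB3
  have hPsiInv : S_PsiInv := tPsiInv hC6 hGp hKb tUNm
  have hPsiCusp : S_PsiCusp := tPsiCusp hC2 hGp hKb
  have huHas : S_uHas := tuHas hC6 tUNm tUEps hGal hKb
  have hCo : S_Co := tCo tTay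
  have hP01 : S_P01 := tP01 tTay hCo
  have hTW : S_TW := tTW tTay hCo hP01
  have hGam : S_Gam := tGam hCo hP01
  have hTWcomp : S_TWcomp := tTWcomp tTay hCo hTW
  have hF3core : S_F3core := tF3core tTay hCo hTW hGam hTWcomp
  have hPsiExp : S_PsiExp := tPsiExp hB0 hGp hLam huHas hGal hF3core
  exact asm hFH DIF5.tW2 hB0 hE1 hE3 hE8 hE9 hE14 hGal hF1 hPsiInv hPsiCusp hPsiExp

end Pool.Agent.DI.F

end
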