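import Pool.Agent.Lib.DI.Defs

/-!
# Theorem DI: basic facts on the valuation ring `V_P`

`P` is a prime ideal of the ring `ZZ` of all algebraic integers. `VP P` is a ring, `MP P` its maximal
ideal, a valuation ring if `P ≠ 0`.
-/

set_option autoImplicit false
set_option linter.unusedSectionVars false

open scoped Pointwise

noncomputable section

namespace Pool.Agent.DI.F

open Pool.Agent.MuZ Pool.Agent.DI

section basic

variable {P : Ideal ZZ} (hP : P.IsPrime) {x y : Om}

include hP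

theorem one_notMem : (1 : ZZ) ∉ P := fun h => hP.ne_top (P.eq_top_of_isUnit_mem h isUnit_one)

theorem mul_notMem {a b : ZZ} (ha : a ∉ P) (hb : b ∉ P) : a * b ∉ P := by
  intro h
  rcases hP.mem_or_mem h with h1 | h1
  · exact ha h1
  · exact hb h1

theorem vp_coe (a : ZZ) : VP P (a : Om) := by
  refine ⟨a, 1, one_notMem hP, ?_⟩
  rw [OneMemClass.coe_one, mul_one]

theorem vp_integral (h : IsIntegral ℤ x) : VP P x := vp_coe hP ⟨x, h⟩

theorem vp_intCast (n : ℤ) : VP P (n : Om) := by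
  have h := vp_coe hP (n : ZZ)
  have h1 : (((n : ZZ) : ZZ) : Om) = (n : Om) := map_intCast (algebraMap ZZ Om) n
  rwa [h1] at h

theorem vp_natCast (n : ℕ) : VP P (n : Om) := by
  have h := vp_intCast hP n
  rwa [Int.cast_natCast] at h

theorem vp_zero : VP P 0 := by
  have h := vp_natCast hP 0
  rwa [Nat.cast_zero] at h

theorem vp_one : VP P 1 := by
  have h := vp_natCast hP 1
  rwa [Nat.cast_one] at h

theorem coe_ne_zero_of_notMem {b : ZZ} (hb : b ∉ P) : (b : Om) ≠ 0 := by
  intro h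
  have h1 : b = 0 := Subtype.ext h
  rw [h1] at hb
  exact hb P.zero_mem

theorem vp_add (hx : VP P x) (hy : VP P y) : VP P (x + y) := by
  obtain ⟨a, b, hb, h⟩ := hx
  obtain ⟨a', b', hb', h'⟩ := hy
  refine ⟨a * b' + a' * b, b * b', mul_notMem hP hb hb', ?_⟩
  push_cast
  linear_combination (b' : Om) * h + (b : Om) * h'

theorem vp_mul (hx : VP P x) (hy : VP P y) : VP P (x * y) := by
  obtain ⟨a, b, hb, h⟩ := hx
  obtain ⟨a', b', hb', h'⟩ := hy
  refine ⟨a * a', b * b', mul_notMem hP hb hb', ?_⟩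
  push_cast
  linear_combination (y * b' : Om) * h + (a : Om) * h'

theorem vp_neg (hx : VP P x) : VP P (-x) := by
  obtain ⟨a, b, hb, h⟩ := hx
  refine ⟨-a, b, hb, ?_⟩
  push_cast
  linear_combination -h

theorem vp_sub (hx : VP P x) (hy : VP P y) : VP P (x - y) := by
  rw [sub_eq_add_neg]
  exact vp_add hP hx (vp_neg hP hy)

theorem vp_pow (hx : VP P x) (n : ℕ) : VP P (x ^ n) := by
  induction n with
  | zero => rw [pow_zero]; exact vp_one hP
  | succ n ih => rw [pow_succ]; exact vp_mul hP ih hx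

theorem vp_sum {ι : Type} (s : Finset ι) (f : ι → Om) (h : ∀ i ∈ s, VP P (f i)) :
    VP P (∑ i ∈ s, f i) := by
  classical
  induction s using Finset.induction_on with
  | empty => rw [Finset.sum_empty]; exact vp_zero hP
  | insert i s hi ih =>
      rw [Finset.sum_insert hi]
      exact vp_add hP (h i (Finset.mem_insert_self i s))
        (ih fun j hj => h j (Finset.mem_insert_of_mem hj))

theorem vp_prod {ι : Type} (s : Finset ι) (f : ι → Om) (h : ∀ i ∈ s, VP P (f i)) :
    VP P (∏ i ∈ s, f i) := by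
  classical
  induction s using Finset.induction_on with
  | empty => rw [Finset.prod_empty]; exact vp_one hP
  | insert i s hi ih =>
      rw [Finset.prod_insert hi]
      exact vp_mul hP (h i (Finset.mem_insert_self i s))
        (ih fun j hj => h j (Finset.mem_insert_of_mem hj))

omit hP in
theorem mp_vp (hx : MP P x) : VP P x := by
  obtain ⟨a, b, _, hb, h⟩ := hx
  exact ⟨a, b, hb, h⟩

theorem mp_coe (a : ZZ) : MP P (a : Om) ↔ a ∈ P := by
  constructor
  · rintro ⟨a', b, ha', hb, h⟩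
    have h1 : a * b = a' := Subtype.ext h
    have h2 : a * b ∈ P := h1 ▸ ha'
    exact (hP.mem_or_mem h2).resolve_right hb
  · intro h
    refine ⟨a, 1, h, one_notMem hP, ?_⟩
    rw [OneMemClass.coe_one, mul_one]

theorem mp_zero : MP P 0 := ⟨0, 1, P.zero_mem, one_notMem hP, by simp⟩

theorem not_mp_one : ¬ MP P 1 := by
  intro h
  have h1 : MP P ((1 : ZZ) : Om) := h
  exact one_notMem hP ((mp_coe hP 1).1 h1)

theorem mp_add (hx : MP P x) (hy : MP P y) : MP P (x + y) := by
  obtain ⟨a, b, ha, hb, h⟩ := hx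
  obtain ⟨a', b', ha', hb', h'⟩ := hy
  refine ⟨a * b' + a' * b, b * b', P.add_mem (P.mul_mem_right _ ha) (P.mul_mem_right _ ha'),
    mul_notMem hP hb hb', ?_⟩
  push_cast
  linear_combination (b' : Om) * h + (b : Om) * h'

theorem mp_mul_vp (hx : MP P x) (hy : VP P y) : MP P (x * y) := by
  obtain ⟨a, b, ha, hb, h⟩ := hx
  obtain ⟨a', b', hb', h'⟩ := hy
  refine ⟨a * a', b * b', P.mul_mem_right _ ha, mul_notMem hP hb hb', ?_⟩
  push_cast
  linear_combination (y * b' : Om) * h + (a : Om) * h'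

theorem vp_mul_mp (hx : VP P x) (hy : MP P y) : MP P (x * y) := by
  rw [mul_comm]
  exact mp_mul_vp hP hy hx

theorem mp_neg (hx : MP P x) : MP P (-x) := by
  have h := mp_mul_vp hP hx (vp_neg hP (vp_one hP))
  rwa [mul_neg, mul_one] at h

theorem mp_sub (hx : MP P x) (hy : MP P y) : MP P (x - y) := by
  rw [sub_eq_add_neg]
  exact mp_add hP hx (mp_neg hP hy)

theorem mp_sum {ι : Type} (s : Finset ι) (f : ι → Om) (h : ∀ i ∈ s, MP P (f i)) :
    MP P (∑ i ∈ s, f i) := by
  classical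
  induction s using Finset.induction_on with
  | empty => rw [Finset.sum_empty]; exact mp_zero hP
  | insert i s hi ih =>
      rw [Finset.sum_insert hi]
      exact mp_add hP (h i (Finset.mem_insert_self i s))
        (ih fun j hj => h j (Finset.mem_insert_of_mem hj))

/-- `MP P` is a prime ideal of `VP P`. -/
theorem mp_or (hx : VP P x) (hy : VP P y) (h : MP P (x * y)) : MP P x ∨ MP P y := by
  obtain ⟨a, b, hb, h1⟩ := hx
  obtain ⟨a', b', hb', h2⟩ := hy
  obtain ⟨a'', b'', ha'', hb'', h3⟩ := h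
  have h4 : a * a' * b'' = a'' * b * b' := by
    apply Subtype.ext
    push_cast
    rw [← h1, ← h2, ← h3]
    ring
  have h5 : a * a' * b'' ∈ P := by
    rw [h4]
    exact P.mul_mem_right _ (P.mul_mem_right _ ha'')
  rcases hP.mem_or_mem ((hP.mem_or_mem h5).resolve_right hb'') with h6 | h6
  · exact Or.inl ⟨a, b, h6, hb, h1⟩
  · exact Or.inr ⟨a', b', h6, hb', h2⟩

theorem mp_pow_iff (hx : VP P x) {n : ℕ} (hn : n ≠ 0) : MP P (x ^ n) ↔ MP P x := by
  constructor
  · intro h
    induction n with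
    | zero => exact absurd rfl hn
    | succ n ih =>
        rw [pow_succ] at h
        rcases mp_or hP (vp_pow hP hx n) hx h with h1 | h1
        · rcases Nat.eq_zero_or_pos n with h2 | h2
          · rw [h2, pow_zero] at h1
            exact absurd h1 (not_mp_one hP)
          · exact ih h2.ne' h1
        · exact h1
  · intro h
    obtain ⟨m, rfl⟩ := Nat.exists_eq_succ_of_ne_zero hn
    rw [pow_succ]
    exact vp_mul_mp hP (vp_pow hP hx m) h

theorem up_ne_zero (hx : UP P x) : x ≠ 0 := by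
  intro h
  rw [h] at hx
  exact hx.2 (mp_zero hP)

/-- Units have inverses in `VP P`. -/
theorem up_inv (hx : UP P x) : UP P x⁻¹ := by
  have h0 := up_ne_zero hP hx
  obtain ⟨⟨a, b, hb, h⟩, h1⟩ := hx
  have ha : a ∉ P := fun ha => h1 ⟨a, b, ha, hb, h⟩
  have hb0 := coe_ne_zero_of_notMem hP hb
  have ha0 := coe_ne_zero_of_notMem hP ha
  have h2 : x⁻¹ * (a : Om) = b := by
    rw [← h]
    field_simp
  refine ⟨⟨b, a, ha, h2⟩, ?_⟩
  rintro ⟨a', b', ha', hb', h3⟩
  have h4 : b * b' = a' * a := by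
    apply Subtype.ext
    push_cast
    rw [← h2, ← h3]
    ring
  have h5 : b * b' ∈ P := by
    rw [h4]
    exact P.mul_mem_right _ ha'
  rcases hP.mem_or_mem h5 with h6 | h6
  · exact hb h6
  · exact hb' h6

theorem up_one : UP P 1 := ⟨vp_one hP, not_mp_one hP⟩

theorem up_mul (hx : UP P x) (hy : UP P y) : UP P (x * y) :=
  ⟨vp_mul hP hx.1 hy.1, fun h => (mp_or hP hx.1 hy.1 h).elim hx.2 hy.2⟩

theorem up_neg (hx : UP P x) : UP P (-x) :=
  ⟨vp_neg hP hx.1, fun h => hx.2 (by have h1 := mp_neg hP h; rwa [neg_neg] at h1)⟩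

theorem up_pow (hx : UP P x) (n : ℕ) : UP P (x ^ n) := by
  induction n with
  | zero => rw [pow_zero]; exact up_one hP
  | succ n ih => rw [pow_succ]; exact up_mul hP ih hx

theorem up_div (hx : UP P x) (hy : UP P y) : UP P (x / y) := by
  rw [div_eq_mul_inv]
  exact up_mul hP hx (up_inv hP hy)

theorem up_prod {ι : Type} (s : Finset ι) (f : ι → Om) (h : ∀ i ∈ s, UP P (f i)) :
    UP P (∏ i ∈ s, f i) := by
  classical
  induction s using Finset.induction_on with
  | empty => rw [Finset.prod_empty]; exact up_one hP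
  | insert i s hi ih =>
      rw [Finset.prod_insert hi]
      exact up_mul hP (h i (Finset.mem_insert_self i s))
        (ih fun j hj => h j (Finset.mem_insert_of_mem hj))

/-- A unit plus an element of the maximal ideal is a unit. -/
theorem up_add_mp (hx : UP P x) (hy : MP P y) : UP P (x + y) :=
  ⟨vp_add hP hx.1 (mp_vp hy), fun h => hx.2 (by have h1 := mp_sub hP h hy; rwa [add_sub_cancel_right] at h1)⟩

theorem up_coe {a : ZZ} (ha : a ∉ P) : UP P (a : Om) := ⟨vp_coe hP a, fun h => ha ((mp_coe hP a).1 h)⟩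

end basic

/-! ## The valuation property -/

theorem isAlgOm : Algebra.IsAlgebraic ℚ Om := by
  have h := AlgebraicClosure.isAlgebraic ℚ
  have e : (DivisionRing.toRatAlgebra : Algebra ℚ Om) = AlgebraicClosure.instAlgebra ℚ :=
    Subsingleton.elim _ _
  rw [e]
  exact h

/-- Every element of `Om` is a quotient of an algebraic integer by a positive integer. -/
theorem exists_int_mul (x : Om) : ∃ (a : ZZ) (n : ℕ), 0 < n ∧ x * n = a := by
  have halg : IsAlgebraic ℤ x :=
    (IsFractionRing.isAlgebraic_iff ℤ ℚ Om).2 (isAlgOm.isAlgebraic x)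
  obtain ⟨n, hn, hint⟩ := halg.exists_integral_multiple
  rcases Int.natAbs_eq n with h | h
  · refine ⟨⟨n • x, hint⟩, n.natAbs, Int.natAbs_pos.2 hn, ?_⟩
    change x * (n.natAbs : Om) = n • x
    rw [zsmul_eq_mul, mul_comm]
    congr 1
    have h1 : ((n.natAbs : ℤ) : Om) = (n : Om) := by rw [← h]
    rwa [Int.cast_natCast] at h1
  · refine ⟨-⟨n • x, hint⟩, n.natAbs, Int.natAbs_pos.2 hn, ?_⟩
    change x * (n.natAbs : Om) = -(n • x)
    rw [zsmul_eq_mul, mul_comm, ← neg_mul]
    congr 1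
    have h1 : ((-(n.natAbs : ℤ) : ℤ) : Om) = (n : Om) := by rw [← h]
    rw [Int.cast_neg, Int.cast_natCast] at h1
    rw [← h1, neg_neg]

theorem exists_pos_mem {P : Ideal ZZ} (h0 : P ≠ ⊥) : ∃ r : ℕ, 0 < r ∧ (r : ZZ) ∈ P := by
  obtain ⟨u, hu, hu0⟩ := Submodule.exists_mem_ne_zero_of_ne_bot h0
  have h1 : IsAlgebraic ℤ u := (Algebra.IsIntegral.isIntegral (R := ℤ) u).isAlgebraic
  obtain ⟨r, hr, h⟩ := h1.exists_nonzero_dvd (mem_nonZeroDivisors_of_ne_zero hu0)
  refine ⟨r.natAbs, Int.natAbs_pos.2 hr, ?_⟩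
  have h3 : ((r : ℤ) : ZZ) ∈ P := P.mem_of_dvd (by simpa using h) hu
  rcases Int.natAbs_eq r with h4 | h4
  · rw [h4] at h3
    simpa using h3
  · rw [h4] at h3
    have h5 : -(((r.natAbs : ℕ) : ZZ)) ∈ P := by simpa using h3
    have h6 := P.neg_mem h5
    rwa [neg_neg] at h6

theorem vp_or_inv_aux {P : Ideal ZZ} (hP : P.IsPrime) (h0 : P ≠ ⊥) (x : Om) :
    ∃ s t : ZZ, (t ∉ P) ∧ (x * t = s ∨ x * s = t) := by
  have hint : IsIntegral ℚ x := (isAlgOm.isAlgebraic x).isIntegral
  let F := IntermediateField.adjoin ℚ {x}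
  have hfd : FiniteDimensional ℚ F := IntermediateField.adjoin.finiteDimensional hint
  have hnf : NumberField F := { to_charZero := inferInstance, to_finiteDimensional := hfd }
  have hxF : x ∈ F := IntermediateField.mem_adjoin_simple_self ℚ x
  let φ : NumberField.RingOfIntegers F →+* ZZ :=
    { toFun := fun a => ⟨((a : F) : Om), (a.2).map (IsScalarTower.toAlgHom ℤ F Om)⟩
      map_one' := rfl
      map_mul' := fun _ _ => rfl
      map_zero' := rfl
      map_add' := fun _ _ => rfl }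
  let Q : Ideal (NumberField.RingOfIntegers F) := P.comap φ
  have hQ : Q.IsPrime := Ideal.IsPrime.comap φ
  have hQ0 : Q ≠ ⊥ := by
    obtain ⟨r, hr, hrP⟩ := exists_pos_mem h0
    intro h
    have h1 : (r : NumberField.RingOfIntegers F) ∈ Q := by
      rw [Ideal.mem_comap, map_natCast]
      exact hrP
    rw [h, Ideal.mem_bot] at h1
    exact hr.ne' (by exact_mod_cast h1)
  have hD : IsDiscreteValuationRing (Localization.AtPrime Q) :=
    IsLocalization.AtPrime.isDiscreteValuationRing_of_dedekind_domain _ hQ0 _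
  have hV : ValuationRing (Localization.AtPrime Q) := inferInstance
  obtain ⟨n1, n2, hn2, hx⟩ := IsFractionRing.div_surjective (A := NumberField.RingOfIntegers F) (⟨x, hxF⟩ : F)
  have hn0 : (n2 : NumberField.RingOfIntegers F) ≠ 0 := nonZeroDivisors.ne_zero hn2
  have hn0F : (n2 : F) ≠ 0 := by
    intro h
    exact hn0 (NumberField.RingOfIntegers.ext h)
  have hn0' : ((n2 : F) : Om) ≠ 0 := by
    intro h
    exact hn0F (Subtype.ext h)
  have hx' : x * ((n2 : F) : Om) = ((n1 : F) : Om) := by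
    have h1 : ((n1 : F) / (n2 : F) : F) = ⟨x, hxF⟩ := hx
    have h2 : (⟨x, hxF⟩ : F) * (n2 : F) = (n1 : F) := by
      rw [← h1, div_mul_cancel₀ _ hn0F]
    exact congrArg (fun y : F => (y : Om)) h2
  have hinj : Function.Injective (algebraMap (NumberField.RingOfIntegers F) (Localization.AtPrime Q)) :=
    IsLocalization.injective _ Q.primeCompl_le_nonZeroDivisors
  have key : ∀ a b : NumberField.RingOfIntegers F, ∀ c : Localization.AtPrime Q,
      algebraMap _ (Localization.AtPrime Q) a * c = algebraMap _ (Localization.AtPrime Q) b →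
      ∃ s t : NumberField.RingOfIntegers F, t ∉ Q ∧ a * s = b * t := by
    intro a b c h
    obtain ⟨s, t, rfl⟩ := IsLocalization.exists_mk'_eq Q.primeCompl c
    refine ⟨s, t, t.2, hinj ?_⟩
    rw [map_mul, map_mul, ← h, mul_assoc, IsLocalization.mk'_spec]
  obtain ⟨c, hc⟩ := ValuationRing.cond (algebraMap _ (Localization.AtPrime Q) n2)
    (algebraMap _ (Localization.AtPrime Q) n1)
  rcases hc with hc | hc
  · obtain ⟨s, t, ht, h⟩ := key _ _ _ hc
    refine ⟨φ s, φ t, ht, Or.inl ?_⟩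
    have h1 : ((n2 : F) : Om) * ((s : F) : Om) = ((n1 : F) : Om) * ((t : F) : Om) :=
      congrArg (fun y : NumberField.RingOfIntegers F => ((y : F) : Om)) h
    change x * ((t : F) : Om) = ((s : F) : Om)
    apply mul_left_cancel₀ hn0'
    rw [h1, ← hx']
    ring
  · obtain ⟨s, t, ht, h⟩ := key _ _ _ hc
    refine ⟨φ s, φ t, ht, Or.inr ?_⟩
    have h1 : ((n1 : F) : Om) * ((s : F) : Om) = ((n2 : F) : Om) * ((t : F) : Om) :=
      congrArg (fun y : NumberField.RingOfIntegers F => ((y : F) : Om)) h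
    change x * ((s : F) : Om) = ((t : F) : Om)
    apply mul_left_cancel₀ hn0'
    rw [← h1, ← hx']
    ring

/-- The valuation property. -/
theorem vp_or_mp_inv {P : Ideal ZZ} (hP : P.IsPrime) (h0 : P ≠ ⊥) (x : Om) :
    VP P x ∨ MP P x⁻¹ := by
  obtain ⟨s, t, ht, h⟩ := vp_or_inv_aux hP h0 x
  rcases h with h | h
  · exact Or.inl ⟨s, t, ht, h⟩
  · have ht0 := coe_ne_zero_of_notMem hP ht
    have hx0 : x ≠ 0 := by
      intro hx
      rw [hx, zero_mul] at h
      exact ht0 h.symm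
    by_cases hs : s ∈ P
    · refine Or.inr ⟨s, t, hs, ht, ?_⟩
      rw [← h]
      field_simp
    · exact Or.inl ⟨t, s, hs, h⟩

/-- The valuation ring `V_P`. -/
def VS {P : Ideal ZZ} (hP : P.IsPrime) (h0 : P ≠ ⊥) : ValuationSubring Om where
  carrier := {x | VP P x}
  mul_mem' := fun hx hy => vp_mul hP hx hy
  one_mem' := vp_one hP
  add_mem' := fun hx hy => vp_add hP hx hy
  zero_mem' := vp_zero hP
  neg_mem' := fun hx => vp_neg hP hx
  mem_or_inv_mem' := fun x => (vp_or_mp_inv hP h0 x).imp id mp_vp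

theorem mem_VS {P : Ideal ZZ} (hP : P.IsPrime) (h0 : P ≠ ⊥) (x : Om) : x ∈ VS hP h0 ↔ VP P x :=
  Iff.rfl

section val

variable {P : Ideal ZZ} (hP : P.IsPrime) (h0 : P ≠ ⊥) {x y : Om}

include hP h0

/-- `x` is in `V_P` or its inverse is in the maximal ideal, not both. -/
theorem mp_inv_iff (hx : x ≠ 0) : MP P x⁻¹ ↔ ¬ VP P x := by
  constructor
  · intro h h1
    have h2 := mp_mul_vp hP h h1
    rw [inv_mul_cancel₀ hx] at h2
    exact not_mp_one hP h2
  · intro h
    exact (vp_or_mp_inv hP h0 x).resolve_left h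

theorem not_vp_iff (hx : x ≠ 0) : ¬ VP P x ↔ MP P x⁻¹ := (mp_inv_iff hP h0 hx).symm

theorem up_or (hx : x ≠ 0) : UP P x ∨ MP P x ∨ MP P x⁻¹ := by
  by_cases h1 : VP P x
  · by_cases h2 : MP P x
    · exact Or.inr (Or.inl h2)
    · exact Or.inl ⟨h1, h2⟩
  · exact Or.inr (Or.inr ((mp_inv_iff hP h0 hx).2 h1))

/-- `V_P` is integrally closed. -/
theorem vp_of_monic (p : Polynomial Om) (hm : p.Monic) (hc : ∀ n, VP P (p.coeff n))
    (hr : p.eval x = 0) : VP P x := by
  by_contra hx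
  have hx0 : x ≠ 0 := by
    intro h
    rw [h] at hx
    exact hx (vp_zero hP)
  have hinv : MP P x⁻¹ := (mp_inv_iff hP h0 hx0).2 hx
  have h1 : (1 : Om) = -∑ i ∈ Finset.range p.natDegree, p.coeff i * x⁻¹ ^ (p.natDegree - i) := by
    have h2 := hr
    rw [Polynomial.eval_eq_sum_range, Finset.sum_range_succ, hm.coeff_natDegree, one_mul] at h2
    have h3 : (∑ i ∈ Finset.range p.natDegree, p.coeff i * x ^ i + x ^ p.natDegree)
        * x⁻¹ ^ p.natDegree = 0 := by rw [h2, zero_mul]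
    rw [add_mul, ← mul_pow, mul_inv_cancel₀ hx0, one_pow, Finset.sum_mul] at h3
    have h4 : ∑ i ∈ Finset.range p.natDegree, p.coeff i * x ^ i * x⁻¹ ^ p.natDegree =
        ∑ i ∈ Finset.range p.natDegree, p.coeff i * x⁻¹ ^ (p.natDegree - i) := by
      apply Finset.sum_congr rfl
      intro i hi
      have h5 : p.natDegree = i + (p.natDegree - i) := by
        have := Finset.mem_range.1 hi
        omega
      rw [mul_assoc]
      congr 1
      conv_lhs => rw [h5, pow_add, ← mul_assoc, ← mul_pow, mul_inv_cancel₀ hx0, one_pow, one_mul]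
    rw [h4] at h3
    linear_combination h3
  have h5 : MP P (1 : Om) := by
    rw [h1]
    apply mp_neg hP
    apply mp_sum hP
    intro i hi
    have := Finset.mem_range.1 hi
    exact vp_mul_mp hP (hc i) ((mp_pow_iff hP (mp_vp hinv) (by omega)).2 hinv)
  exact not_mp_one hP h5

end val

/-! ## Primes above 2 -/

/-- An odd integer is a unit at the primes above `2`. -/
theorem up_odd {P : Ideal ZZ} (hP : P.IsPrime) (h2 : (2 : ZZ) ∈ P) {n : ℤ} (hn : Odd n) :
    UP P (n : Om) := by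
  refine ⟨vp_intCast hP n, ?_⟩
  intro h
  have h1 : MP P (((n : ZZ) : ZZ) : Om) := by
    have h1 : (((n : ZZ) : ZZ) : Om) = (n : Om) := map_intCast (algebraMap ZZ Om) n
    rwa [h1]
  have h3 : (n : ZZ) ∈ P := (mp_coe hP _).1 h1
  obtain ⟨k, hk⟩ := hn
  have h4 : (1 : ZZ) = (n : ZZ) - 2 * (k : ZZ) := by
    rw [hk]
    push_cast
    ring
  exact one_notMem hP (h4 ▸ P.sub_mem h3 (P.mul_mem_right _ h2))

theorem up_oddNat {P : Ideal ZZ} (hP : P.IsPrime) (h2 : (2 : ZZ) ∈ P) {n : ℕ} (hn : Odd n) :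
    UP P (n : Om) := by
  have h := up_odd hP h2 (n := n) (by exact_mod_cast hn)
  rwa [Int.cast_natCast] at h

theorem mp_two {P : Ideal ZZ} (hP : P.IsPrime) (h2 : (2 : ZZ) ∈ P) : MP P (2 : Om) :=
  (mp_coe hP 2).2 h2

/-- A power of `2` moves every element into `V_P`, if `P` is above `2`. -/
theorem exists_two_pow {P : Ideal ZZ} (hP : P.IsPrime) (h2 : (2 : ZZ) ∈ P) (x : Om) :
    ∃ k : ℕ, VP P (2 ^ k * x) := by
  obtain ⟨a, n, hn, h⟩ := exists_int_mul x
  obtain ⟨k, m, hm, hk⟩ := Nat.exists_eq_two_pow_mul_odd hn.ne'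
  refine ⟨k, ?_⟩
  have hu := up_oddNat hP h2 hm
  have hm0 := up_ne_zero hP hu
  have h3 : 2 ^ k * x = (a : Om) * (m : Om)⁻¹ := by
    rw [← h, hk]
    push_cast
    field_simp
  rw [h3]
  exact vp_mul hP (vp_coe hP a) (up_inv hP hu).1

/-! ## Galois action -/

theorem smul_coe (σ : Gal(Om/ℚ)) (a : ZZ) : ((σ • a : ZZ) : Om) = σ (a : Om) := rfl

theorem vp_smul {P : Ideal ZZ} (σ : Gal(Om/ℚ)) {x : Om} (h : VP P x) : VP (σ • P) (σ x) := by
  obtain ⟨a, b, hb, h⟩ := h
  refine ⟨σ • a, σ • b, ?_, ?_⟩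
  · intro h1
    exact hb (by simpa using h1)
  · rw [smul_coe, smul_coe, ← map_mul, h]

theorem vp_smul_iff {P : Ideal ZZ} (σ : Gal(Om/ℚ)) {x : Om} : VP (σ • P) (σ x) ↔ VP P x := by
  refine ⟨fun h => ?_, vp_smul σ⟩
  have h1 := vp_smul σ⁻¹ h
  rw [inv_smul_smul] at h1
  have h2 : σ⁻¹ (σ x) = x := by
    change (σ⁻¹ * σ) x = x
    rw [inv_mul_cancel]
    rfl
  rwa [h2] at h1

theorem mp_smul {P : Ideal ZZ} (σ : Gal(Om/ℚ)) {x : Om} (h : MP P x) : MP (σ • P) (σ x) := by
  obtain ⟨a, b, ha, hb, h⟩ := h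
  refine ⟨σ • a, σ • b, Ideal.smul_mem_pointwise_smul σ a P ha, ?_, ?_⟩
  · intro h1
    exact hb (by simpa using h1)
  · rw [smul_coe, smul_coe, ← map_mul, h]

theorem mp_smul_iff {P : Ideal ZZ} (σ : Gal(Om/ℚ)) {x : Om} : MP (σ • P) (σ x) ↔ MP P x := by
  refine ⟨fun h => ?_, mp_smul σ⟩
  have h1 := mp_smul σ⁻¹ h
  rw [inv_smul_smul] at h1
  have h2 : σ⁻¹ (σ x) = x := by
    change (σ⁻¹ * σ) x = x
    rw [inv_mul_cancel]
    rfl
  rwa [h2] at h1

/-! ## The residue field -/

/-- The residue field of `V_P`. -/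
abbrev RF {P : Ideal ZZ} (hP : P.IsPrime) (h0 : P ≠ ⊥) : Type :=
  IsLocalRing.ResidueField (VS hP h0)

open Classical in
/-- Reduction modulo the maximal ideal (`0` outside of `V_P`). -/
def red {P : Ideal ZZ} (hP : P.IsPrime) (h0 : P ≠ ⊥) (x : Om) : RF hP h0 :=
  if h : VP P x then IsLocalRing.residue (VS hP h0) ⟨x, h⟩ else 0

section red

variable {P : Ideal ZZ} (hP : P.IsPrime) (h0 : P ≠ ⊥) {x y : Om}

theorem red_of_vp (hx : VP P x) :
    red hP h0 x = IsLocalRing.residue (VS hP h0) ⟨x, hx⟩ := dif_pos hx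

theorem red_add (hx : VP P x) (hy : VP P y) : red hP h0 (x + y) = red hP h0 x + red hP h0 y := by
  rw [red_of_vp hP h0 hx, red_of_vp hP h0 hy, red_of_vp hP h0 (vp_add hP hx hy), ← map_add]
  rfl

theorem red_mul (hx : VP P x) (hy : VP P y) : red hP h0 (x * y) = red hP h0 x * red hP h0 y := by
  rw [red_of_vp hP h0 hx, red_of_vp hP h0 hy, red_of_vp hP h0 (vp_mul hP hx hy), ← map_mul]
  rfl

theorem red_one : red hP h0 1 = 1 := by
  rw [red_of_vp hP h0 (vp_one hP)]
  exact map_one (IsLocalRing.residue (VS hP h0))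

theorem red_zero : red hP h0 0 = 0 := by
  rw [red_of_vp hP h0 (vp_zero hP)]
  exact map_zero (IsLocalRing.residue (VS hP h0))

theorem red_eq_zero_iff (hx : VP P x) : red hP h0 x = 0 ↔ MP P x := by
  rw [red_of_vp hP h0 hx, IsLocalRing.residue_eq_zero_iff, IsLocalRing.mem_maximalIdeal,
    mem_nonunits_iff]
  constructor
  · intro h
    by_contra h1
    have h2 := up_inv hP ⟨hx, h1⟩
    have h3 := up_ne_zero hP (x := x) ⟨hx, h1⟩
    apply h
    exact IsUnit.of_mul_eq_one (⟨x⁻¹, h2.1⟩ : VS hP h0) (Subtype.ext (mul_inv_cancel₀ h3))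
  · intro h h1
    obtain ⟨u, hu⟩ := h1.exists_right_inv
    have h2 : x * (u : Om) = 1 := congrArg (fun z : VS hP h0 => (z : Om)) hu
    have h3 := mp_mul_vp hP h u.2
    rw [h2] at h3
    exact not_mp_one hP h3

theorem red_neg (hx : VP P x) : red hP h0 (-x) = -red hP h0 x := by
  rw [red_of_vp hP h0 hx, red_of_vp hP h0 (vp_neg hP hx), ← map_neg]
  rfl

theorem red_sub (hx : VP P x) (hy : VP P y) : red hP h0 (x - y) = red hP h0 x - red hP h0 y := by
  rw [red_of_vp hP h0 hx, red_of_vp hP h0 hy, red_of_vp hP h0 (vp_sub hP hx hy), ← map_sub]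
  rfl

theorem red_eq_iff (hx : VP P x) (hy : VP P y) : red hP h0 x = red hP h0 y ↔ MP P (x - y) := by
  rw [← sub_eq_zero, ← red_sub hP h0 hx hy, red_eq_zero_iff hP h0 (vp_sub hP hx hy)]

theorem red_pow (hx : VP P x) (n : ℕ) : red hP h0 (x ^ n) = red hP h0 x ^ n := by
  induction n with
  | zero => rw [pow_zero, pow_zero, red_one]
  | succ n ih => rw [pow_succ, pow_succ, red_mul hP h0 (vp_pow hP hx n) hx, ih]

theorem red_sum {ι : Type} (s : Finset ι) (f : ι → Om) (h : ∀ i ∈ s, VP P (f i)) :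
    red hP h0 (∑ i ∈ s, f i) = ∑ i ∈ s, red hP h0 (f i) := by
  classical
  induction s using Finset.induction_on with
  | empty => rw [Finset.sum_empty, Finset.sum_empty, red_zero]
  | insert i s hi ih =>
      rw [Finset.sum_insert hi, Finset.sum_insert hi,
        red_add hP h0 (h i (Finset.mem_insert_self i s))
          (vp_sum hP s f fun j hj => h j (Finset.mem_insert_of_mem hj)),
        ih fun j hj => h j (Finset.mem_insert_of_mem hj)]

/-- The residue field has characteristic `2` if `P` is above `2`. -/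
theorem charP_RF (h2 : (2 : ZZ) ∈ P) : CharP (RF hP h0) 2 := by
  have h3 : ((2 : ℕ) : RF hP h0) = 0 := by
    have h4 := (red_eq_zero_iff hP h0 (mp_vp (mp_two hP h2))).2 (mp_two hP h2)
    have h5 : red hP h0 (2 : Om) = 2 := by
      have h6 : (2 : Om) = 1 + 1 := by norm_num
      rw [h6, red_add hP h0 (vp_one hP) (vp_one hP), red_one]
      norm_num
    rw [h5] at h4
    exact_mod_cast h4
  exact CharTwo.of_one_ne_zero_of_two_eq_zero one_ne_zero (by exact_mod_cast h3)

end red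

end Pool.Agent.DI.F
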