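import Pool.Agent.Lib.DI.F.SpecF
import Pool.Agent.Lib.DI.FH.Spec
import Pool.Agent.Lib.DI.F5.Spec

set_option autoImplicit false

/-!
# THEOREM DI, Part F: assembly of Proposition F from F1, F2, F3, F4 - F6 (`FH.S_FH`) and F5 (`S_W2`)
-/

open scoped Pointwise Topology MatrixGroups
open Filter CongruenceSubgroup

noncomputable section

namespace Pool.Agent.DI.F

open Pool.Agent.MuZ Pool.Agent.DI

private theorem asm_qq (z : UpperHalfPlane) : DIF5.qq z = ex (z : ℂ) := rfl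

theorem asm (hFH : FH.S_FH) (hW2 : DIF5.S_W2) (hB0 : S_B0) (hE1 : S_E1) (hE3 : S_E3) (hE8 : S_E8)
    (hE9 : S_E9) (hE14 : S_E14) (hGal : S_Gal) (hF1 : S_F1) (hPsiInv : S_PsiInv)
    (hPsiCusp : S_PsiCusp) (hPsiExp : S_PsiExp) : S_F := by
  intro f χ P hf h7 hχ hP
  by_contra hcon
  have hcon' : ∀ a b c d : ℤ, G0 (7 * f ^ 2) a b c d → (7 * f ^ 2 : ℤ) ∣ d - 1 →
      MP P (etaX χ (b / d) + etaX χ (-(b / d)) - 2 * etaX χ 0) := by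
    intro a b c d h1 h2
    by_contra h3
    exact hcon ⟨a, b, c, d, h1, h2, h3⟩
  obtain ⟨lam, hlam⟩ := hE14 f hf h7
  obtain ⟨hfin, _, _, ⟨σ, hσ⟩, _⟩ := hGal f hf h7
  obtain ⟨β, β', N0, hβ, hβ', hu, hu', hvp, hN0, hα⟩ :=
    hF1 f χ P σ lam hf h7 hχ hP hσ hlam hcon'
  have hβ0 : β ≠ 0 := up_ne_zero hP.1 hu
  have hβ0' : β' ≠ 0 := up_ne_zero hP.1 hu'
  have hN00 : N0 ≠ 0 := by
    rintro rfl
    exact absurd hN0 (by decide)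
  obtain ⟨TA, WA, TB, WB, ψ, Y, hψL, hTA, hTB, hψ0, hrel, hsum⟩ :=
    hPsiExp f σ β β' N0 hf h7 hσ hβ hβ' hβ0 hβ0' hN00
  obtain ⟨hmero, hinv⟩ := hPsiInv f σ β β' N0 hf h7 hσ hβ hβ'
  have hf0 : f ≠ 0 := by
    rintro rfl
    exact absurd hf (by decide)
  have hM : NeZero (7 * f ^ 2) := ⟨by positivity⟩
  obtain ⟨L', _, hfin', Q1, Q2, hQ1, hQ2, hQ, hco⟩ := hW2 (7 * f ^ 2) io (VS hP.1 hP.2.1) (Lf f)
    (PsiF f σ β β' N0) ψ 2 Y hmero (hinv hα hB0.1)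
    (fun γ => hPsiCusp f σ β β' N0 hf h7 hσ hβ hβ' γ) hψ0 hψL
    (fun z hz => by
      have h := hsum (z : ℂ) hz
      rw [asm_qq]
      exact h)
  exact hFH hE1 hE3 hE8 hE9 f P σ N0 β β' hf h7 hP hσ hN0 hβ hβ' (fun τ hτ => (hvp τ hτ).1)
    (fun τ hτ => (hvp τ hτ).2) hu.2 hu'.2 TA WA TB WB ψ Q1 Q2 hTA hTB hψ0 hrel hQ2 hQ L' hfin'
    (fun n => (hco n).1) (fun n => (hco n).2.2.1)
    ⟨1, one_ne_zero, fun n => by rw [one_mul]; exact (hco n).2.1⟩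
    ⟨1, one_ne_zero, fun n => by rw [one_mul]; exact (hco n).2.2.2⟩

end Pool.Agent.DI.F
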