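import Pool.Agent.Lib.DI.F.All
import Pool.Agent.Lib.DI.FH.All
import Pool.Agent.Lib.DI.B.All
import Pool.Agent.Lib.DI.C.All

set_option autoImplicit false

/-!
# THEOREM DI, Part F: `S_F` from the statements of Part E

The Parts A, B, C, `Util`, F5 and FH are plugged in.
-/

namespace Pool.Agent.DI.F

open Pool.Agent.DI

theorem aF (hE1 : S_E1) (hE3 : S_E3) (hE7 : S_E7) (hE8 : S_E8) (hE9 : S_E9) (hE11 : S_E11)
    (hE14 : S_E14) : S_F :=
  tF FH.aFH tA0 tA1 tB0 tB1 tB2 tB3 tB6 tB7 tB12 tB14 C.iC1 C.iC2 C.iC5 C.iC6 hE1 hE3 hE7 hE8 hE9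
    hE11 hE14

end Pool.Agent.DI.F
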