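import Pool.Agent.Lib.DI.F.SpecT

/-!
# THEOREM DI, part F, module Gam: the square root functions G
-/

set_option autoImplicit false

namespace Pool.Agent.DI.F

open Filter Topology

/-- **The square root functions G.** -/
theorem tGam (hCo : S_Co) (hP01 : S_P01) : S_Gam := by
  intro Λ p e hp
  obtain ⟨hP, hP00, hP10, hPk⟩ := hP01 Λ
  refine ⟨?_, ?_, ?_, ?_⟩
  · intro u hu
    have hv : u / p ≠ 0 := div_ne_zero hu hp
    obtain ⟨h0, h1⟩ := hP (u / p) hv
    unfold Gam GG
    rw [h0, h1]
    have e1 : 2 * ((u / p) ^ 2 * Λ.weierstrassP (u / p) - e * (u / p) ^ 2) =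
        (u / p) ^ 2 * (2 * (Λ.weierstrassP (u / p) - e)) := by ring
    have e2 : (u / p) ^ 3 * Λ.derivWeierstrassP (u / p) =
        (u / p) ^ 2 * ((u / p) * Λ.derivWeierstrassP (u / p)) := by ring
    rw [e1, e2, mul_div_mul_left _ _ (pow_ne_zero 2 hv)]
    have e3 : 2 * p * (Λ.weierstrassP (u / p) - e) = p * (2 * (Λ.weierstrassP (u / p) - e)) := by
      ring
    rw [e3, div_mul_eq_mul_div, div_div, ← mul_div_assoc]
  · unfold Gam
    rw [zero_div, hP10, hP00]
    norm_num
  · intro k h2 h3 hpk hek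
    obtain ⟨⟨hc, hid⟩, har, _, hinv, hcomp, _, _⟩ := hCo k
    obtain ⟨hk0, hk1⟩ := hPk k h2 h3
    have hdiv : Co k (fun u : ℂ => u / p) := by
      have h := (har (fun q => q) (fun _ => p⁻¹) hid (hc _ (k.inv_mem hpk))).2.1
      have e1 : (fun q : ℂ => (fun q : ℂ => q) q * (fun _ : ℂ => p⁻¹) q) = fun u => u / p := by
        funext u
        exact (div_eq_mul_inv u p).symm
      rw [e1] at h
      exact h
    have hA := hcomp (P1 Λ) (fun u => u / p) hk1 hdiv (zero_div p)
    have hB := hcomp (P0 Λ) (fun u => u / p) hk0 hdiv (zero_div p)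
    have hsq := (har _ _ hdiv hdiv).2.1
    have hes := (har _ _ (hc e hek) hsq).2.1
    have hsub := (har _ _ hB hes).2.2.1
    have h2k : (2 : ℂ) ∈ k := by
      have h := k.add_mem k.one_mem k.one_mem
      rwa [one_add_one_eq_two] at h
    have hden := (har _ _ (hc 2 h2k) hsub).2.1
    have hI := hinv _ hden (by
      simp only [zero_div, hP00]
      norm_num)
    have h := (har _ _ hA hI).2.1
    have e1 : (fun q : ℂ => P1 Λ (q / p) *
        (2 * (P0 Λ (q / p) - e * (q / p * (q / p))))⁻¹) = Gam Λ p e := by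
      funext u
      unfold Gam
      rw [sq]
      exact (div_eq_mul_inv _ _).symm
    rw [← e1]
    exact h
  · intro x
    have h1 : MeromorphicAt (fun u => Λ.derivWeierstrassP (u / p)) x :=
      (Λ.meromorphic_derivWeierstrassP (x / p)).comp_analyticAt (g := fun u => u / p)
        (by fun_prop)
    have h2 : MeromorphicAt (fun u => Λ.weierstrassP (u / p)) x :=
      (Λ.meromorphic_weierstrassP (x / p)).comp_analyticAt (g := fun u => u / p)
        (by fun_prop)
    have h3 := h1.div (((MeromorphicAt.const (2 * p) x).mul (h2.sub (MeromorphicAt.const e x))))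
    exact h3

end Pool.Agent.DI.F
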