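import Mathlib

set_option autoImplicit false

/-!
# THEOREM DI (MP_d0239a_nt), Part F, file T: Taylor series at 0, `wp` near 0, the formal output of F3

Helper79, after the notes 4042, 4044 of helper36. Nothing here depends on the definitions of the
project (only Mathlib). Every `def S_.. : Prop` is a statement, its complete proof is in the
docstring. `tay f` is the Taylor series at `0` of a function analytic at `0`, `Co k f` says that `f`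
is analytic at `0` and all Taylor coefficients lie in the subfield `k` of `ℂ`.
-/

namespace Pool.Agent.DI.F

open Filter Topology

/-! ## 1. Taylor series -/

/-- the Taylor series of `f` at `0` -/
noncomputable def tay (f : ℂ → ℂ) : PowerSeries ℂ :=
  PowerSeries.mk fun n => iteratedDeriv n f 0 / (n.factorial : ℂ)

/-- `f` is analytic at `0` and its Taylor coefficients lie in `k` -/
def Co (k : Subfield ℂ) (f : ℂ → ℂ) : Prop :=
  AnalyticAt ℂ f 0 ∧ ∀ n : ℕ, PowerSeries.coeff n (tay f) ∈ k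

/-- (140 lines) **Taylor series.** (1) `AnalyticAt.hasFPowerSeriesAt` (file IteratedDeriv/Defs) and the definition of
`HasFPowerSeriesOnBall.hasSum`, `FormalMultilinearSeries.ofScalars`; (2) uniqueness: `p` defines
(`ofScalars`) a formal multilinear series of positive radius (the sum converges at some `q ≠ 0`, so
the terms are bounded: `FormalMultilinearSeries.le_radius_of_bound`), so `f` has this power series at
`0` and `HasFPowerSeriesAt.eq_formalMultilinearSeries` with (1); (3) - (6) by (1), (2) and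
`HasSum.add`, `iteratedDeriv_mul` (or the Cauchy product of the two absolutely convergent series),
`iteratedDeriv_succ'`; see also `qExpansion_mul` in NumberTheory/ModularForms/QExpansion. (7) congruence:
`Filter.EventuallyEq.iteratedDeriv_eq`. -/
def S_Tay : Prop :=
  (∀ f : ℂ → ℂ, AnalyticAt ℂ f 0 →
    ∀ᶠ q in 𝓝 (0 : ℂ), HasSum (fun n : ℕ => PowerSeries.coeff n (tay f) * q ^ n) (f q)) ∧
  (∀ (f : ℂ → ℂ) (p : PowerSeries ℂ),
    (∀ᶠ q in 𝓝 (0 : ℂ), HasSum (fun n : ℕ => PowerSeries.coeff n p * q ^ n) (f q)) →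
    AnalyticAt ℂ f 0 ∧ tay f = p) ∧
  (∀ f g : ℂ → ℂ, AnalyticAt ℂ f 0 → AnalyticAt ℂ g 0 →
    tay (fun q => f q + g q) = tay f + tay g) ∧
  (∀ f g : ℂ → ℂ, AnalyticAt ℂ f 0 → AnalyticAt ℂ g 0 →
    tay (fun q => f q * g q) = tay f * tay g) ∧
  ((∀ c : ℂ, tay (fun _ => c) = PowerSeries.C c) ∧ tay (fun q => q) = PowerSeries.X) ∧
  (∀ f : ℂ → ℂ, AnalyticAt ℂ f 0 → tay (deriv f) = PowerSeries.derivative ℂ (tay f)) ∧
  (∀ f g : ℂ → ℂ, f =ᶠ[𝓝 0] g → tay f = tay g)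

/-- (160 lines; uses S_Tay) **Taylor coefficients in a subfield.** (1) constants, identity; (2) sums, products, negatives by `S_Tay`; (3) derivative:
coefficient `n` of `tay (deriv f)` is `(n+1)` times coefficient `n+1`; (4) inverse:
`1 = tay f * tay f⁻¹`, so the coefficients of `tay f⁻¹` are given by the recursion
`a_0 b_n = [n = 0] - sum_(i<n) a_(n-i) b_i`, `a_0 = f 0 ≠ 0`: strong induction; (5) composition
(`g 0 = 0`): by induction on `n`, for all `f` (and fixed `g`): coefficient `0` is `f 0`, and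
`deriv (f ∘ g) = (deriv f ∘ g) * deriv g` near `0`, coefficient `n` of this product involves only the
coefficients `≤ n` of `deriv f ∘ g` (induction hypothesis for the function `deriv f`: prove
`∀ f, Co k f → ∀ m ≤ n, coeff m (tay (f ∘ g)) ∈ k`) and `(n+1) * coeff (n+1) = coeff n` of the
derivative; (6) division by `q`: `h = dslope f 0`, `f q = q * h q`, `tay f = X * tay h`;
(7) congruence. -/
def S_Co : Prop := ∀ k : Subfield ℂ,
  ((∀ c ∈ k, Co k fun _ => c) ∧ Co k fun q => q) ∧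
  (∀ f g : ℂ → ℂ, Co k f → Co k g → (Co k fun q => f q + g q) ∧ (Co k fun q => f q * g q) ∧
    (Co k fun q => f q - g q) ∧ (Co k fun q => -f q)) ∧
  (∀ f : ℂ → ℂ, Co k f → Co k (deriv f)) ∧
  (∀ f : ℂ → ℂ, Co k f → f 0 ≠ 0 → Co k fun q => (f q)⁻¹) ∧
  (∀ f g : ℂ → ℂ, Co k f → Co k g → g 0 = 0 → Co k fun q => f (g q)) ∧
  (∀ f : ℂ → ℂ, Co k f → f 0 = 0 →
    Co k (dslope f 0) ∧ dslope f 0 0 = deriv f 0 ∧ ∀ q, f q = q * dslope f 0 q) ∧
  (∀ f g : ℂ → ℂ, f =ᶠ[𝓝 0] g → Co k f → Co k g)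

/-! ## 2. The Weierstrass function near 0 -/

/-- `u^2 wp(u)`, extended to `0` -/
noncomputable def P0 (Λ : PeriodPair) (u : ℂ) : ℂ := 1 + u ^ 2 * Λ.weierstrassPExcept 0 u

/-- `u^3 wp'(u)`, extended to `0` -/
noncomputable def P1 (Λ : PeriodPair) (u : ℂ) : ℂ := -2 + u ^ 3 * Λ.derivWeierstrassPExcept 0 u

/-- (150 lines; uses S_Tay, S_Co) **wp near 0, rational coefficients.** (1) `weierstrassPExcept_def`, `derivWeierstrassPExcept_def` with `l₀ = 0` (in Lean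
`1 / 0 ^ 2 = 0`); (2) RATIONALITY: `f = weierstrassPExcept 0` is analytic at `0`, `f' =
derivWeierstrassPExcept 0` near `0` (`eqOn_deriv_weierstrassPExcept_derivWeierstrassPExcept`).
`derivWeierstrassP_sq` multiplied by `u^6`:
`(-2 + u^3 f')^2 = 4 (1 + u^2 f)^3 - g2 u^4 (1 + u^2 f) - g3 u^6` for small `u ≠ 0`, hence for the
power series `c = tay f` (continuity at `0`, `S_Tay`):
`-4 X^3 c' + X^6 c'^2 = 12 X^2 c + 12 X^4 c^2 + 4 X^6 c^3 - g2 X^4 - g2 X^6 c - g3 X^6`; cancel `X^2`: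
`-4 X c' - 12 c = 12 X^2 c^2 + 4 X^4 c^3 - X^4 c'^2 - g2 X^2 - g2 X^4 c - g3 X^4`. Coefficient `n`:
`-4 (n + 3) c_n` is an expression in `c_j`, `j < n`, with coefficients in `k` (the terms `X^4 c'^2`:
`i c_i j c_j`, `i + j = n - 2`): strong induction gives `c_n ∈ k` for all `n`. -/
def S_P01 : Prop := ∀ Λ : PeriodPair,
  (∀ u : ℂ, u ≠ 0 → P0 Λ u = u ^ 2 * Λ.weierstrassP u ∧ P1 Λ u = u ^ 3 * Λ.derivWeierstrassP u) ∧
  P0 Λ 0 = 1 ∧ P1 Λ 0 = -2 ∧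
  (∀ k : Subfield ℂ, Λ.g₂ ∈ k → Λ.g₃ ∈ k → Co k (P0 Λ) ∧ Co k (P1 Λ))

/-- `u^3 (wp' - wp - 1/4)`, extended to `0`; this is `2 u^3 Y` -/
noncomputable def Df (Λ : PeriodPair) (u : ℂ) : ℂ := P1 Λ u - u * P0 Λ u - u ^ 3 / 4

/-- `T = -X/Y`, `X = wp + 1/4`, `Y = (wp' - X)/2`, extended to `0` -/
noncomputable def Tf (Λ : PeriodPair) (u : ℂ) : ℂ := -2 * u * (P0 Λ u + u ^ 2 / 4) / Df Λ u

/-- `W = -1/Y`, extended to `0` -/
noncomputable def Wf (Λ : PeriodPair) (u : ℂ) : ℂ := -2 * u ^ 3 / Df Λ u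

/-- (150 lines; uses S_Tay, S_Co, S_P01) **The functions T, W near 0.** For the curve
`Y^2 + XY = X^3 - X^2 - 2X - 1`. `Df Λ 0 = -2`, so
`Co` by `S_Co`, `S_P01`; for small `u ≠ 0` (not in the lattice): `Df = 2 u^3 Y`, `Y ≠ 0`,
`Tf = -X/Y`, `Wf = -1/Y`; the equation is `derivWeierstrassP_sq` in the form
`(2Y+X)^2 = 4X^3 - 3X^2 - 8X - 4` divided by `4 Y^3` (at `u = 0` both sides are `0`);
derivative: `(T/W)' = X' = 2Y + X = (T - 2)/W` for small `u ≠ 0`, i.e. (4); at `u = 0` (4) holds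
because all terms vanish (`Wf 0 = 0`, `deriv Wf 0 = 0`, `Tf 0 = 0`) or by continuity.
(5): `dslope`-free form of `Tf = u * unit`, `Wf = u^3 * unit`. -/
def S_TW : Prop := ∀ Λ : PeriodPair, Λ.g₂ = 35 / 4 → Λ.g₃ = 49 / 8 → ∀ k : Subfield ℂ,
  Co k (Tf Λ) ∧ Co k (Wf Λ) ∧
  (∀ᶠ u in 𝓝 (0 : ℂ), Wf Λ u = Tf Λ u ^ 3 + Tf Λ u * Wf Λ u - Tf Λ u ^ 2 * Wf Λ u
    - 2 * Tf Λ u * Wf Λ u ^ 2 - Wf Λ u ^ 3) ∧
  (∀ᶠ u in 𝓝 (0 : ℂ), deriv (Tf Λ) u * Wf Λ u - Tf Λ u * deriv (Wf Λ) u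
    = (Tf Λ u - 2) * Wf Λ u) ∧
  (∃ t w : ℂ → ℂ, Co k t ∧ Co k w ∧ t 0 = 1 ∧ w 0 = 1 ∧
    (∀ u, Tf Λ u = u * t u) ∧ ∀ u, Wf Λ u = u ^ 3 * w u) ∧
  (∀ᶠ u in 𝓝[≠] (0 : ℂ), u ∉ Λ.lattice ∧ Wf Λ u ≠ 0 ∧
    Λ.weierstrassP u + 1 / 4 = Tf Λ u / Wf Λ u ∧
    (Λ.derivWeierstrassP u - (Λ.weierstrassP u + 1 / 4)) / 2 = -1 / Wf Λ u)

/-- `G(u) = wp'(u/p) / (2 p (wp(u/p) - e))` (note 4042, F2, in the variable `u = Omega z`) -/
noncomputable def GG (Λ : PeriodPair) (p e : ℂ) (u : ℂ) : ℂ :=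
  Λ.derivWeierstrassP (u / p) / (2 * p * (Λ.weierstrassP (u / p) - e))

/-- `u * G(u)`, extended to `0` -/
noncomputable def Gam (Λ : PeriodPair) (p e : ℂ) (u : ℂ) : ℂ :=
  P1 Λ (u / p) / (2 * (P0 Λ (u / p) - e * (u / p) ^ 2))

/-- (70 lines; uses S_Co, S_P01) **The square root functions G.** Direct from `S_P01`, `S_Co` (composition with `u ↦ u / p`; the denominator is `2` at `0`) -/
def S_Gam : Prop := ∀ (Λ : PeriodPair) (p e : ℂ), p ≠ 0 →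
  (∀ u : ℂ, u ≠ 0 → u * GG Λ p e u = Gam Λ p e u) ∧ Gam Λ p e 0 = -1 ∧
  (∀ k : Subfield ℂ, Λ.g₂ ∈ k → Λ.g₃ ∈ k → p ∈ k → e ∈ k → Co k (Gam Λ p e)) ∧
  Meromorphic (GG Λ p e)

/-! ## 3. The formal output of F3 -/

/-- all coefficients lie in `k` -/
def Cf (k : Subfield ℂ) (p : PowerSeries ℂ) : Prop := ∀ n : ℕ, PowerSeries.coeff n p ∈ k

/-- the relations between `u`, `T = T(u)`, `W = W(u)` (formal part, over any commutative ring):
(a) the curve, (b) the invariant differential `dx/(2y+x) = du` for `x = T/W`, `y = -1/W`,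
(c) the first coefficients -/
structure TWrel {R : Type} [CommRing R] (u T W : PowerSeries R) : Prop where
  curve : W = T ^ 3 + T * W - T ^ 2 * W - 2 * (T * W ^ 2) - W ^ 3
  diff : PowerSeries.derivative R T * W - T * PowerSeries.derivative R W
    = (T - 2) * W * PowerSeries.derivative R u
  T0 : PowerSeries.coeff 0 T = 0
  T1 : PowerSeries.coeff 1 T = PowerSeries.coeff 1 u
  W0 : PowerSeries.coeff 0 W = 0
  W1 : PowerSeries.coeff 1 W = 0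
  W2 : PowerSeries.coeff 2 W = 0
  W3 : PowerSeries.coeff 3 W = PowerSeries.coeff 1 u ^ 3

/-- (120 lines; uses S_Tay, S_Co, S_TW) **Taylor series of T(u(q)), W(u(q)).** `T = tay (Tf ∘ u)`, `W = tay (Wf ∘ u)`; coefficients in `k`
by `S_Co` (composition), the relations by `S_TW` at `u(q)` (`u` is continuous at `0`) and `S_Tay`
(chain rule for (b)); first coefficients by `Tf = u t(u)`, `Wf = u^3 w(u)`. -/
def S_TWcomp : Prop := ∀ Λ : PeriodPair, Λ.g₂ = 35 / 4 → Λ.g₃ = 49 / 8 →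
  ∀ (k : Subfield ℂ) (u : ℂ → ℂ), Co k u → u 0 = 0 →
  Co k (fun q => Tf Λ (u q)) ∧ Co k (fun q => Wf Λ (u q)) ∧
  TWrel (tay u) (tay fun q => Tf Λ (u q)) (tay fun q => Wf Λ (u q))

/-- (160 lines; uses S_Tay, S_Co, S_TW, S_Gam, S_TWcomp) **Formal output of F3.** (Note 4042, F3.) `p = pi`, `pb`. Put `a = dslope uA 0`, `b = dslope uB 0`
(`uA q = q a(q)`, `a 0 = deriv uA 0 ≠ 0`), and
`S(q) = p * Gam Λ p et (uA q) * Gam Λ pb es (uB q) * (a q)⁻¹ * (b q)⁻¹`, `ψ = tay S`, `Co k S` by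
`S_Co`, `S_Gam`. For small `q ≠ 0`: `uA q ≠ 0`, `uB q ≠ 0` and `S(q) = q^2 * (p * GG .. * GG ..)`
(`u GG = Gam`). `ψ ≠ 0` since `S 0 = p / (a 0 * b 0)`. The relation (d): for small `q ≠ 0` by the
hypotheses on `GG^2` and `X = T/W`: `GG(uA)^2 = (T_A - (p/pb^2) W_A)/W_A`,
`GG(uB)^2 = (T_B - (pb/p^2) W_B)/W_B`, so `S^2 W_A W_B = q^4 (T_A - (p/pb^2) W_A) (p^2 T_B - pb W_B)`; at
`q = 0` both sides vanish; then `S_Tay` (product, congruence; `tay` of both sides). -/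
def S_F3core : Prop := ∀ Λ : PeriodPair, Λ.g₂ = 35 / 4 → Λ.g₃ = 49 / 8 →
  ∀ (k : Subfield ℂ) (p pb : ℂ), p ∈ k → pb ∈ k → p + pb = 1 → p * pb = 2 →
  (∀ᶠ u in 𝓝[≠] (0 : ℂ),
    GG Λ p (pb / p ^ 2 - 1 / 4) u ^ 2 = Λ.weierstrassP u + 1 / 4 - p / pb ^ 2) →
  (∀ᶠ u in 𝓝[≠] (0 : ℂ),
    GG Λ pb (p / pb ^ 2 - 1 / 4) u ^ 2 = Λ.weierstrassP u + 1 / 4 - pb / p ^ 2) →
  ∀ uA uB : ℂ → ℂ, Co k uA → Co k uB → uA 0 = 0 → uB 0 = 0 → deriv uA 0 ≠ 0 → deriv uB 0 ≠ 0 →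
  ∃ TA WA TB WB ψ : PowerSeries ℂ, Cf k TA ∧ Cf k WA ∧ Cf k TB ∧ Cf k WB ∧ Cf k ψ ∧
    TWrel (tay uA) TA WA ∧ TWrel (tay uB) TB WB ∧ ψ ≠ 0 ∧
    ψ ^ 2 * WA * WB = PowerSeries.X ^ 4 * (TA - PowerSeries.C (p / pb ^ 2) * WA) *
      (PowerSeries.C (p ^ 2) * TB - PowerSeries.C pb * WB) ∧
    (∀ᶠ q in 𝓝[≠] (0 : ℂ), HasSum (fun n : ℕ => PowerSeries.coeff n ψ * q ^ n)
      (q ^ 2 * (p * GG Λ p (pb / p ^ 2 - 1 / 4) (uA q) * GG Λ pb (p / pb ^ 2 - 1 / 4) (uB q))))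

end Pool.Agent.DI.F
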