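import Pool.Agent.Lib.DI.Util.Spec
import Pool.Agent.Lib.DI.F.SpecT
import Pool.Agent.Lib.DI.F.VPB
import Pool.Agent.Lib.DI.FH.Defs

set_option autoImplicit false

/-!
# THEOREM DI (MP_d0239a_nt), Part F, file F: F1, F2, F3 and the assembly of Proposition F

Helper79, after note 4042 of helper36. Every `def S_.. : Prop` is a statement, its complete proof is in
the docstring; (N lines; uses S_A, S_B) means: the used statements are hypotheses of the theorem, in this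
order. The statements of `DI/Iface.lean`, `DI/Util/Spec.lean`, `DI/F/SpecT.lean` may be used in this way.
`DI/F/VPB.lean` (namespace `Pool.Agent.DI.F`) has the elementary lemmas on `VP`, `MP`, `UP` (`vp_add`,
`mp_mul_vp`, `up_inv`, `exists_two_pow`, `up_odd`, `vp_smul_iff`, ..) and the residue map
`red hP h0 : Om → RF hP h0` (`red_add`, `red_mul`, `red_eq_zero_iff`, `red_sum`, `charP_RF`).

Conventions: `P` with `AbPi P` is a nonzero prime of `ZZ` which contains `π`; then `MP P 2`,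
`UP P wbO` (`wbO = 1 - wO`), and `2 = wO * wbO`.
-/

open scoped Pointwise Topology MatrixGroups
open Filter CongruenceSubgroup

noncomputable section

namespace Pool.Agent.DI.F

open Pool.Agent.MuZ Pool.Agent.DI

/-! ## A. Linear algebra and valuations -/

/-- (110 lines) **Linear algebra of F1.** `Φ x = (r_i x)_i` in `ι → F`, `U` = the image of `Φ`, a finite
`ZMod 2`-submodule of `ι → F` (`ZMod.algebra F 2`). For `u = Φ x`, `v = Φ y` the number `∑ u_i v_i = ∑ r_i(x y)`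
is `0` or `1`, so it defines a `ZMod 2`-bilinear form on `U`, `t : U → Dual U`. `t` is injective:
if `∑ u_i v_i = 0` for all `v = Φ y` then `∑ u_i r_i = 0` as functions on `R`, so `u = 0` by Dedekind's
lemma (`linearIndependent_monoidHom R F`, the `r_i` are pairwise different). As `U` is finite, `t` is
surjective (`dim Dual U = dim U`). The additive map `v ↦ ∑ k_i v_i`, `U → F` is not zero (Dedekind), say not at
`v0`; take a `ZMod 2`-linear `m : F → ZMod 2` with `m (∑ k_i v0_i) ≠ 0`; then `l v = m (∑ k_i v_i)` is a nonzero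
functional on `U` which vanishes on `Φ(S)`, `l = t (Φ b)`: `b` is the element (`Φ b ≠ 0` because
`l ≠ 0`). -/
def S_Lin : Prop := ∀ (R F ι : Type) [CommRing R] [Field F] [CharP F 2] [Fintype ι]
  (r : ι → R →+* F), Function.Injective r → (Set.range fun (x : R) (i : ι) => r i x).Finite →
  (∀ x : R, ∑ i, r i x = 0 ∨ ∑ i, r i x = 1) →
  ∀ (k : ι → F) (S : Set R), (∃ i, k i ≠ 0) → (∀ w ∈ S, ∑ i, k i * r i w = 0) →
    ∃ b : R, (∃ i, r i b ≠ 0) ∧ ∀ w ∈ S, ∑ i, r i b * r i w = 0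

/-- (60 lines) **Fractions inside a number field.** As the proof of `vp_or_inv_aux` in `DI/F/VPB.lean` (the
field `F = ℚ(x)` there is contained in `L`): `x t = s` or `x s = t` with `s, t` algebraic integers in `L`,
`t ∉ P` (or: `DI/Val.lean`, `VP.or_inv`). In the second case `s ∉ P`, otherwise `t = x s` is in `MP P`. The case
`P = ⊥` is `exists_int_mul`. -/
def S_Frac : Prop := ∀ P : Ideal ZZ, P.IsPrime → ∀ L : IntermediateField ℚ Om,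
  FiniteDimensional ℚ L → ∀ x ∈ L, VP P x →
    ∃ s t : ZZ, (s : Om) ∈ L ∧ (t : Om) ∈ L ∧ t ∉ P ∧ x * (t : Om) = (s : Om)

/-- (70 lines; uses S_Frac) **Finiteness of residues.** Let `A` be the ring of algebraic integers in `L` (finitely
generated as an additive group), `red` on `A` factors through `A / 2 A` (finite), so `red '' A` is finite; by
`S_Frac` every residue is `red s / red t` with `s, t ∈ A`. -/
def S_ResFin : Prop := ∀ (P : Ideal ZZ) (hP : P.IsPrime) (h0 : P ≠ ⊥), (2 : ZZ) ∈ P →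
  ∀ L : IntermediateField ℚ Om, FiniteDimensional ℚ L →
    {y : RF hP h0 | ∃ x ∈ L, VP P x ∧ red hP h0 x = y}.Finite

/-- `c` is the complex conjugation -/
def IsCj (c : Gal(Om/ℚ)) : Prop := ∀ x : Om, io (c x) = (starRingEnd ℂ) (io x)

/-- (30 lines) **Complex conjugation on K.** `io` is injective; `conj wC = 1 - wC` (real part `1/2`, `io wO = wC`);
`conj (conj y) = y`; `toO v = v.re + v.im * wO`, `cjO v = ⟨v.re + v.im, -v.im⟩`. -/
def S_Cc : Prop := ∀ c : Gal(Om/ℚ), IsCj c →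
  c wO = 1 - wO ∧ (∀ x, c (c x) = x) ∧ (∀ v : OO, c (toO v) = toO (cjO v)) ∧ ∀ x ∈ KQ, c x ∈ KQ

/-- (120 lines; uses S_Cc) **The field K at the primes above 2.** (1) `toO v ∈ MP P` iff `π ∣ v`: if `π ∣ v` clear
(`toO pO = wO`); otherwise `v - 1` is divisible by `π` (`v.re` is odd: `pO * ⟨x, y⟩ = ⟨-2 y, x + y⟩`) and
`MP P (toO v)` would give `MP P 1`. (2) `x ∈ KQ` is `a + b wO` with `a, b : ℚ` (power basis; `KQ = adjoin ℚ {wO}`,
`wO ^ 2 = wO - 2`), so `x = toO v / (2 ^ k n)`, `n` odd. `2 = wO * wbO`, `wbO` a unit at `P`. Divide `v` by `π` as often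
as possible (`v ≠ 0`, norms): `v = π ^ j v'`, `π ∤ v'`, `toO v' - 1 ∈ MP P`;
`x = wO ^ (j - k) * toO v' / (wbO ^ k n)`; if `VP P x` then `j ≥ k`; `j > k` gives `MP P x`; `j = k`: all factors are
`= 1` modulo `MP P` (`wbO = 1 - wO`, `n` odd). (3) `x - c x = b (2 wO - 1)`, `(2 wO - 1) ^ 2 = -7`; so `7 b ^ 2` is in
`VP P`, `b` in `VP P` (valuation ring, `7` a unit); a rational number in `VP P` has an odd denominator
(`MP P 2`); then `a = x - b wO`. -/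
def S_KP : Prop := ∀ P : Ideal ZZ, AbPi P →
  (∀ v : OO, MP P (toO v) ↔ pO ∣ v) ∧
  (∀ x ∈ KQ, VP P x → MP P x ∨ MP P (x - 1)) ∧
  ∀ c : Gal(Om/ℚ), IsCj c → ∀ x ∈ KQ, VP P x → VP P (c x) →
    ∃ n : ℕ, Odd n ∧ ∃ v : OO, (n : Om) * x = toO v

/-! ## B. The Galois group of L over K -/

/-- a system of representatives of `Gal(L/K)` in `Gal(Om/K)` -/
structure IsSg (f : ℕ) (Sg : Finset Gal(Om/ℚ)) : Prop where
  mem : ∀ s ∈ Sg, s ∈ GK
  ex : ∀ τ ∈ GK, ∃ s ∈ Sg, ∀ x ∈ Lf f, s x = τ x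
  uni : ∀ s ∈ Sg, ∀ s' ∈ Sg, (∀ x ∈ Lf f, s x = s' x) → s = s'

/-- (140 lines; uses S_E1, S_E7, S_E8, S_E9, S_UHN, S_UCop) **Galois theory of L.** (1) `S_E8` with `N = f`,
`H = Hf f`. (2) `GK = KQ.fixingSubgroup`, `wO ∈ KQ`. (3) `S_E7`, choice. (4) `Sg`: `Lf f` is finite over `ℚ`, so there are
finitely many restrictions of automorphisms to it; choose one element of `GK` for each restriction of an
element of `GK`. (5) `S_E9`. (6) infinite Galois theory (`InfiniteGalois.fixedField_fixingSubgroup`, or: the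
fixed field of the fixing subgroup of `KQ` is `KQ`). (7) `Psi` is multiplicative, by definition
(`τ (τ' (x(v/N))) = x(a a' v/N)`), and so are inverses. (8) If `f ∣ a' - h a`, `h ∈ H_f`: `ρ = τ⁻¹ τ'`
(`Psi ρ f b` with `b a = a'` modulo `f`, so `b = h` modulo `f`, in `H_f`) is trivial on `L` by `S_E8`; the converse
in the same way; uniqueness of `Psi` modulo `f` is in `S_E1`. (9) is (8) with `a a' = a' a`. -/
def S_Gal : Prop := ∀ f : ℕ, Odd f → 7 ∣ f →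
  FiniteDimensional ℚ (Lf f) ∧ wO ∈ Lf f ∧ (∀ τ ∈ GK, τ wO = wO) ∧
  (∃ σ : OO → Gal(Om/ℚ), FH.IsSig f σ) ∧ (∃ Sg : Finset Gal(Om/ℚ), IsSg f Sg) ∧
  (∀ τ : Gal(Om/ℚ), ∀ x ∈ Lf f, τ x ∈ Lf f) ∧
  (∀ x : Om, (∀ τ ∈ GK, τ x = x) → x ∈ KQ) ∧
  (∀ (τ τ' : Gal(Om/ℚ)) (N : ℕ) (a a' : OO), Psi τ N a → Psi τ' N a' →
    Psi (τ * τ') N (a * a')) ∧
  (∀ τ ∈ GK, ∀ τ' ∈ GK, ∀ a a' : OO, Psi τ f a → Psi τ' f a' →
    ((∀ x ∈ Lf f, τ x = τ' x) ↔ ∃ h : OO, Hf f h ∧ (f : OO) ∣ a' - h * a)) ∧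
  ∀ τ ∈ GK, ∀ τ' ∈ GK, ∀ x ∈ Lf f, τ (τ' x) = τ' (τ x)

/-- (110 lines; uses S_E9, S_Frac) **The action of `GK` on the residues of L is faithful.** `ρ = s'⁻¹ s`, `P' = s'⁻¹ • P`
(a nonzero prime above `2`). From the hypothesis `MP P' (ρ x - x)` for algebraic integers `x ∈ L` (`mp_smul_iff`), and then
by `S_Frac` for all `x ∈ L` with `VP P' x`: `x t = s`, `(ρ x - x) ρ(t) = (ρ s - s) - x (ρ t - t)`, `ρ t` is a
unit at `P'` (`ρ t - t ∈ P'`, `t ∉ P'`). `S_E9` (4). -/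
def S_Dist : Prop := ∀ f : ℕ, Odd f → 7 ∣ f → ∀ P : Ideal ZZ, P.IsPrime → P ≠ ⊥ → MP P 2 →
  ∀ s ∈ GK, ∀ s' ∈ GK, (∀ x ∈ Lf f, IsIntegral ℤ x → MP P (s x - s' x)) →
    ∀ x ∈ Lf f, s x = s' x

open Classical in
/-- `χ(a)` for the number `a` by which `τ` acts on the `f`-torsion -/
def chG (f : ℕ) (χ : OO → Om) (τ : Gal(Om/ℚ)) : Om :=
  if h : ∃ a : OO, Psi τ f a then χ h.choose else 0

/-- (90 lines; uses S_E1, S_Gal, S_UHN) **Characters of the Galois group.** `χ 1 = 1` and `χ(h) = 1` for `h ∈ H_f`: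
`h ^ (2 ^ k) = 1` modulo `f` and `χ(h) ^ m = 1` with `m` odd. So `χ(h v) = χ(v)`, `χ(-v) = χ(v)`. (1) by `S_E1`
(uniqueness modulo `f`) and periodicity. (2) roots of unity are units (integral, with integral inverse).
(3) `Psi` is multiplicative. (4) `S_Gal`. (5) `Psi (σ v) f (±v)`. -/
def S_Chi : Prop := ∀ (f : ℕ) (χ : OO → Om), Odd f → 7 ∣ f → IsChi f χ →
  (∀ v h : OO, Hf f h → χ (h * v) = χ v) ∧ (∀ v : OO, χ (-v) = χ v) ∧ χ 1 = 1 ∧
  (∀ (τ : Gal(Om/ℚ)) (a : OO), Psi τ f a → chG f χ τ = χ a) ∧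
  (∀ τ ∈ GK, ∀ P : Ideal ZZ, P.IsPrime → UP P (chG f χ τ)) ∧
  (∀ τ ∈ GK, ∀ τ' ∈ GK, chG f χ (τ * τ') = chG f χ τ * chG f χ τ') ∧
  (∀ τ ∈ GK, ∀ τ' ∈ GK, (∀ x ∈ Lf f, τ x = τ' x) → chG f χ τ = chG f χ τ') ∧
  ∀ σ : OO → Gal(Om/ℚ), FH.IsSig f σ → ∀ v : OO, Cop v f → chG f χ (σ v) = χ v

/-- (90 lines; uses S_B12, S_A0, S_Cc, S_UNm) **Complex conjugation and the Galois action.** For `z = toC v / N` (torsion, so
`io (xO z) = XC z`): `c (xO z) = xO (conj z)`, `c (yO z) = yO (s conj z)`, `s = ±1` the sign of `S_B12`, and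
`conj (toC v / N) = toC (cjO v) / N`; `c (c x) = x`. So `c τ c` maps `xO (v/N)` to `c (xO (s' a cjO v/N))`
etc.: it acts as `cjO a` (the sign `s` appears twice). `c τ c` fixes `wO` if `τ` does: `c wO = 1 - wO`. -/
def S_Cj : Prop := ∀ c : Gal(Om/ℚ), IsCj c →
  (∀ (τ : Gal(Om/ℚ)) (N : ℕ) (a : OO), 0 < N → Psi τ N a → Psi (c * τ * c) N (cjO a)) ∧
  (∀ τ ∈ GK, c * τ * c ∈ GK) ∧ c * c = 1

open Classical in
/-- the order of `H_f` modulo `f` -/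
def nH (f : ℕ) : ℕ := sumO f fun v => if Hf f v then 1 else 0

open Classical in
/-- (120 lines; uses S_Gal, S_USum, S_UHN, S_UCop) **Sums over `O/f` and over the Galois group.** `nH f > 0`: `1 ∈ H_f`
(some representative of `1`). The function `v ↦ [Cop v f] F(σ v)` is `f`-periodic: `S_Gal` (the equivalence with
`h = ±1`) and the assumption on `F`. Let `R` be a system of representatives of `O/f` (`S_USum`); for `s ∈ Sg` let
`R_s` be the set of the `v ∈ R`, `Cop v f`, for which `σ v = s` on `L`; these are disjoint and cover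
`{v ∈ R : Cop v f}`. If `Psi s f a` then `v ∈ R_s` iff `v = h a` modulo `f` for some `h ∈ H_f`, and `h ↦ h a` is a
bijection of the residue classes of `H_f` onto those of `R_s`: `card R_s = nH f`. -/
def S_SumC : Prop := ∀ (f : ℕ) (σ : OO → Gal(Om/ℚ)) (Sg : Finset Gal(Om/ℚ)), Odd f → 7 ∣ f →
  FH.IsSig f σ → IsSg f Sg → 0 < nH f ∧ ∀ F : Gal(Om/ℚ) → Om,
    (∀ τ ∈ GK, ∀ τ' ∈ GK, (∀ x ∈ Lf f, τ x = τ' x) → F τ = F τ') →
    sumO f (fun v => if Cop v f then F (σ v) else 0) = (nH f : Om) * ∑ s ∈ Sg, F s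

/-! ## C. The element beta (F1) -/

/-- (150 lines; uses S_Lin, S_ResFin, S_Dist, S_Cc, S_KP, S_Gal) **The element beta (F1).** (1) `R = {x ∈ L : VP P (τ x) for all
τ ∈ GK}`, a subring of `L` (a ring containing all algebraic integers of `L`); for `s ∈ Sg` (a subtype, `Fintype`)
`r_s(x) = red (s x)`, a ring homomorphism `R → RF`. Injectivity: `S_Dist` and `IsSg.uni`. Finite range:
`S_ResFin` for each coordinate. For `x ∈ R` the sum `y = ∑ s x` is fixed by `GK` (`τ s` runs through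
representatives: reindex `Sg`), so `y ∈ KQ`, `VP P y`, and `red y ∈ {0, 1}` by `S_KP`. `S_Lin` with
`k_s = red (κ s) ≠ 0` gives `b ∈ R` with `¬ MP P (s0 b)` for some `s0 ∈ Sg` and `MP P (∑ s(b w))` for `w ∈ S`. (`S ⊂ R`
since `VP P (τ w)` iff `VP (τ⁻¹ P) w`.) (2) `b1 = s0 b`: `UP P b1`, `b1 ∈ R`, and
`∑_s s(b1 w) = ∑_s (s s0)(b * s0⁻¹ w) = ∑_s' s'(b w')`, `w' = s0⁻¹ w ∈ S` (reindex). (3) choose `k` with
`VP P (2 ^ k * τ (c b1))` for all `τ ∈ GK` (finitely many values: `τ (c b1)`, `c b1 ∈ L`, depends only on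
`τ|L`), and `β = wbO ^ (k+1) * b1 + wO`. For `τ ∈ GK`: `τ β = wbO ^ (k+1) τ b1 + wO` in `VP`; `UP P β` (`wbO` a unit,
`MP P wO`); `τ (c β) = wO ^ (k+1) τ (c b1) + wbO` (`c wbO = wO`, `c wO = wbO`), and
`wO ^ k τ(c b1) = (2 ^ k τ (c b1)) / wbO ^ k` in `VP`, so `τ (c β) - 1 = wO (..) - wO` in `MP`;
`∑ s(β w) = wbO ^ (k+1) ∑ s(b1 w) + wO ∑ s w` in `MP`. -/
def S_Beta : Prop := ∀ (f : ℕ) (P : Ideal ZZ) (Sg : Finset Gal(Om/ℚ)) (c : Gal(Om/ℚ)), Odd f → 7 ∣ f →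
  AbPi P → IsSg f Sg → IsCj c → ∀ (κ : Gal(Om/ℚ) → Om) (S : Set Om), (∀ s ∈ Sg, UP P (κ s)) →
  (∀ w ∈ S, w ∈ Lf f ∧ ∀ Q : Ideal ZZ, Npr Q → MP Q 2 → VP Q w) → (∀ w ∈ S, ∀ τ ∈ GK, τ w ∈ S) →
  (∀ w ∈ S, MP P (∑ s ∈ Sg, κ s * s w)) →
  ∃ β ∈ Lf f, UP P β ∧ (∀ τ ∈ GK, VP P (τ β)) ∧ (∀ τ ∈ GK, MP P (τ (c β) - 1)) ∧
    ∀ w ∈ S, MP P (∑ s ∈ Sg, s (β * w))

open Classical in
/-- the class function `v ↦ σ_v(β)` -/
def kb (f : ℕ) (σ : OO → Gal(Om/ℚ)) (β : Om) (v : OO) : Om := if Cop v f then σ v β else 0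

/-- the theta function of `ε kb` -/
def Tb (f : ℕ) (σ : OO → Gal(Om/ℚ)) (β : Om) (z : ℂ) : ℂ :=
  Th (fun v => (eps v : ℂ) * io (kb f σ β v)) z

open Classical in
/-- the property of the periods which is stated in `S_E14` -/
def IsLam (f : ℕ) (lam : ℤ → ℤ → Om) : Prop :=
  (∀ b d : ℤ, lam b d ∈ Lf f ∧ ∀ P : Ideal ZZ, Npr P → MP P 2 → VP P (lam b d)) ∧
    ∀ (κ : OO → Om) (σ : OO → Gal(Om/ℚ)), (∀ v u, κ (v + f * u) = κ v) →
      (∀ v h, Hf f h → κ (h * v) = κ v) → (∀ v, ¬ Cop v f → κ v = 0) →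
      (∀ v, Cop v f → σ v ∈ GK ∧ (Psi (σ v) f v ∨ Psi (σ v) f (-v))) →
      ∀ a b c d : ℤ, G0 (7 * f ^ 2) a b c d → (7 * f ^ 2 : ℤ) ∣ d - 1 → ∀ z : ℂ, 0 < z.im →
        sumO f (fun v => if Hf f v then (1 : ℂ) else 0) *
          (Th (fun v => eps v * io (κ v)) ((a * z + b) / (c * z + d)) -
            Th (fun v => eps v * io (κ v)) z) =
        OmC * io (sumO f (fun v => if Cop v f then κ v * σ v (lam b d) else 0))

/-- (70 lines; uses S_Gal, S_UHN, S_UCop, S_UEps) **The functions `kb`.** `σ (v + f u)`, `σ (h v)`, `σ (-v)` and `σ v` agree on `L`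
(`S_Gal`: the equivalence with elements of `H_f`; `-1 ∈ H_f`), `σ 1` is the identity on `L`; `Cop` is periodic;
`kb v ∈ L`. `eps (-v) = -eps v`, `eps` is periodic modulo `7`. -/
def S_Kb : Prop := ∀ (f : ℕ) (σ : OO → Gal(Om/ℚ)) (β : Om), Odd f → 7 ∣ f → FH.IsSig f σ → β ∈ Lf f →
  (∀ v u, kb f σ β (v + f * u) = kb f σ β v) ∧ (∀ v h, Hf f h → kb f σ β (h * v) = kb f σ β v) ∧
  (∀ v, ¬ Cop v f → kb f σ β v = 0) ∧ (∀ v, kb f σ β (-v) = kb f σ β v) ∧ kb f σ β 1 = β ∧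
  (∀ v, kb f σ β v ∈ Lf f) ∧ IsRho f (fun v => (eps v : ℂ) * io (kb f σ β v))

/-- (80 lines; uses S_Gal, S_SumC, S_Kb) **Periods of the functions `Tb`.** `IsLam` with `κ = kb f σ β` (`S_Kb`): the sum on the right is
that of `F(τ) = τ (β * lam b d)`, so by `S_SumC` it is `nH f * ∑ s(β lam)`; `sumO f [Hf f v] = nH f` in `ℂ`; cancel
`nH f ≠ 0`. -/
def S_Per : Prop := ∀ (f : ℕ) (σ : OO → Gal(Om/ℚ)) (Sg : Finset Gal(Om/ℚ)) (lam : ℤ → ℤ → Om) (β : Om),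
  Odd f → 7 ∣ f → FH.IsSig f σ → IsSg f Sg → IsLam f lam → β ∈ Lf f →
  ∀ a b c d : ℤ, G0 (7 * f ^ 2) a b c d → (7 * f ^ 2 : ℤ) ∣ d - 1 → ∀ z : ℂ, 0 < z.im →
    Tb f σ β ((a * z + b) / (c * z + d)) - Tb f σ β z = OmC * io (∑ s ∈ Sg, s (β * lam b d))

/-- (120 lines; uses S_B0, S_C1, S_E11, S_Gal, S_SumC, S_Chi, S_UEps) **The periods of `Th_χ` in terms of `eta`.** `ρ = ε χ` (values in
`Om`), `ρ' = io ∘ ρ`, `IsRho`. `S_C1` at `r = 0` and at any `z` (`ρ'_d = ρ'`, `eps d = 1`, because `d = 1` modulo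
`7 f ^ 2`): `hC ρ' (b/d) - hC ρ' 0 = Φ = Th ρ' (g z) - Th ρ' z`. `IsLam` with `κ = χ` and `S_SumC` with
`F(τ) = chG f χ τ * τ (lam b d)`: `Φ = OmC * io (∑ chG s * s(lam b d))`. `io (etaX χ r) * OmC = hC ρ' r` for
`r = b/d`, `0` (`S_E11` for `b/n`, `n > 0`: if `d < 0` write `b/d = (-b)/(-d)`; `d ≠ 0` since `7 f ^ 2 ∣ d - 1`). -/
def S_EtaP : Prop := ∀ (f : ℕ) (χ : OO → Om) (Sg : Finset Gal(Om/ℚ)) (lam : ℤ → ℤ → Om), Odd f → 7 ∣ f →
  IsChi f χ → IsSg f Sg → IsLam f lam →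
  ∀ a b c d : ℤ, G0 (7 * f ^ 2) a b c d → (7 * f ^ 2 : ℤ) ∣ d - 1 →
    etaX χ (b / d) - etaX χ 0 = ∑ s ∈ Sg, chG f χ s * s (lam b d)

/-- (130 lines; uses S_B0, S_C5, S_E11, S_Gal, S_Chi, S_Cc, S_Cj, S_EtaP, S_UEps, S_UNm, S_UHN, S_UCop) **The periods at `-b/d`.** `χ'(v) = c (χ (cjO v))`
is again a character (`IsChi f χ'`), `ρ = ε χ`, `ρ*(v) = conj (io (ρ (cjO v))) = io ((ε χ')(v))` (`eps (cjO v) = eps v`). `S_C5`:
`conj (hC (io ∘ ρ) (-r)) = hC (io ∘ ε χ') r`, so with `conj OmC = sg OmC` and `S_E11`: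
`io (etaX χ (-r)) = sg conj (io (etaX χ' r))`, i.e. `etaX χ (-r) = sg c (etaX χ' r)`. `S_EtaP` for `χ'`:
`etaX χ (-(b/d)) - etaX χ 0 = sg c (∑ chG χ' s * s (lam)) = sg ∑ c(chG χ' s) * (c s c)(c lam)` and
`c (chG χ' s) = χ (cjO a) = chG χ (c s c)` for `Psi s f a` (`S_Cj`). The elements `c s c`, `s ∈ Sg` are again
representatives of `Gal(L/K)`: reindex (both factors only depend on the restriction to `L`). -/
def S_EtaM : Prop := ∀ (f : ℕ) (χ : OO → Om) (Sg : Finset Gal(Om/ℚ)) (lam : ℤ → ℤ → Om) (c' : Gal(Om/ℚ))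
  (sg : ℤ), Odd f → 7 ∣ f → IsChi f χ → IsSg f Sg → IsLam f lam → IsCj c' → (sg = 1 ∨ sg = -1) →
  (starRingEnd ℂ) OmC = sg * OmC →
  ∀ a b c d : ℤ, G0 (7 * f ^ 2) a b c d → (7 * f ^ 2 : ℤ) ∣ d - 1 →
    etaX χ (-(b / d)) - etaX χ 0 = sg * ∑ s ∈ Sg, chG f χ s * s (c' (lam b d))

/-- (60 lines) **Finitely many generators.** `SL(2, ℤ)` is generated by two elements
(`Matrix.SpecialLinearGroup.SL2Z_generators`), `Gamma1 M` has finite index (`instFiniteIndexGamma1`), so it is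
finitely generated (`Subgroup.fg_of_index_ne_zero`, Schreier); `T` = the images of the generators (induction:
`Subgroup.closure_induction`; `φ 1 = 0`, `φ g⁻¹ = -φ g`). -/
def S_Fg : Prop := ∀ (M : ℕ) [NeZero M] (A : Type) [AddCommGroup A] (φ : SL(2, ℤ) → A),
  (∀ g ∈ Gamma1 M, ∀ h ∈ Gamma1 M, φ (g * h) = φ g + φ h) →
    ∃ T : Finset A, (∀ t ∈ T, ∃ g ∈ Gamma1 M, φ g = t) ∧
      ∀ g ∈ Gamma1 M, φ g ∈ AddSubgroup.closure (T : Set A)

/-- (150 lines; uses S_B0, S_B12, S_A1, S_Gal, S_Chi, S_Cc, S_KP, S_Cj, S_Fg, S_Beta, S_Per, S_EtaP, S_EtaM, S_UNm) **OUTPUT OF F1.** `Sg` from `S_Gal`, `c` from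
`S_A1`, `sg` from `S_B12`. `lp b d = lam b d + sg c (lam b d)` is in `L`, integral at all primes above `2` (`VP Q (c x)`
iff `VP (c⁻¹ Q) x`); `S` = the set of all `τ (lp b d)`, `τ ∈ GK`, `g ∈ Γ_1`. By the hypothesis, `S_EtaP`, `S_EtaM`:
`MP P (∑ chG s * s (lp b d))`, and for `w = τ (lp b d)` the sum `∑ chG s * s w` is `chG τ⁻¹ ∑ chG (s τ) (s τ)(lp)`:
reindex. `S_Beta` gives `β`. Put `pA = ∑ s(β lam b d)`, `pB = ∑ s(c β lam b d)`: both are fixed by `GK`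
(reindex), so in `KQ`; `VP P` and `VP P (c ·)` hold for both (`VP P (s (c β))` because `c β - 1` is in `MP` at all
conjugates; `c (s x) = (c s c)(c x)`; `lam` is integral at all primes above `2`), so by `S_KP` they are in
`(1/n) O`, `n` odd. `pA`, `pB` as functions of `g ∈ Γ_1(7 f ^ 2)` are additive: by `S_Per` (`S_B0`: `OmC ≠ 0`) they are
`(Tb (g z) - Tb z) / OmC`, and `Tb (g g' z) - Tb z` is the sum of two such differences. `S_Fg`: there is one odd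
`N0` with `N0 pA = toO α`, `N0 pB = toO α'` for all `g` (product of the odd numbers for the generators).
Parity: `∑ s(β lp) = pA + sg ∑ s(β c lam) = pA + sg c(pB)` (`∑ s (β c lam) = ∑ s (c (c β lam)) = c ∑ (c s c)(c β lam)`),
in `MP P` (`S_Beta`, `lp ∈ S`): times `N0`: `MP P (toO (α + sg cjO α'))`, so `π ∣ α + sg cjO α'` and `π ∣ α` iff
`π ∣ cjO α'` iff `pb ∣ α'`. -/
def S_F1 : Prop := ∀ (f : ℕ) (χ : OO → Om) (P : Ideal ZZ) (σ : OO → Gal(Om/ℚ)) (lam : ℤ → ℤ → Om),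
  Odd f → 7 ∣ f → IsChi f χ → AbPi P → FH.IsSig f σ → IsLam f lam →
  (∀ a b c d : ℤ, G0 (7 * f ^ 2) a b c d → (7 * f ^ 2 : ℤ) ∣ d - 1 →
    MP P (etaX χ (b / d) + etaX χ (-(b / d)) - 2 * etaX χ 0)) →
  ∃ (β β' : Om) (N0 : ℤ), β ∈ Lf f ∧ β' ∈ Lf f ∧ UP P β ∧ UP P β' ∧
    (∀ τ ∈ GK, VP P (τ β) ∧ VP P (τ β')) ∧ Odd N0 ∧
    ∀ a b c d : ℤ, G0 (7 * f ^ 2) a b c d → (7 * f ^ 2 : ℤ) ∣ d - 1 → ∃ α α' : OO,
      (pO ∣ α ↔ pbO ∣ α') ∧ ∀ z : ℂ, 0 < z.im →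
        (N0 : ℂ) * (Tb f σ β ((a * z + b) / (c * z + d)) - Tb f σ β z) = OmC * toC α ∧
        (N0 : ℂ) * (Tb f σ β' ((a * z + b) / (c * z + d)) - Tb f σ β' z) = OmC * toC α'

/-! ## D. The square root functions (F2) -/

/-- `(p, pb)` is `(π, π̄)` or `(π̄, π)` -/
def PP (p pb : ℂ) : Prop := (p = wC ∧ pb = wbC) ∨ (p = wbC ∧ pb = wC)

/-- the function `G_s` (`p = π`) or `G_t` (`p = π̄`) of note 4042, F2 -/
def Gp (p pb : ℂ) (z : ℂ) : ℂ :=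
  (2 * YC (z / p) + XC (z / p)) / (2 * p * (XC (z / p) - pb / p ^ 2))

/-- (150 lines; uses S_B0, S_B1, S_B2, S_B3, S_B6, S_B7, S_B14) **The functions G (F2).** `p + pb = 1`, `p pb = 2`, `p ^ 2 = p - 2`. Put
`z' = z / p`. (1) `z` not in the lattice: `z'`, `p z'` are not in the lattice; `(2Y + X)^2 = 4X^3 - 3X^2 - 8X - 4
= 4 (X - 2)(X - p/pb^2)(X - pb/p^2)` (`S_B1`) and `X(z) (p^2 X' - pb) = X'^2 - p` (`S_B6`), `X' = X(z')`, so
`X(z) - p/pb^2 = (X' - p/pb^2)(X' - 2)/(p^2 X' - pb) = Gp^2`. (2) `v = p v'`: `(z + v)/p = z' + v'`, periodicity.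
(3) otherwise `v = 1 + p v'` (`v - 1` is divisible by `p`: `O/p` has two elements), so `(z + v)/p = z' + 1/p + v'`. If
`z` is in the lattice, both sides are `0`: `2Y + X` vanishes at `z'` and at `z' + 1/p`, because these points are
lattice points (`S_B0`) or points with `2 · ` in the lattice (`S_B3`; `2 z' = pb (p z')`). Otherwise
`F(w) = X(w) - pb/p^2` satisfies `F(w + 1/p) F(w) = (pb^2 - p^5)/p^4` for all `w` near `z'` (`S_B7`, `w`, `p w` not in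
the lattice: an open condition), a nonzero constant; differentiate (`S_B14`, `X' = Omega (2Y + X)`):
`(2Y + X)/F` at `w + 1/p` is minus that at `w`. (4) `XC`, `YC` are meromorphic
(`PeriodPair.meromorphic_weierstrassP`), so is `Gp`. -/
def S_Gp : Prop := ∀ p pb : ℂ, PP p pb →
  (∀ z : ℂ, ¬ Lat z → Gp p pb z ^ 2 = XC z - p / pb ^ 2) ∧
  (∀ (z : ℂ) (v v' : OO), toC v = p * toC v' → Gp p pb (z + toC v) = Gp p pb z) ∧
  (∀ (z : ℂ) (v : OO), (∀ v' : OO, toC v ≠ p * toC v') → Gp p pb (z + toC v) = -Gp p pb z) ∧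
  Meromorphic (Gp p pb)

/-- (110 lines; uses S_B0, S_B1, S_B3) **The lattice `Ω O`.** `Λ = (Ω, Ω w)`; `Λ.lattice = Ω · O`; the sum over `Λ.lattice` is reindexed by
`LO.lattice`: `Λ.weierstrassP (Ω z) = LO.weierstrassP z / Ω ^ 2`, `Λ.derivWeierstrassP (Ω z) = LO.derivWeierstrassP z / Ω ^ 3`,
so (3), (4) by the definitions of `XC`, `YC`. `g₂`, `g₃`: by `S_B1` `(2Y + X)^2 = 4X^3 - 3X^2 - 8X - 4`, i.e. for
`wp = X - 1/4`: `wp'^2 = 4 wp^3 - (35/4) wp - 49/8` off the lattice; compare with `derivWeierstrassP_sq`: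
`(Λ.g₂ - 35/4) wp + (Λ.g₃ - 49/8) = 0` off the lattice, and `XC` takes two different values there (`S_B3`). -/
def S_Lam : Prop := ∃ Λ : PeriodPair, Λ.g₂ = 35 / 4 ∧ Λ.g₃ = 49 / 8 ∧
  (∀ z : ℂ, XC z = Λ.weierstrassP (OmC * z) + 1 / 4 ∧
    2 * YC z + XC z = Λ.derivWeierstrassP (OmC * z)) ∧
  ∀ z : ℂ, Lat z ↔ OmC * z ∈ Λ.lattice

/-! ## E. The function Psi and its expansions (F3) -/

/-- the function `Psi` of note 4042, F2 -/
def PsiF (f : ℕ) (σ : OO → Gal(Om/ℚ)) (β β' : Om) (N0 : ℤ) (z : ℂ) : ℂ :=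
  wC * Gp wC wbC ((N0 : ℂ) * Tb f σ β z / OmC) * Gp wbC wC ((N0 : ℂ) * Tb f σ β' z / OmC)

/-- (80 lines; uses S_C6, S_Gp, S_Kb, S_UNm) **Psi is meromorphic and invariant.** (1) `Tb` is holomorphic on the upper half plane
(`S_C6`, `IsRho` by `S_Kb`; open set, so analytic), `Gp` meromorphic (`S_Gp`):
`MeromorphicAt.comp_analyticAt`. (2) from the property of the `α, α'` and `S_Gp` (2), (3): the arguments change by
`toC α`, `toC α'`, the signs are equal by `π ∣ α ↔ pb ∣ α'` (`toC pO = wC`, `toC pbO = wbC`, `toC` injective).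
`γ • z` has the coordinate `(a z + b)/(c z + d)` (`UpperHalfPlane.specialLinearGroup_apply`), `Gamma1_mem`
for the level `7 f ^ 2`. -/
def S_PsiInv : Prop := ∀ (f : ℕ) (σ : OO → Gal(Om/ℚ)) (β β' : Om) (N0 : ℤ), Odd f → 7 ∣ f →
  FH.IsSig f σ → β ∈ Lf f → β' ∈ Lf f →
  (∀ z : ℂ, 0 < z.im → MeromorphicAt (PsiF f σ β β' N0) z) ∧
  ((∀ a b c d : ℤ, G0 (7 * f ^ 2) a b c d → (7 * f ^ 2 : ℤ) ∣ d - 1 → ∃ α α' : OO,
      (pO ∣ α ↔ pbO ∣ α') ∧ ∀ z : ℂ, 0 < z.im →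
        (N0 : ℂ) * (Tb f σ β ((a * z + b) / (c * z + d)) - Tb f σ β z) = OmC * toC α ∧
        (N0 : ℂ) * (Tb f σ β' ((a * z + b) / (c * z + d)) - Tb f σ β' z) = OmC * toC α') →
    OmC ≠ 0 → ∀ γ ∈ Gamma1 (7 * f ^ 2), ∀ z : UpperHalfPlane,
      PsiF f σ β β' N0 ((γ • z : UpperHalfPlane) : ℂ) = PsiF f σ β β' N0 (z : ℂ))

/-- (90 lines; uses S_C2, S_Gp, S_Kb) **Psi at the cusps.** `S_C2` for the matrix `γ` and `ρ = ε io(kb)`: with `t = ex (z / (7 f^2))`: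
`Tb f σ β (γ z) = al(t)`, `al(t) = c0 + ∑ cf n * t ^ (n+1)`, a power series convergent for `‖t‖ < 1` (coefficients
`O(n^3)`), analytic at `0`. `F(t) = wC * Gp wC wbC (N0 al t / OmC) * Gp wbC wC (N0 al' t / OmC)` is meromorphic
at `0` (`MeromorphicAt.comp_analyticAt`, `S_Gp`); `Y = 0`. -/
def S_PsiCusp : Prop := ∀ (f : ℕ) (σ : OO → Gal(Om/ℚ)) (β β' : Om) (N0 : ℤ), Odd f → 7 ∣ f →
  FH.IsSig f σ → β ∈ Lf f → β' ∈ Lf f → ∀ γ : SL(2, ℤ),
    ∃ (F : ℂ → ℂ) (Y : ℝ), MeromorphicAt F 0 ∧ ∀ z : UpperHalfPlane, Y < z.im →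
      PsiF f σ β β' N0 ((γ • z : UpperHalfPlane) : ℂ) =
        F (Complex.exp (2 * Real.pi * Complex.I * (z : ℂ) / (7 * f ^ 2 : ℕ)))

/-- (110 lines; uses S_C6, S_UNm, S_UEps, S_Gal, S_Kb) **The q-expansion.** `FH.uS f σ N0 β` is the power series with the coefficients
`(∑_(v ∈ lev n) uF v) / 2`, `uF v = N0 eps v * σ v β / toO v` for `Cop v f`, else `0`, i.e. `N0 * eps v * kb f σ β v / toO v`.
(1) `N0 Tb f σ β z = (N0/2) ∑_v ..` is absolutely convergent (`S_C6`, `IsRho` by `S_Kb`); group the `v` by the norm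
(`Nm v ≥ 0`, `FH.mem_lev`; `ex (Nm v z) = ex z ^ n`): `HasSum.sigma` over the fibres of `v ↦ (Nm v).toNat`. (2) `n = 0`:
`lev 0 = {0}`, `0` is not prime to `f`; `n = 1`: `v = ±1`, both terms are `N0 β` (`eps (-v) = -eps v`,
`kb (-v) = kb v`, `kb 1 = β`); coefficients in `L` by `S_Kb`, `toO v ∈ KQ ≤ L` (`wO ∈ Lf f`). -/
def S_uHas : Prop := ∀ (f : ℕ) (σ : OO → Gal(Om/ℚ)) (β : Om) (N0 : ℤ), Odd f → 7 ∣ f →
  FH.IsSig f σ → β ∈ Lf f →
  (∀ z : ℂ, 0 < z.im → HasSum (fun n : ℕ => io (PowerSeries.coeff n (FH.uS f σ N0 β)) * ex z ^ n)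
    ((N0 : ℂ) * Tb f σ β z)) ∧
  PowerSeries.coeff 0 (FH.uS f σ N0 β) = 0 ∧ PowerSeries.coeff 1 (FH.uS f σ N0 β) = N0 * β ∧
  ∀ n, PowerSeries.coeff n (FH.uS f σ N0 β) ∈ Lf f

/-- (150 lines; uses S_B0, S_Gp, S_Lam, S_uHas, S_Gal, S_F3core) **The expansion of Psi.** `k = (Lf f).toSubfield.map io`, `Λ` from `S_Lam`, `p = wC`,
`pb = wbC`. `uA(q) = ∑' io (coeff n (FH.uS f σ N0 β)) q ^ n`, convergent for `‖q‖ < 1` (`S_uHas` at any `z`, every `q` with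
`0 < ‖q‖ < 1` is `ex z`), so `Co k uA` (`S_Tay` style uniqueness; it is also possible to take `uA` = sum of the power
series and the radius of convergence), `tay uA = map io (FH.uS f σ N0 β)`, `uA 0 = 0`, `deriv uA 0 = io (N0 β) ≠ 0`; the same
for `β'`. `GG Λ p (pb/p^2 - 1/4) (OmC w) = Gp p pb w` for all `w` (`S_Lam`), so the hypotheses of `S_F3core` on
`GG^2` are `S_Gp` (1) for `w = u / OmC`, small `u ≠ 0` (not in the lattice: discreteness). `S_F3core` gives series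
over `ℂ` with coefficients in `k`; lift them to `Om` (choose preimages of the coefficients in `Lf f`; `map io`
is injective on power series). `uA (ex z) = N0 Tb f σ β z`, `ex z → 0` for `im z → ∞`, `ex z ≠ 0`. -/
def S_PsiExp : Prop := ∀ (f : ℕ) (σ : OO → Gal(Om/ℚ)) (β β' : Om) (N0 : ℤ), Odd f → 7 ∣ f →
  FH.IsSig f σ → β ∈ Lf f → β' ∈ Lf f → β ≠ 0 → β' ≠ 0 → N0 ≠ 0 →
  ∃ (TA WA TB WB ψ : PowerSeries Om) (Y : ℝ), (∀ n, PowerSeries.coeff n ψ ∈ Lf f) ∧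
    TWrel (FH.uS f σ N0 β) TA WA ∧ TWrel (FH.uS f σ N0 β') TB WB ∧
    ψ ≠ 0 ∧ ψ ^ 2 * WA * WB = PowerSeries.X ^ 4 * (TA - PowerSeries.C (wO / wbO ^ 2) * WA) *
      (PowerSeries.C (wO ^ 2) * TB - PowerSeries.C wbO * WB) ∧
    ∀ z : ℂ, Y < z.im → HasSum (fun n : ℕ => io (PowerSeries.coeff n ψ) * ex z ^ n)
      (ex z ^ 2 * PsiF f σ β β' N0 z)

end Pool.Agent.DI.F
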